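import Mathlib
/-!
A family of at most `ℵ₁` subsets of a set is modelled, up to finite sets, by subsets of `ℕ`.
-/
set_option autoImplicit false
open Cardinal Set

namespace Pool.Agent.H48.Par

variable {I K : Type}

/-- `m` and `x` have the same pattern on `s`. -/
def Same (a : I → Set K) (Φ : I → Set ℕ) (s : Finset I) (m : ℕ) (x : K) : Prop :=
  ∀ i ∈ s, (m ∈ Φ i ↔ x ∈ a i)

/-- finite patterns of `a` in `K` correspond to infinite patterns of `Φ` in `ℕ` -/
def Good (a : I → Set K) (Φ : I → Set ℕ) (C : Set I) : Prop :=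
  (∀ s : Finset I, (∀ i ∈ s, i ∈ C) → ∀ x : K, {m | Same a Φ s m x}.Infinite) ∧
  (∀ s : Finset I, (∀ i ∈ s, i ∈ C) → {m | ¬ ∃ x, Same a Φ s m x}.Finite)

theorem Same.mono {a : I → Set K} {Φ : I → Set ℕ} {s t : Finset I} (h : s ⊆ t) {m : ℕ} {x : K}
    (hs : Same a Φ t m x) : Same a Φ s m x := fun i hi => hs i (h hi)

theorem exists_block (a : I → Set K) (Φ : I → Set ℕ) (s : Finset I)
    (h : ∀ x : K, {m | Same a Φ s m x}.Infinite) (N : ℕ) :
    ∃ N', N < N' ∧ ∀ x : K, ∃ m1 m2, N ≤ m1 ∧ m1 < m2 ∧ m2 < N' ∧ Same a Φ s m1 x ∧ Same a Φ s m2 x := by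
  classical
  have h1 : ∀ p : Finset I, ∃ Np : ℕ, ∀ x : K, s.filter (fun i => x ∈ a i) = p →
      ∃ m1 m2, N ≤ m1 ∧ m1 < m2 ∧ m2 < Np ∧ Same a Φ s m1 x ∧ Same a Φ s m2 x := by
    intro p
    by_cases hp : ∃ x : K, s.filter (fun i => x ∈ a i) = p
    · obtain ⟨x0, hx0⟩ := hp
      obtain ⟨m1, hm1, hN1⟩ := (h x0).exists_gt N
      obtain ⟨m2, hm2, hN2⟩ := (h x0).exists_gt m1
      refine ⟨m2 + 1, fun x hx => ⟨m1, m2, hN1.le, hN2, Nat.lt_succ_self _, ?_, ?_⟩⟩
      · intro i hi
        have h2 := hm1 i hi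
        have h3 : (i ∈ s.filter (fun i => x0 ∈ a i)) ↔ (i ∈ s.filter (fun i => x ∈ a i)) := by
          rw [hx0, hx]
        simp only [Finset.mem_filter, hi, true_and] at h3
        rw [h2, h3]
      · intro i hi
        have h2 := hm2 i hi
        have h3 : (i ∈ s.filter (fun i => x0 ∈ a i)) ↔ (i ∈ s.filter (fun i => x ∈ a i)) := by
          rw [hx0, hx]
        simp only [Finset.mem_filter, hi, true_and] at h3
        rw [h2, h3]
    · exact ⟨0, fun x hx => absurd ⟨x, hx⟩ hp⟩
  choose Np hNp using h1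
  refine ⟨s.powerset.sup Np + N + 1, by omega, fun x => ?_⟩
  obtain ⟨m1, m2, h2, h3, h4, h5, h6⟩ := hNp _ x rfl
  refine ⟨m1, m2, h2, h3, ?_, h5, h6⟩
  have : Np (s.filter (fun i => x ∈ a i)) ≤ s.powerset.sup Np :=
    Finset.le_sup (f := Np) (Finset.mem_powerset.2 (Finset.filter_subset _ _))
  omega

theorem exists_step [Nonempty K] (a : I → Set K) (Φ : I → Set ℕ) (C : Set I) (hC : C.Countable)
    (h : Good a Φ C) (b : Set K) :
    ∃ c : Set ℕ, (∀ s : Finset I, (∀ i ∈ s, i ∈ C) → ∀ x : K,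
        {m | Same a Φ s m x ∧ (m ∈ c ↔ x ∈ b)}.Infinite) ∧
      (∀ s : Finset I, (∀ i ∈ s, i ∈ C) →
        {m | ¬ ∃ x, Same a Φ s m x ∧ (m ∈ c ↔ x ∈ b)}.Finite) := by
  classical
  -- exhausting sequence
  obtain ⟨t, htC, htm, htc⟩ : ∃ t : ℕ → Finset I, (∀ n, ∀ i ∈ t n, i ∈ C) ∧ Monotone t ∧
      ∀ s : Finset I, (∀ i ∈ s, i ∈ C) → ∃ n, s ⊆ t n := by
    rcases C.eq_empty_or_nonempty with hC0 | hC0
    · refine ⟨fun _ => ∅, by simp, monotone_const, fun s hs => ⟨0, fun i hi => ?_⟩⟩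
      have := hs i hi
      simp [hC0] at this
    · obtain ⟨f, hf⟩ := hC.exists_eq_range hC0
      refine ⟨fun n => (Finset.range n).image f, ?_, ?_, ?_⟩
      · intro n i hi
        obtain ⟨j, -, rfl⟩ := Finset.mem_image.1 hi
        rw [hf]; exact ⟨j, rfl⟩
      · intro m n hmn
        exact Finset.image_subset_image (Finset.range_mono hmn)
      · intro s hs
        have : ∀ i ∈ s, ∃ j, f j = i := fun i hi => by
          have := hs i hi
          rw [hf] at this; exact this
        choose! g hg using this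
        refine ⟨s.sup g + 1, fun i hi => Finset.mem_image.2 ⟨g i, ?_, hg i hi⟩⟩
        exact Finset.mem_range.2 (Nat.lt_succ_of_le (Finset.le_sup (f := g) hi))
  have hthr : ∀ l, ∃ N, ∀ m, N ≤ m → ∃ x, Same a Φ (t l) m x := by
    intro l
    obtain ⟨N, hN⟩ := (h.2 (t l) (htC l)).bddAbove
    refine ⟨N + 1, fun m hm => ?_⟩
    by_contra hcon
    have := hN (show m ∈ {m | ¬ ∃ x, Same a Φ (t l) m x} from hcon)
    omega
  choose thr hthr using hthr
  have hnx : ∀ l N : ℕ, ∃ N', N < N' ∧ thr (l + 1) ≤ N' ∧ ∀ x : K, ∃ m1 m2, N ≤ m1 ∧ m1 < m2 ∧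
      m2 < N' ∧ Same a Φ (t l) m1 x ∧ Same a Φ (t l) m2 x := by
    intro l N
    obtain ⟨N', hN', hb⟩ := exists_block a Φ (t l) (h.1 (t l) (htC l)) N
    refine ⟨max N' (thr (l + 1)), by omega, by omega, fun x => ?_⟩
    obtain ⟨m1, m2, h1, h2, h3, h4, h5⟩ := hb x
    exact ⟨m1, m2, h1, h2, by omega, h4, h5⟩
  choose nx hnx1 hnx2 hnx3 using hnx
  let n : ℕ → ℕ := fun l => Nat.rec (thr 0) (fun l N => nx l N) l
  have hn0 : n 0 = thr 0 := rfl
  have hns : ∀ l, n (l + 1) = nx l (n l) := fun l => rfl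
  have hnmono : StrictMono n := strictMono_nat_of_lt_succ (fun l => by rw [hns]; exact hnx1 _ _)
  have hnthr : ∀ l, thr l ≤ n l := by
    intro l
    cases l with
    | zero => exact le_of_eq hn0.symm
    | succ l => rw [hns]; exact hnx2 _ _
  let c : Set ℕ := {m | ∃ l, n l ≤ m ∧ m < n (l + 1) ∧ (∃ x ∈ b, Same a Φ (t l) m x) ∧
    ((∀ x, x ∉ b → ¬ Same a Φ (t l) m x) ∨
      (∀ m', n l ≤ m' → m' < m → ¬ ∀ i ∈ t l, (m' ∈ Φ i ↔ m ∈ Φ i)))}
  have huniq : ∀ l l' m, n l ≤ m → m < n (l + 1) → n l' ≤ m → m < n (l' + 1) → l = l' := by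
    intro l l' m h1 h2 h3 h4
    by_contra hne
    rcases lt_or_gt_of_ne hne with hlt | hlt
    · have := hnmono.monotone (show l + 1 ≤ l' by omega)
      omega
    · have := hnmono.monotone (show l' + 1 ≤ l by omega)
      omega
  refine ⟨c, ?_, ?_⟩
  · intro s hs x
    obtain ⟨l0, hl0⟩ := htc s hs
    refine Set.infinite_of_not_bddAbove ?_
    rintro ⟨M, hM⟩
    let l := max l0 (M + 1)
    have hsl : s ⊆ t l := hl0.trans (htm (le_max_left _ _))
    have hnl : M < n l := lt_of_lt_of_le (show M < l by omega) hnmono.le_apply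
    obtain ⟨m1, m2, h1, h2, h3, h4, h5⟩ := hnx3 l (n l) x
    rw [← hns] at h3
    by_cases hx : x ∈ b
    · -- take the least element in the block with the pattern of x
      have hex : ∃ m, n l ≤ m ∧ m < n (l + 1) ∧ Same a Φ (t l) m x := ⟨m1, h1, by omega, h4⟩
      obtain ⟨m0, ⟨h6, h7, h8⟩, hmin⟩ : ∃ m0, (n l ≤ m0 ∧ m0 < n (l + 1) ∧ Same a Φ (t l) m0 x) ∧
          ∀ m', m' < m0 → ¬ (n l ≤ m' ∧ m' < n (l + 1) ∧ Same a Φ (t l) m' x) := by
        obtain ⟨m0, h1, h2⟩ := WellFounded.has_min (wellFounded_lt (α := ℕ))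
          {m | n l ≤ m ∧ m < n (l + 1) ∧ Same a Φ (t l) m x} hex
        exact ⟨m0, h1, fun m' hm' hc => h2 m' hc hm'⟩
      have hm0 : m0 ∈ c := by
        refine ⟨l, h6, h7, ⟨x, hx, h8⟩, Or.inr ?_⟩
        intro m' hm' hlt hsame
        refine hmin m' hlt ⟨hm', by omega, fun i hi => ?_⟩
        rw [hsame i hi, h8 i hi]
      have := hM (show m0 ∈ _ from ⟨h8.mono hsl, by simp [hm0, hx]⟩)
      omega
    · have hm2 : m2 ∉ c := by
        rintro ⟨l', h6, h7, -, h8⟩
        have hll : l = l' := huniq l l' m2 (by omega) (by omega) h6 h7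
        subst hll
        rcases h8 with h8 | h8
        · exact h8 x hx h5
        · refine h8 m1 h1 h2 (fun i hi => ?_)
          rw [h4 i hi, h5 i hi]
      have := hM (show m2 ∈ _ from ⟨h5.mono hsl, by simp [hm2, hx]⟩)
      omega
  · intro s hs
    obtain ⟨l0, hl0⟩ := htc s hs
    refine (Set.finite_Iio (n l0)).subset ?_
    intro m hm
    rw [Set.mem_Iio]
    rcases lt_or_ge m (n l0) with hlt | hlt
    · exact hlt
    exfalso
    apply hm
    -- find the block of m
    have hex : ∃ l, m < n (l + 1) := ⟨m, lt_of_lt_of_le (Nat.lt_succ_self m) hnmono.le_apply⟩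
    obtain ⟨l, hl1, hl2⟩ : ∃ l, n l ≤ m ∧ m < n (l + 1) := by
      by_cases h0 : Nat.find hex = 0
      · refine ⟨0, ?_, by simpa [h0] using Nat.find_spec hex⟩
        exact (hnmono.monotone (Nat.zero_le l0)).trans hlt
      · refine ⟨Nat.find hex, ?_, Nat.find_spec hex⟩
        have := Nat.find_min hex (Nat.sub_lt (Nat.pos_of_ne_zero h0) one_pos)
        have h1 : Nat.find hex - 1 + 1 = Nat.find hex := by omega
        rw [h1] at this
        exact not_lt.1 this
    have hll : l0 ≤ l := by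
      by_contra hc
      have := hnmono.monotone (show l + 1 ≤ l0 by omega)
      omega
    have hsl : s ⊆ t l := hl0.trans (htm hll)
    obtain ⟨x, hx⟩ := hthr l m ((hnthr l).trans hl1)
    rcases Classical.em (m ∈ c) with hmc | hmc
    · have hmc' := hmc
      obtain ⟨l', h6, h7, ⟨x', hx', h8⟩, -⟩ := hmc'
      have hll' : l = l' := huniq l l' m hl1 hl2 h6 h7
      subst hll'
      exact ⟨x', h8.mono hsl, iff_of_true hmc hx'⟩
    · by_cases hex2 : ∃ x', x' ∉ b ∧ Same a Φ (t l) m x'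
      · obtain ⟨x', hx', h8⟩ := hex2
        exact ⟨x', h8.mono hsl, by simp [hx', hmc]⟩
      · push Not at hex2
        exfalso
        apply hmc
        refine ⟨l, hl1, hl2, ⟨x, ?_, hx⟩, Or.inl hex2⟩
        by_contra hxb
        exact hex2 x hxb hx

theorem Good.congr {a : I → Set K} {Φ Ψ : I → Set ℕ} {C : Set I} (h : Good a Φ C)
    (hΨ : ∀ i ∈ C, Ψ i = Φ i) : Good a Ψ C := by
  have key : ∀ s : Finset I, (∀ i ∈ s, i ∈ C) → ∀ m x, Same a Ψ s m x ↔ Same a Φ s m x := by
    intro s hs m x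
    refine forall₂_congr (fun i hi => ?_)
    rw [hΨ i (hs i hi)]
  refine ⟨fun s hs x => ?_, fun s hs => ?_⟩
  · have := h.1 s hs x
    convert this using 2
    ext m; exact key s hs m x
  · have := h.2 s hs
    convert this using 2
    ext m
    simp only [key s hs]

theorem exists_good [Nonempty K] (a : I → Set K) (hI : #I ≤ ℵ₁) :
    ∃ Φ : I → Set ℕ, Good a Φ Set.univ := by
  classical
  have hne : Nonempty (I ↪ (ℵ₁ : Cardinal.{0}).ord.ToType) := by
    rw [← Cardinal.le_def, Cardinal.mk_ord_toType]; exact hI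
  obtain ⟨e⟩ := hne
  have hcount : ∀ i : I, {j | e j < e i}.Countable := by
    intro i
    have h1 : #(Iio (e i)) < ℵ₁ := Cardinal.mk_Iio_toType_ord_lt (e i)
    have h2 : (Iio (e i)).Countable := by
      rw [← Cardinal.le_aleph0_iff_set_countable]
      exact Order.lt_succ_iff.1 (h1.trans_eq Cardinal.succ_aleph0.symm)
    exact h2.preimage e.injective
  let wf : WellFounded (InvImage (· < ·) e : I → I → Prop) := InvImage.wf e wellFounded_lt
  let P : (I → Set ℕ) → I → Set ℕ → Prop := fun Φ i c =>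
    (∀ s : Finset I, (∀ j ∈ s, e j < e i) → ∀ x : K,
        {m | Same a Φ s m x ∧ (m ∈ c ↔ x ∈ a i)}.Infinite) ∧
      (∀ s : Finset I, (∀ j ∈ s, e j < e i) →
        {m | ¬ ∃ x, Same a Φ s m x ∧ (m ∈ c ↔ x ∈ a i)}.Finite)
  let F : (i : I) → ((j : I) → InvImage (· < ·) e j i → Set ℕ) → Set ℕ := fun i rec =>
    if h : ∃ c, P (fun j => if hj : e j < e i then rec j hj else ∅) i c then Classical.choose h else ∅
  let Φ : I → Set ℕ := wf.fix F
  have hΦ : ∀ i, Φ i = if h : ∃ c, P (fun j => if hj : e j < e i then Φ j else ∅) i c then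
      Classical.choose h else ∅ := by
    intro i
    exact wf.fix_eq F i
  have hP : ∀ i, Good a Φ {j | e j < e i} → P Φ i (Φ i) := by
    intro i hgood
    have h1 : Good a (fun j => if hj : e j < e i then Φ j else ∅) {j | e j < e i} :=
      hgood.congr (fun j hj => by simp only [Set.mem_setOf_eq] at hj; simp [hj])
    have hex : ∃ c, P (fun j => if hj : e j < e i then Φ j else ∅) i c :=
      exists_step a _ _ (hcount i) h1 (a i)
    have h2 : P (fun j => if hj : e j < e i then Φ j else ∅) i (Φ i) := by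
      rw [hΦ i, dif_pos hex]
      exact Classical.choose_spec hex
    have key : ∀ s : Finset I, (∀ j ∈ s, e j < e i) → ∀ m x,
        Same a (fun j => if hj : e j < e i then Φ j else ∅) s m x ↔ Same a Φ s m x := by
      intro s hs m x
      refine forall₂_congr (fun j hj => ?_)
      have := hs j hj
      simp [this]
    refine ⟨fun s hs x => ?_, fun s hs => ?_⟩
    · have := h2.1 s hs x
      simpa only [key s hs] using this
    · have := h2.2 s hs
      simpa only [key s hs] using this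
  -- from good below to good including
  have hle : ∀ i, Good a Φ {j | e j < e i} → Good a Φ {j | e j ≤ e i} := by
    intro i hgood
    obtain ⟨hp1, hp2⟩ := hP i hgood
    have key : ∀ s : Finset I, i ∈ s → ∀ m x, Same a Φ s m x ↔
        (Same a Φ (s.erase i) m x ∧ (m ∈ Φ i ↔ x ∈ a i)) := by
      intro s his m x
      constructor
      · intro h
        exact ⟨h.mono (Finset.erase_subset _ _), h i his⟩
      · rintro ⟨h1, h2⟩ j hj
        by_cases hji : j = i
        · subst hji; exact h2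
        · exact h1 j (Finset.mem_erase.2 ⟨hji, hj⟩)
    have hlt : ∀ s : Finset I, (∀ j ∈ s, j ∈ {j | e j ≤ e i}) → ∀ j ∈ s.erase i, e j < e i := by
      intro s hs j hj
      obtain ⟨h1, h2⟩ := Finset.mem_erase.1 hj
      exact lt_of_le_of_ne (hs j h2) (fun h => h1 (e.injective h))
    refine ⟨fun s hs x => ?_, fun s hs => ?_⟩
    · by_cases his : i ∈ s
      · have := hp1 (s.erase i) (hlt s hs) x
        simpa only [key s his] using this
      · have h1 := hlt s hs
        rw [Finset.erase_eq_of_notMem his] at h1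
        exact hgood.1 s h1 x
    · by_cases his : i ∈ s
      · have := hp2 (s.erase i) (hlt s hs)
        simpa only [key s his] using this
      · have h1 := hlt s hs
        rw [Finset.erase_eq_of_notMem his] at h1
        exact hgood.2 s h1
  have hunion : ∀ C : Set I, (∀ j ∈ C, Good a Φ {k | e k ≤ e j}) → Good a Φ C := by
    intro C hC
    refine ⟨fun s hs x => ?_, fun s hs => ?_⟩
    · rcases s.eq_empty_or_nonempty with rfl | hne
      · have : {m | Same a Φ ∅ m x} = Set.univ := by ext m; simp [Same]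
        rw [this]; exact Set.infinite_univ
      · obtain ⟨j, hj, hmax⟩ := s.exists_max_image e hne
        exact (hC j (hs j hj)).1 s (fun i hi => hmax i hi) x
    · rcases s.eq_empty_or_nonempty with rfl | hne
      · have : {m | ¬ ∃ x : K, Same a Φ ∅ m x} = ∅ := by ext m; simp [Same]
        rw [this]; exact Set.finite_empty
      · obtain ⟨j, hj, hmax⟩ := s.exists_max_image e hne
        exact (hC j (hs j hj)).2 s (fun i hi => hmax i hi)
  have hall : ∀ i, Good a Φ {j | e j ≤ e i} := by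
    intro i
    induction i using wf.induction with
    | _ i ih => exact hle i (hunion _ (fun j hj => ih j hj))
  exact ⟨Φ, hunion _ (fun j _ => hall j)⟩

end Pool.Agent.H48.Par
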