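import Mathlib
/-!
The Banach space `ℓ∞ / c₀`.
-/
set_option autoImplicit false
open Filter Topology

namespace Pool.Agent.H48.Par

/-- Bounded real functions on `α` with the supremum norm; `BF ℕ` is `ℓ∞`. -/
abbrev BF (α : Type) := lp (fun _ : α => ℝ) ⊤

/-- The subspace `c₀` of `ℓ∞`: the sequences tending to `0`. -/
def c0 : Submodule ℝ (BF ℕ) where
  carrier := {f | Tendsto (fun n => f n) atTop (𝓝 0)}
  add_mem' := by
    intro f g hf hg
    have h := Tendsto.add (show Tendsto (fun n => f n) atTop (𝓝 0) from hf)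
      (show Tendsto (fun n => g n) atTop (𝓝 0) from hg)
    rw [add_zero] at h
    exact h
  zero_mem' := by
    show Tendsto (fun n => (0 : BF ℕ) n) atTop (𝓝 0)
    exact tendsto_const_nhds
  smul_mem' := by
    intro c f hf
    have h := Tendsto.const_mul c (show Tendsto (fun n => f n) atTop (𝓝 0) from hf)
    rw [mul_zero] at h
    exact h

theorem mem_c0 {f : BF ℕ} : f ∈ c0 ↔ Tendsto (fun n => f n) atTop (𝓝 0) := Iff.rfl

instance c0_closed : IsClosed (c0 : Set (BF ℕ)) := by
  refine isClosed_of_closure_subset (fun f hf => ?_)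
  rw [SetLike.mem_coe, mem_c0, Metric.tendsto_atTop]
  intro ε hε
  rw [Metric.mem_closure_iff] at hf
  obtain ⟨g, hg, hfg⟩ := hf (ε / 2) (by positivity)
  rw [SetLike.mem_coe, mem_c0, Metric.tendsto_atTop] at hg
  obtain ⟨N, hN⟩ := hg (ε / 2) (by positivity)
  refine ⟨N, fun n hn => ?_⟩
  have h1 := hN n hn
  rw [Real.dist_0_eq_abs] at h1 ⊢
  rw [dist_eq_norm] at hfg
  have h2 : |(f - g) n| ≤ ‖f - g‖ := lp.norm_apply_le_norm ENNReal.top_ne_zero (f - g) n
  have h3 : (f - g) n = f n - g n := rfl
  rw [h3] at h2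
  have h4 : |f n| ≤ |f n - g n| + |g n| := by
    have := abs_add_le (f n - g n) (g n)
    simpa using this
  linarith

/-- The quotient space `ℓ∞ / c₀`. -/
def Q : Type := BF ℕ ⧸ c0

noncomputable instance : NormedAddCommGroup Q := Submodule.Quotient.normedAddCommGroup c0

noncomputable instance : NormedSpace ℝ Q := Submodule.Quotient.normedSpace c0 ℝ

instance : CompleteSpace Q := Submodule.Quotient.completeSpace c0

end Pool.Agent.H48.Par
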