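import Mathlib
import Pool.Agent.H48.QuotC0
/-!
Norm estimates in `ℓ∞ / c₀`.
-/
set_option autoImplicit false
open Filter Topology

namespace Pool.Agent.H48.Par

theorem bf_norm_le {α : Type} {f : BF α} {C : ℝ} (hC : 0 ≤ C) (h : ∀ a, |f a| ≤ C) : ‖f‖ ≤ C :=
  lp.norm_le_of_forall_le hC h

theorem bf_abs_le {α : Type} (f : BF α) (a : α) : |f a| ≤ ‖f‖ :=
  lp.norm_apply_le_norm ENNReal.top_ne_zero f a

/-- make a bounded function -/
def bf {α : Type} (f : α → ℝ) (h : ∃ C, ∀ a, |f a| ≤ C) : BF α :=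
  ⟨f, memℓp_infty (by obtain ⟨C, hC⟩ := h; exact ⟨C, by rintro _ ⟨a, rfl⟩; exact hC a⟩)⟩

@[simp] theorem bf_apply {α : Type} (f : α → ℝ) (h : ∃ C, ∀ a, |f a| ≤ C) (a : α) :
    bf f h a = f a := rfl

theorem bf_ext {α : Type} {f g : BF α} (h : ∀ a, f a = g a) : f = g := lp.ext (funext h)

@[simp] theorem bf_add_apply {α : Type} (f g : BF α) (a : α) : (f + g) a = f a + g a := rfl
@[simp] theorem bf_sub_apply {α : Type} (f g : BF α) (a : α) : (f - g) a = f a - g a := rfl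
@[simp] theorem bf_smul_apply {α : Type} (c : ℝ) (f : BF α) (a : α) : (c • f) a = c * f a := rfl
@[simp] theorem bf_zero_apply {α : Type} (a : α) : (0 : BF α) a = 0 := rfl

/-- the class of a bounded sequence -/
noncomputable def cl : BF ℕ →ₗ[ℝ] Q := c0.mkQ

theorem cl_surj (x : Q) : ∃ f, cl f = x := Submodule.Quotient.mk_surjective _ x

theorem cl_eq {f g : BF ℕ} : cl f = cl g ↔ Tendsto (fun n => f n - g n) atTop (𝓝 0) :=
  Submodule.Quotient.eq c0

theorem cl_norm_le (f : BF ℕ) : ‖cl f‖ ≤ ‖f‖ := Submodule.Quotient.norm_mk_le c0 f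

theorem cl_eq_of_eventually {f g : BF ℕ} (h : ∀ᶠ n in atTop, f n = g n) : cl f = cl g := by
  rw [cl_eq]
  refine (tendsto_congr' ?_).2 tendsto_const_nhds
  filter_upwards [h] with n hn
  rw [hn, sub_self]

theorem cl_norm_le_of_eventually {f : BF ℕ} {M : ℝ} (hM : 0 ≤ M) (h : ∀ᶠ n in atTop, |f n| ≤ M) :
    ‖cl f‖ ≤ M := by
  classical
  let g : BF ℕ := bf (fun n => if |f n| ≤ M then f n else 0)
    ⟨M, fun n => by
      by_cases hn : |f n| ≤ M
      · simp only [hn, if_true]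
      · simp only [hn, if_false, abs_zero]; exact hM⟩
  have hg : cl f = cl g := by
    refine cl_eq_of_eventually ?_
    filter_upwards [h] with n hn
    show f n = if |f n| ≤ M then f n else 0
    rw [if_pos hn]
  rw [hg]
  refine (cl_norm_le g).trans (bf_norm_le hM (fun n => ?_))
  show |if |f n| ≤ M then f n else 0| ≤ M
  by_cases hn : |f n| ≤ M
  · rw [if_pos hn]; exact hn
  · rw [if_neg hn, abs_zero]; exact hM

theorem le_cl_norm_of_frequently {f : BF ℕ} {t : ℝ} (h : ∃ᶠ n in atTop, t ≤ f n) :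
    t ≤ ‖cl f‖ := by
  refine le_of_forall_pos_le_add (fun ε hε => ?_)
  obtain ⟨g, hg, hlt⟩ : ∃ g, cl g = cl f ∧ ‖g‖ < ‖cl f‖ + ε / 2 :=
    Submodule.Quotient.norm_mk_lt (S := c0) (cl f) (show 0 < ε / 2 by positivity)
  have hg' : cl f = cl g := hg.symm
  rw [cl_eq, Metric.tendsto_atTop] at hg'
  obtain ⟨N, hN⟩ := hg' (ε / 2) (by positivity)
  obtain ⟨n, hn, htn⟩ := (frequently_atTop.1 h) N
  have h1 := hN n hn
  rw [Real.dist_0_eq_abs] at h1
  have h2 := (abs_lt.1 h1).2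
  have h3 := (abs_le.1 (bf_abs_le g n)).2
  linarith

theorem frequently_of_infinite {s : Set ℕ} (hs : s.Infinite) {p : ℕ → Prop} (h : ∀ n ∈ s, p n) :
    ∃ᶠ n in atTop, p n := by
  rw [frequently_atTop]
  intro a
  obtain ⟨b, hb, hab⟩ := hs.exists_gt a
  exact ⟨b, hab.le, h b hb⟩

open Classical in
/-- indicator of a set -/
noncomputable def ind {α : Type} (A : Set α) : BF α :=
  bf (fun a => if a ∈ A then 1 else 0) ⟨1, fun a => by by_cases h : a ∈ A <;> simp [h]⟩

theorem ind_of_mem {α : Type} {A : Set α} {a : α} (h : a ∈ A) : ind A a = 1 := by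
  classical
  rw [ind, bf_apply, if_pos h]

theorem ind_of_notMem {α : Type} {A : Set α} {a : α} (h : a ∉ A) : ind A a = 0 := by
  classical
  rw [ind, bf_apply, if_neg h]

end Pool.Agent.H48.Par
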