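import Mathlib
import Pool.Agent.H48.QuotC0
import Pool.Agent.H48.ParGood
import Pool.Agent.H48.ParNorm
/-!
For a `σ`-algebra with at most `ℵ₁` members, the bounded measurable functions embed
isometrically into `ℓ∞ / c₀`.
-/
set_option autoImplicit false
open Filter Topology Cardinal

namespace Pool.Agent.H48.Par

/-- bounded measurable functions -/
def MF (K : Type) [MeasurableSpace K] : Submodule ℝ (BF K) where
  carrier := {f | Measurable (fun x => f x)}
  add_mem' := by
    intro f g hf hg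
    exact Measurable.add (show Measurable (fun x => f x) from hf)
      (show Measurable (fun x => g x) from hg)
  zero_mem' := by
    show Measurable (fun x => (0 : BF K) x)
    exact measurable_const
  smul_mem' := by
    intro c f hf
    exact Measurable.const_mul (show Measurable (fun x => f x) from hf) c

theorem mem_MF {K : Type} [MeasurableSpace K] {f : BF K} : f ∈ MF K ↔ Measurable (fun x => f x) :=
  Iff.rfl

/-- linear combinations of indicators -/
noncomputable def lc {α I : Type} (a : I → Set α) : (I →₀ ℝ) →ₗ[ℝ] BF α :=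
  Finsupp.linearCombination ℝ (fun i => ind (a i))

theorem lc_apply {α I : Type} (a : I → Set α) (c : I →₀ ℝ) (x : α) :
    lc a c x = ∑ i ∈ c.support, c i * ind (a i) x := by
  rw [lc, Finsupp.linearCombination_apply, Finsupp.sum, lp.coeFn_sum, Finset.sum_apply]
  rfl

theorem lc_same {K I : Type} {a : I → Set K} {Φ : I → Set ℕ} {c : I →₀ ℝ} {m : ℕ} {x : K}
    (h : Same a Φ c.support m x) : lc Φ c m = lc a c x := by
  rw [lc_apply, lc_apply]
  refine Finset.sum_congr rfl (fun i hi => ?_)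
  have h1 := h i hi
  by_cases hx : x ∈ a i
  · rw [ind_of_mem hx, ind_of_mem (h1.2 hx)]
  · rw [ind_of_notMem hx, ind_of_notMem (fun hc => hx (h1.1 hc))]

theorem cl_lc_le {K I : Type} {a : I → Set K} {Φ : I → Set ℕ} (hG : Good a Φ Set.univ)
    (c : I →₀ ℝ) : ‖cl (lc Φ c)‖ ≤ ‖lc a c‖ := by
  refine cl_norm_le_of_eventually (norm_nonneg _) ?_
  have h1 := hG.2 c.support (fun i _ => Set.mem_univ i)
  rw [← Nat.cofinite_eq_atTop, eventually_cofinite]
  refine h1.subset ?_
  intro m hm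
  simp only [Set.mem_ofPred_eq] at hm ⊢
  rintro ⟨x, hx⟩
  apply hm
  rw [lc_same hx]
  exact bf_abs_le _ x

theorem le_cl_lc {K I : Type} {a : I → Set K} {Φ : I → Set ℕ} (hG : Good a Φ Set.univ)
    (c : I →₀ ℝ) (x : K) : lc a c x ≤ ‖cl (lc Φ c)‖ := by
  refine le_cl_norm_of_frequently (frequently_of_infinite
    (hG.1 c.support (fun i _ => Set.mem_univ i) x) ?_)
  intro m hm
  rw [lc_same hm]

theorem cl_lc_norm {K I : Type} {a : I → Set K} {Φ : I → Set ℕ} (hG : Good a Φ Set.univ)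
    (c : I →₀ ℝ) : ‖cl (lc Φ c)‖ = ‖lc a c‖ := by
  refine le_antisymm (cl_lc_le hG c) (bf_norm_le (norm_nonneg _) (fun x => ?_))
  rw [abs_le]
  constructor
  · have h := le_cl_lc hG (-c) x
    rw [map_neg, map_neg, map_neg, norm_neg] at h
    have h2 : (-(lc a c)) x = - (lc a c x) := rfl
    rw [h2] at h
    linarith
  · exact le_cl_lc hG c x

/-- measurable sets -/
abbrev MS (K : Type) [MeasurableSpace K] := {s : Set K // MeasurableSet s}

theorem lc_mem (K : Type) [MeasurableSpace K] (c : MS K →₀ ℝ) :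
    lc (fun s : MS K => s.1) c ∈ MF K := by
  rw [mem_MF]
  have h : (fun x => lc (fun s : MS K => s.1) c x) =
      fun x => ∑ i ∈ c.support, c i * ind i.1 x := by
    funext x
    exact lc_apply _ c x
  rw [h]
  refine Finset.measurable_sum _ (fun i _ => ?_)
  refine Measurable.const_mul ?_ _
  classical
  have h2 : (fun x => (ind i.1 : BF K) x) = fun x => if x ∈ i.1 then (1 : ℝ) else 0 := by
    funext x
    by_cases hx : x ∈ i.1
    · rw [ind_of_mem hx, if_pos hx]
    · rw [ind_of_notMem hx, if_neg hx]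
  have h3 : Measurable (fun x => if x ∈ i.1 then (1 : ℝ) else 0) :=
    Measurable.ite i.2 measurable_const measurable_const
  rw [← h2] at h3
  exact h3

/-- linear combinations of indicators of measurable sets -/
noncomputable def lcm (K : Type) [MeasurableSpace K] : (MS K →₀ ℝ) →ₗ[ℝ] MF K :=
  (lc (fun s : MS K => s.1)).codRestrict (MF K) (lc_mem K)

theorem lcm_dense (K : Type) [MeasurableSpace K] : DenseRange (lcm K) := by
  classical
  intro f
  rw [Metric.mem_closure_iff]
  intro ε hε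
  have hfm : Measurable (fun x => f.1 x) := f.2
  set δ : ℝ := ε / 2 with hδ
  have hδ0 : 0 < δ := by positivity
  let A : ℤ → MS K := fun k => ⟨{x | ⌊f.1 x / δ⌋ = k}, by
    have h1 : Measurable (fun x => ⌊f.1 x / δ⌋) := (hfm.div_const δ).floor
    exact h1 (measurableSet_singleton k)⟩
  let N : ℤ := ⌈‖f.1‖ / δ⌉ + 1
  have hN : ∀ x, ⌊f.1 x / δ⌋ ∈ Finset.Icc (-N) N := by
    intro x
    have h1 := abs_le.1 (bf_abs_le f.1 x)
    have h2 : ‖f.1‖ / δ ≤ ⌈‖f.1‖ / δ⌉ := Int.le_ceil _
    rw [Finset.mem_Icc]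
    constructor
    · rw [Int.le_floor]
      push_cast [N]
      have h3 : - (‖f.1‖ / δ) ≤ f.1 x / δ := by
        rw [← neg_div]
        exact div_le_div_of_nonneg_right h1.1 hδ0.le
      linarith
    · have h3 : f.1 x / δ ≤ ‖f.1‖ / δ := div_le_div_of_nonneg_right h1.2 hδ0.le
      have h4 : ((⌊f.1 x / δ⌋ : ℤ) : ℝ) ≤ N := by
        push_cast [N]
        have := Int.floor_le (f.1 x / δ)
        linarith
      exact_mod_cast h4
  let c : MS K →₀ ℝ := ∑ k ∈ Finset.Icc (-N) N, Finsupp.single (A k) (δ * k)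
  refine ⟨lcm K c, ⟨c, rfl⟩, ?_⟩
  rw [dist_eq_norm]
  have hval : ∀ x, (lcm K c).1 x = δ * (⌊f.1 x / δ⌋ : ℤ) := by
    intro x
    have h1 : (lcm K c).1 = ∑ k ∈ Finset.Icc (-N) N, (δ * k) • ind (A k).1 := by
      show lc (fun s : MS K => s.1) c = _
      rw [map_sum]
      refine Finset.sum_congr rfl (fun k _ => ?_)
      rw [lc, Finsupp.linearCombination_single]
    rw [h1, lp.coeFn_sum, Finset.sum_apply, Finset.sum_eq_single ⌊f.1 x / δ⌋]
    · rw [bf_smul_apply, ind_of_mem, mul_one]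
      rfl
    · intro k _ hk
      rw [bf_smul_apply, ind_of_notMem, mul_zero]
      intro hx
      exact hk hx.symm
    · intro h
      exact absurd (hN x) h
  have h2 : ‖f.1 - (lcm K c).1‖ ≤ δ := by
    refine bf_norm_le hδ0.le (fun x => ?_)
    rw [bf_sub_apply, hval]
    have h3 := Int.floor_le (f.1 x / δ)
    have h4 := Int.lt_floor_add_one (f.1 x / δ)
    have h5 : f.1 x / δ * δ = f.1 x := div_mul_cancel₀ _ hδ0.ne'
    rw [abs_le]
    constructor <;> nlinarith
  calc ‖f - lcm K c‖ = ‖f.1 - (lcm K c).1‖ := rfl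
    _ ≤ δ := h2
    _ < ε := by rw [hδ]; linarith

theorem exists_isometry (K : Type) [MeasurableSpace K] [Nonempty K] (h : #(MS K) ≤ ℵ₁) :
    ∃ J : MF K →L[ℝ] Q, ∀ f, ‖J f‖ = ‖f‖ := by
  obtain ⟨Φ, hG⟩ := exists_good (fun s : MS K => s.1) h
  let L : (MS K →₀ ℝ) →ₗ[ℝ] Q := cl ∘ₗ lc Φ
  have hL : ∀ c, ‖L c‖ = ‖lcm K c‖ := fun c => cl_lc_norm hG c
  refine ⟨L.extendOfNorm (lcm K), ?_⟩
  intro f
  refine (lcm_dense K).induction ?_ (isClosed_eq (by fun_prop) (by fun_prop)) f
  rintro _ ⟨c, rfl⟩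
  rw [LinearMap.extendOfNorm_eq (lcm_dense K) ⟨1, fun c => by rw [one_mul, hL c]⟩ c]
  exact hL c

end Pool.Agent.H48.Par
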