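import Mathlib
import Pool.Agent.H48.QuotC0
import Pool.Agent.H48.ParNorm
import Pool.Agent.H48.ParExt
/-!
Under CH there is an isometric copy of `ℓ∞ / c₀` in itself which contains no copy of `ℓ∞ / c₀`
complemented in the whole space.
-/
set_option autoImplicit false
open Filter Topology Cardinal

namespace Pool.Agent.H48.Par

/-- the dual unit ball of `ℓ∞ / c₀` -/
def KB := {φ : Q →L[ℝ] ℝ // ‖φ‖ ≤ 1}

instance : Nonempty KB := ⟨⟨0, by simp⟩⟩

/-- the generating sets -/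
def gens : Set (Set KB) := Set.range (fun p : Q × ℝ => {φ : KB | p.2 < φ.1 p.1})

instance : MeasurableSpace KB := MeasurableSpace.generateFrom gens

theorem measurable_eval (x : Q) : Measurable (fun φ : KB => φ.1 x) := by
  refine measurable_of_Ioi (fun a => ?_)
  exact MeasurableSpace.measurableSet_generateFrom ⟨(x, a), rfl⟩

theorem card_Q : #Q ≤ 𝔠 := by
  have h1 : #Q ≤ #(BF ℕ) := Cardinal.mk_le_of_surjective (Submodule.Quotient.mk_surjective c0)
  have h2 : #(BF ℕ) ≤ #(ℕ → ℝ) := Cardinal.mk_le_of_injective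
    (f := fun f : BF ℕ => (fun n => f n)) (fun f g h => bf_ext (fun a => congrFun h a))
  have h3 : #(ℕ → ℝ) = 𝔠 := by
    rw [← Cardinal.power_def, Cardinal.mk_real, Cardinal.mk_nat, Cardinal.continuum_power_aleph0]
  exact h1.trans (h2.trans h3.le)

theorem card_MS : #(MS KB) ≤ 𝔠 := by
  refine MeasurableSpace.cardinal_measurableSet_le_continuum ?_
  refine Cardinal.mk_range_le.trans ?_
  rw [Cardinal.mk_prod]
  simp only [Cardinal.lift_id, Cardinal.mk_real]
  exact (mul_le_mul' card_Q le_rfl).trans (by simp)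

theorem eval_bound (φ : KB) (x : Q) : |φ.1 x| ≤ ‖x‖ := by
  have h1 := φ.1.le_opNorm x
  have h2 := mul_le_mul_of_nonneg_right φ.2 (norm_nonneg x)
  rw [Real.norm_eq_abs] at h1
  linarith

/-- the canonical image of `x` -/
noncomputable def hat : Q →ₗ[ℝ] MF KB where
  toFun x := ⟨bf (fun φ => φ.1 x) ⟨‖x‖, fun φ => eval_bound φ x⟩, measurable_eval x⟩
  map_add' x y := by
    apply Subtype.ext
    apply bf_ext
    intro φ
    exact map_add φ.1 x y
  map_smul' c x := by
    apply Subtype.ext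
    apply bf_ext
    intro φ
    exact map_smul φ.1 c x

theorem hat_apply (x : Q) (φ : KB) : (hat x).1 φ = φ.1 x := rfl

theorem hat_norm (x : Q) : ‖hat x‖ = ‖x‖ := by
  refine le_antisymm (bf_norm_le (norm_nonneg x) (fun φ => eval_bound φ x)) ?_
  obtain ⟨g, hg, hgx⟩ := exists_dual_vector'' ℝ x
  have h1 : |g x| ≤ ‖(hat x).1‖ := bf_abs_le (hat x).1 ⟨g, hg⟩
  have h2 : |g x| = ‖x‖ := by
    rw [hgx]
    simp
  calc ‖x‖ = |g x| := h2.symm
    _ ≤ ‖(hat x).1‖ := h1

theorem exists_lim (T0 : Q →L[ℝ] Q) (h : ℕ → BF ℕ) (hh : ∀ k, ‖h k‖ ≤ 1) (s : KB → ℝ)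
    (hs : ∀ φ : KB, Tendsto (fun k => φ.1 (T0 (cl (h k)))) atTop (𝓝 (s φ))) :
    ∃ H : MF KB, (∀ φ, H.1 φ = s φ) ∧ ‖H‖ ≤ ‖T0‖ := by
  have hb : ∀ φ, |s φ| ≤ ‖T0‖ := by
    intro φ
    refine le_of_tendsto (hs φ).abs (Eventually.of_forall (fun k => ?_))
    refine (eval_bound φ _).trans ((T0.le_opNorm _).trans ?_)
    have h1 := (cl_norm_le (h k)).trans (hh k)
    have h2 := mul_le_mul_of_nonneg_left h1 (norm_nonneg T0)
    linarith
  have hm : Measurable s := by
    refine measurable_of_tendsto_metrizable (f := fun k φ => φ.1 (T0 (cl (h k))))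
      (fun k => measurable_eval _) ?_
    rw [tendsto_pi_nhds]
    exact hs
  exact ⟨⟨bf s ⟨_, hb⟩, hm⟩, fun φ => rfl, bf_norm_le (norm_nonneg _) hb⟩

theorem var_bound (T0 : Q →L[ℝ] Q) (φ : KB) (G : ℕ → Set ℕ)
    (hG : ∀ m n x, x ∈ G m → x ∈ G n → m = n) (u : Finset ℕ) :
    ∑ n ∈ u, |φ.1 (T0 (cl (ind (G n))))| ≤ ‖T0‖ := by
  classical
  let v : ℕ → ℝ := fun n => φ.1 (T0 (cl (ind (G n))))
  let s : ℕ → ℝ := fun n => if 0 ≤ v n then 1 else -1
  have hs : ∀ n, |s n| ≤ 1 := by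
    intro n
    by_cases h : 0 ≤ v n
    · simp [s, h]
    · simp [s, h]
  have hsv : ∀ n, |v n| = s n * v n := by
    intro n
    by_cases h : 0 ≤ v n
    · simp only [s, h, if_true, one_mul, abs_of_nonneg h]
    · simp only [s, h, if_false, abs_of_neg (not_le.1 h), neg_mul, one_mul]
  have h1 : ∑ n ∈ u, |v n| = φ.1 (T0 (cl (∑ n ∈ u, s n • ind (G n)))) := by
    rw [map_sum, map_sum, map_sum]
    refine Finset.sum_congr rfl (fun n _ => ?_)
    rw [map_smul, map_smul, map_smul, hsv]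
    rfl
  have h2 : ‖∑ n ∈ u, s n • ind (G n)‖ ≤ 1 := by
    refine bf_norm_le zero_le_one (fun m => ?_)
    rw [lp.coeFn_sum, Finset.sum_apply]
    by_cases hm : ∃ n ∈ u, m ∈ G n
    · obtain ⟨n, hn, hmn⟩ := hm
      rw [Finset.sum_eq_single n]
      · rw [bf_smul_apply, ind_of_mem hmn, mul_one]
        exact hs n
      · intro j _ hj
        rw [bf_smul_apply, ind_of_notMem, mul_zero]
        intro hc
        exact hj (hG _ _ _ hc hmn)
      · intro h
        exact absurd hn h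
    · push Not at hm
      rw [Finset.sum_eq_zero]
      · simp
      · intro n hn
        rw [bf_smul_apply, ind_of_notMem (hm n hn), mul_zero]
  calc ∑ n ∈ u, |v n| = φ.1 (T0 (cl (∑ n ∈ u, s n • ind (G n)))) := h1
    _ ≤ |φ.1 (T0 (cl (∑ n ∈ u, s n • ind (G n))))| := le_abs_self _
    _ ≤ ‖T0 (cl (∑ n ∈ u, s n • ind (G n)))‖ := eval_bound _ _
    _ ≤ ‖T0‖ * ‖cl (∑ n ∈ u, s n • ind (G n))‖ := T0.le_opNorm _
    _ ≤ ‖T0‖ * 1 := mul_le_mul_of_nonneg_left ((cl_norm_le _).trans h2) (norm_nonneg _)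
    _ = ‖T0‖ := mul_one _

theorem exists_disjoint (C : Set ℕ) (hC : C.Infinite) : ∃ G : ℕ → Set ℕ,
    (∀ n, G n ⊆ C) ∧ (∀ n, (G n).Infinite) ∧ ∀ m n x, x ∈ G m → x ∈ G n → m = n := by
  let g := hC.natEmbedding C
  refine ⟨fun n => Set.range (fun j => (g (Nat.pair n j) : ℕ)), ?_, ?_, ?_⟩
  · rintro n _ ⟨j, rfl⟩
    exact (g _).2
  · intro n
    refine Set.infinite_range_of_injective ?_
    intro i j hij
    have h1 := g.injective (Subtype.ext hij)
    exact (Nat.pair_eq_pair.1 h1).2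
  · rintro m n _ ⟨i, rfl⟩ ⟨j, hj⟩
    have h1 := g.injective (Subtype.ext hj)
    exact (Nat.pair_eq_pair.1 h1).1.symm

theorem ind_norm_le {α : Type} (A : Set α) : ‖ind A‖ ≤ 1 := by
  refine bf_norm_le zero_le_one (fun a => ?_)
  by_cases h : a ∈ A
  · rw [ind_of_mem h, abs_one]
  · rw [ind_of_notMem h, abs_zero]; exact zero_le_one

theorem gadget (T0 : Q →L[ℝ] Q) (R : MF KB →L[ℝ] Q) (hR : ∀ x, R (hat (T0 x)) = x)
    (C : Set ℕ) (hC : C.Infinite) :
    ∃ (C' : Set ℕ) (η : ℝ) (S : MF KB) (D : ℕ → Set ℕ) (f : BF ℕ),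
      C' ⊆ C ∧ C'.Infinite ∧ |η| = 1 ∧ (∀ k, D k ⊆ C \ C') ∧
      (∀ φ : KB, Tendsto (fun k => φ.1 (T0 (cl (ind (D k))))) atTop (𝓝 (S.1 φ))) ∧
      cl f = R S ∧ ∀ m ∈ C', 1 / 2 ≤ η * f m := by
  classical
  obtain ⟨G, hGC, hGi, hGd⟩ := exists_disjoint C hC
  let U : ℕ → Set ℕ := fun k => {m | ∃ n < k, m ∈ G n}
  have hUC : ∀ k, U k ⊆ C := by
    rintro k m ⟨n, -, hn⟩
    exact hGC n hn
  have hUsum : ∀ k, ind (U k) = ∑ n ∈ Finset.range k, ind (G n) := by
    intro k
    apply bf_ext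
    intro m
    rw [lp.coeFn_sum, Finset.sum_apply]
    by_cases hm : ∃ n < k, m ∈ G n
    · rw [ind_of_mem (show m ∈ U k from hm)]
      obtain ⟨n, hn, hmn⟩ := hm
      rw [Finset.sum_eq_single n]
      · rw [ind_of_mem hmn]
      · intro j _ hj
        rw [ind_of_notMem]
        intro hc
        exact hj (hGd _ _ _ hc hmn)
      · intro h
        exact absurd (Finset.mem_range.2 hn) h
    · rw [ind_of_notMem (show m ∉ U k from hm)]
      push Not at hm
      rw [Finset.sum_eq_zero]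
      intro n hn
      rw [ind_of_notMem (hm n (Finset.mem_range.1 hn))]
  have hUlim : ∀ φ : KB, Tendsto (fun k => φ.1 (T0 (cl (ind (U k))))) atTop
      (𝓝 (∑' n, φ.1 (T0 (cl (ind (G n)))))) := by
    intro φ
    have h1 : Summable (fun n => φ.1 (T0 (cl (ind (G n))))) := by
      refine Summable.of_abs ?_
      exact summable_of_sum_le (fun n => abs_nonneg _) (var_bound T0 φ G hGd)
    have h2 := h1.hasSum.tendsto_sum_nat
    refine h2.congr (fun k => ?_)
    rw [hUsum, map_sum, map_sum, map_sum]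
  obtain ⟨S, hS, -⟩ := exists_lim T0 (fun k => ind (U k)) (fun k => ind_norm_le _) _ hUlim
  obtain ⟨f, hf⟩ := cl_surj (R S)
  by_cases hA : ∃ n, {m | m ∈ G n ∧ f m < 1 / 2}.Infinite
  · obtain ⟨n, hn⟩ := hA
    set C' := {m | m ∈ G n ∧ f m < 1 / 2} with hC'
    refine ⟨C', -1, S - hat (T0 (cl (ind C'))), fun k => U k \ C', f - ind C', ?_, hn, by simp,
      fun k m hm => ⟨hUC k hm.1, hm.2⟩, ?_, ?_, ?_⟩
    · exact fun m hm => hGC n hm.1
    · intro φ
      have h1 : (S - hat (T0 (cl (ind C')))).1 φ =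
          ∑' n, φ.1 (T0 (cl (ind (G n)))) - φ.1 (T0 (cl (ind C'))) := by
        rw [← hS]; rfl
      rw [h1]
      refine ((hUlim φ).sub_const _).congr' ?_
      filter_upwards [eventually_gt_atTop n] with k hk
      have h2 : ind (U k \ C') = ind (U k) - ind C' := by
        apply bf_ext
        intro m
        rw [bf_sub_apply]
        by_cases h3 : m ∈ C'
        · rw [ind_of_notMem (fun hc => hc.2 h3), ind_of_mem h3,
            ind_of_mem (show m ∈ U k from ⟨n, hk, h3.1⟩), sub_self]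
        · rw [ind_of_notMem h3, sub_zero]
          by_cases h4 : m ∈ U k
          · rw [ind_of_mem h4, ind_of_mem (show m ∈ U k \ C' from ⟨h4, h3⟩)]
          · rw [ind_of_notMem h4, ind_of_notMem (fun hc => h4 hc.1)]
      rw [h2, map_sub, map_sub, map_sub]
    · rw [map_sub, map_sub, hf, hR]
    · intro m hm
      rw [bf_sub_apply, ind_of_mem hm]
      have := hm.2
      linarith
  · push Not at hA
    have hex : ∀ n, ∃ m, m ∈ G n ∧ 1 / 2 ≤ f m := by
      intro n
      by_contra hcon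
      push Not at hcon
      refine hGi n (((hA n)).subset (fun m hm => ⟨hm, hcon m hm⟩))
    choose p hpG hpf using hex
    have hpinj : Function.Injective p := by
      intro i j hij
      refine hGd i j (p i) (hpG i) ?_
      rw [hij]
      exact hpG j
    refine ⟨Set.range p, 1, S, fun k => U k \ Set.range p, f, ?_,
      Set.infinite_range_of_injective hpinj, by simp, fun k m hm => ⟨hUC k hm.1, hm.2⟩, ?_, hf, ?_⟩
    · rintro _ ⟨n, rfl⟩
      exact hGC n (hpG n)
    · intro φ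
      rw [hS]
      refine (hUlim φ).congr (fun k => ?_)
      have h1 : cl (ind (U k)) = cl (ind (U k \ Set.range p)) := by
        refine cl_eq_of_eventually ?_
        have h2 : (p '' Set.Iio k).Finite := (Set.finite_Iio k).image p
        have h3 : ∀ᶠ m in atTop, m ∉ p '' Set.Iio k := by
          rw [← Nat.cofinite_eq_atTop]
          exact h2.eventually_cofinite_notMem
        filter_upwards [h3] with m hm
        by_cases h4 : m ∈ U k
        · rw [ind_of_mem h4, ind_of_mem]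
          refine ⟨h4, ?_⟩
          rintro ⟨j, rfl⟩
          obtain ⟨i, hi, hji⟩ := h4
          apply hm
          refine ⟨j, ?_, rfl⟩
          have : j = i := hGd _ _ _ (hpG j) hji
          rw [this]
          exact hi
        · rw [ind_of_notMem h4, ind_of_notMem (fun hc => h4 hc.1)]
      rw [h1]
    · rintro _ ⟨n, rfl⟩
      rw [one_mul]
      exact hpf n

theorem iterate (T0 : Q →L[ℝ] Q) (R : MF KB →L[ℝ] Q) (hR : ∀ x, R (hat (T0 x)) = x) (N : ℕ) :
    ∃ (C : Set ℕ) (H : MF KB) (h : ℕ → BF ℕ) (f : BF ℕ), C.Infinite ∧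
      (∀ k m, |h k m| ≤ 1) ∧ (∀ k, ∀ m ∈ C, h k m = 0) ∧
      (∀ φ : KB, Tendsto (fun k => φ.1 (T0 (cl (h k)))) atTop (𝓝 (H.1 φ))) ∧
      cl f = R H ∧ ∀ m ∈ C, (N : ℝ) / 2 ≤ f m := by
  induction N with
  | zero =>
    refine ⟨Set.univ, 0, 0, 0, Set.infinite_univ, ?_, ?_, ?_, by rw [map_zero, map_zero], ?_⟩
    · intro k m
      simp
    · intro k m _
      simp
    · intro φ
      have h1 : (0 : MF KB).1 φ = 0 := rfl
      rw [h1]
      refine tendsto_const_nhds.congr (fun k => ?_)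
      simp
    · intro m _
      simp
  | succ N ih =>
    obtain ⟨C, H, h, f, hC, hb, h0, hlim, hf, hfC⟩ := ih
    obtain ⟨C', η, S, D, f', hCC, hC', hη, hD, hlim', hf', hfC'⟩ := gadget T0 R hR C hC
    refine ⟨C', H + η • S, fun k => h k + η • ind (D k), f + η • f', hC', ?_, ?_, ?_, ?_, ?_⟩
    · intro k m
      rw [bf_add_apply, bf_smul_apply]
      by_cases hm : m ∈ D k
      · rw [h0 k m (hD k hm).1, ind_of_mem hm, zero_add, mul_one, hη]
      · rw [ind_of_notMem hm, mul_zero, add_zero]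
        exact hb k m
    · intro k m hm
      rw [bf_add_apply, bf_smul_apply, h0 k m (hCC hm),
        ind_of_notMem (fun hc => (hD k hc).2 hm), mul_zero, add_zero]
    · intro φ
      have h1 : (H + η • S).1 φ = H.1 φ + η * S.1 φ := rfl
      rw [h1]
      refine ((hlim φ).add ((hlim' φ).const_mul η)).congr (fun k => ?_)
      rw [map_add, map_add, map_add, map_smul, map_smul, map_smul, smul_eq_mul]
    · rw [map_add, map_add, map_smul, map_smul, hf, hf']
    · intro m hm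
      rw [bf_add_apply, bf_smul_apply]
      have h1 := hfC m (hCC hm)
      have h2 := hfC' m hm
      push_cast
      linarith

theorem contradiction (T0 : Q →L[ℝ] Q) (R : MF KB →L[ℝ] Q) (hR : ∀ x, R (hat (T0 x)) = x) :
    False := by
  obtain ⟨N, hN⟩ := exists_nat_gt (2 * (‖R‖ * ‖T0‖))
  obtain ⟨C, H, h, f, hC, hb, -, hlim, hf, hfC⟩ := iterate T0 R hR N
  obtain ⟨H', hH', hH'n⟩ := exists_lim T0 h (fun k => bf_norm_le zero_le_one (hb k)) _ hlim
  have hHH : H' = H := Subtype.ext (bf_ext hH')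
  rw [hHH] at hH'n
  have h1 : (N : ℝ) / 2 ≤ ‖cl f‖ := le_cl_norm_of_frequently (frequently_of_infinite hC hfC)
  rw [hf] at h1
  have h2 := R.le_opNorm H
  have h3 := mul_le_mul_of_nonneg_left hH'n (norm_nonneg R)
  linarith

theorem main (hCH : (ℵ₁ : Cardinal.{0}) = 𝔠) : ∃ J : Q →ₗᵢ[ℝ] Q, ∀ Z : Submodule ℝ Q,
    Z ≤ LinearMap.range J.toLinearMap → Nonempty (Z ≃L[ℝ] Q) →
      ¬ ∃ P : Q →L[ℝ] Q, (∀ x, P x ∈ Z) ∧ ∀ z ∈ Z, P z = z := by
  obtain ⟨J', hJ'⟩ := exists_isometry KB (card_MS.trans hCH.symm.le)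
  let J : Q →ₗᵢ[ℝ] Q := ⟨J'.toLinearMap ∘ₗ hat, fun x => by
    show ‖J' (hat x)‖ = ‖x‖
    rw [hJ', hat_norm]⟩
  refine ⟨J, ?_⟩
  rintro Z hZ ⟨e⟩ ⟨P, hP1, hP2⟩
  let j : Q ≃ₗᵢ[ℝ] LinearMap.range J.toLinearMap := LinearIsometryEquiv.ofSurjective
    ⟨J.toLinearMap.rangeRestrict, fun x => J.norm_map x⟩ (by
      rintro ⟨_, ⟨x, rfl⟩⟩
      exact ⟨x, rfl⟩)
  let inc : Z →L[ℝ] LinearMap.range J.toLinearMap :=
    Z.subtypeL.codRestrict _ (fun z => hZ z.2)
  let T0 : Q →L[ℝ] Q :=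
    (j.symm.toContinuousLinearEquiv.toContinuousLinearMap.comp inc).comp
      e.symm.toContinuousLinearMap
  have hT0 : ∀ x, J' (hat (T0 x)) = (e.symm x : Q) := by
    intro x
    have h1 : j (T0 x) = inc (e.symm x) := by
      show j (j.symm (inc (e.symm x))) = _
      rw [LinearIsometryEquiv.apply_symm_apply]
    have h2 := congrArg Subtype.val h1
    exact h2
  let R : MF KB →L[ℝ] Q := (e.toContinuousLinearMap.comp (P.codRestrict Z hP1)).comp J'
  refine contradiction T0 R (fun x => ?_)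
  show e ⟨P (J' (hat (T0 x))), _⟩ = x
  have h3 : (⟨P (J' (hat (T0 x))), hP1 _⟩ : Z) = e.symm x := by
    apply Subtype.ext
    show P (J' (hat (T0 x))) = _
    rw [hT0]
    exact hP2 _ (e.symm x).2
  rw [h3]
  exact e.apply_symm_apply x

end Pool.Agent.H48.Par
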