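import Mathlib
import Pool.Agent.H48.QuotC0
import Pool.Agent.H48.ParMain
/-!
Under the continuum hypothesis, `ℓ∞/c₀` contains an isometric copy of itself no subspace of which is
a copy of `ℓ∞/c₀` complemented in the whole space.
-/

set_option autoImplicit false
open Filter Topology Cardinal

namespace Pool.Agent.H48.CHNoComplementedSubcopy

/-- The Banach space `ℓ∞` of bounded real sequences. -/
def EllInf : Type := lp (fun _ : ℕ => ℝ) ⊤

noncomputable instance : NormedAddCommGroup EllInf := lp.normedAddCommGroup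

noncomputable instance : NormedSpace ℝ EllInf :=
  (inferInstance : NormedSpace ℝ (lp (fun _ : ℕ => ℝ) ⊤))

/-- The sequence of the values of an element of `ℓ∞`. -/
def EllInf.toSeq (f : EllInf) : ℕ → ℝ := f.1

theorem toSeq_add {f g : EllInf} (hf : Tendsto f.toSeq atTop (𝓝 0))
    (hg : Tendsto g.toSeq atTop (𝓝 0)) : Tendsto (f + g).toSeq atTop (𝓝 0) :=
  Pool.Agent.H48.Par.c0.add_mem' hf hg

theorem toSeq_zero : Tendsto (0 : EllInf).toSeq atTop (𝓝 0) :=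
  Pool.Agent.H48.Par.c0.zero_mem'

theorem toSeq_smul (c : ℝ) {f : EllInf} (hf : Tendsto f.toSeq atTop (𝓝 0)) :
    Tendsto (c • f).toSeq atTop (𝓝 0) :=
  Pool.Agent.H48.Par.c0.smul_mem' c hf

/-- The subspace `c₀` of `ℓ∞`: the sequences tending to `0`. -/
def cZero : Submodule ℝ EllInf where
  carrier := {f | Tendsto f.toSeq atTop (𝓝 0)}
  add_mem' := fun hf hg => toSeq_add hf hg
  zero_mem' := toSeq_zero
  smul_mem' := fun c _ hf => toSeq_smul c hf

instance cZero_closed : IsClosed (cZero : Set EllInf) := Pool.Agent.H48.Par.c0_closed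

/-- The Banach space `ℓ∞/c₀` of bounded real sequences modulo sequences tending to `0`. -/
def Q : Type := EllInf ⧸ cZero

noncomputable instance : NormedAddCommGroup Q := Submodule.Quotient.normedAddCommGroup cZero

noncomputable instance : NormedSpace ℝ Q := Submodule.Quotient.normedSpace cZero ℝ

/-- `Y` is a copy of `ℓ∞/c₀` inside `ℓ∞/c₀`: a closed linear subspace linearly isomorphic to
`ℓ∞/c₀`. -/
def IsCopy (Y : Submodule ℝ Q) : Prop :=
  IsClosed (Y : Set Q) ∧ Nonempty (Q ≃L[ℝ] Y)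

/-- `Y` is an isometric copy of `ℓ∞/c₀` inside `ℓ∞/c₀`. -/
def IsIsometricCopy (Y : Submodule ℝ Q) : Prop :=
  IsClosed (Y : Set Q) ∧ Nonempty (Q ≃ₗᵢ[ℝ] Y)

/-- `Z` is complemented in `ℓ∞/c₀`: it is the range of a bounded linear projection. -/
def IsComplementedSubspace (Z : Submodule ℝ Q) : Prop :=
  ∃ P : Q →L[ℝ] Q, P ∘L P = P ∧ LinearMap.range P.toLinearMap = Z

/-- The statement `S`. -/
def StatementS : Prop :=
  ∀ Y : Submodule ℝ Q, IsCopy Y →
    ∃ Z : Submodule ℝ Q, Z ≤ Y ∧ IsCopy Z ∧ IsComplementedSubspace Z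

theorem main' (hCH : (ℵ₁ : Cardinal.{0}) = 𝔠) : ∃ J : Q →ₗᵢ[ℝ] Q,
    ∀ Z : Submodule ℝ Q,
    Z ≤ LinearMap.range J.toLinearMap → Nonempty (Z ≃L[ℝ] Q) →
      ¬ ∃ P : Q →L[ℝ] Q, (∀ x, P x ∈ Z) ∧ ∀ z ∈ Z, P z = z :=
  Pool.Agent.H48.Par.main hCH

/-- If the continuum hypothesis holds, there is an isometric copy `Y` of `ℓ∞/c₀` inside `ℓ∞/c₀`
such that no subspace of `Y` is a copy of `ℓ∞/c₀` complemented in `ℓ∞/c₀`. -/
theorem result (hCH : (ℵ₁ : Cardinal.{0}) = 𝔠) :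
    ∃ Y : Submodule ℝ Q, IsIsometricCopy Y ∧
      ∀ Z : Submodule ℝ Q, Z ≤ Y → IsCopy Z → ¬ IsComplementedSubspace Z := by
  obtain ⟨J, hJ⟩ := main' hCH
  have hj : Nonempty (Q ≃ₗᵢ[ℝ] LinearMap.range J.toLinearMap) :=
    ⟨LinearIsometryEquiv.ofSurjective
      ⟨J.toLinearMap.rangeRestrict, fun x => J.norm_map x⟩ (by
      rintro ⟨_, ⟨x, rfl⟩⟩
      exact ⟨x, rfl⟩)⟩
  have h0 : CompleteSpace EllInf := inferInstanceAs (CompleteSpace (lp (fun _ : ℕ => ℝ) ⊤))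
  have h0' : CompleteSpace Q := Submodule.Quotient.completeSpace cZero
  refine ⟨LinearMap.range J.toLinearMap, ⟨?_, hj⟩, ?_⟩
  · have h1 : ((LinearMap.range J.toLinearMap : Submodule ℝ Q) : Set Q) =
        Set.range J := by
      ext x
      simp
    rw [h1]
    exact J.isometry.isClosedEmbedding.isClosed_range
  · rintro Z hZ ⟨-, ⟨e⟩⟩ ⟨P, hPP, hPZ⟩
    refine hJ Z hZ ⟨e.symm⟩ ⟨P, fun x => ?_, fun z hz => ?_⟩
    · rw [← hPZ]
      exact ⟨x, rfl⟩
    · rw [← hPZ] at hz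
      obtain ⟨x, rfl⟩ := hz
      exact congrArg (fun T : Q →L[ℝ] Q => T x) hPP

/-- The statement `S` fails under the continuum hypothesis. -/
theorem not_S (hCH : (ℵ₁ : Cardinal.{0}) = 𝔠) : ¬ StatementS := by
  intro hS
  obtain ⟨Y, ⟨hY, ⟨e⟩⟩, hYZ⟩ := result hCH
  obtain ⟨Z, hZY, hZ, hZc⟩ := hS Y ⟨hY, ⟨e.toContinuousLinearEquiv⟩⟩
  exact hYZ Z hZY hZ hZc

end Pool.Agent.H48.CHNoComplementedSubcopy
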