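import Mathlib

/-!
A two-dimensional real Banach space `X` with `γ⁺_X(ε) < ε^2` for `ε = 13/16`.

Let `t = √2 - 1`. The dual norm is, up to a scalar, the maximum of four Hilbert norms,
`N(u,v)^2 = max (8u^2+2v^2, 2u^2+8v^2, 5u^2+6uv+5v^2, 5u^2-6uv+5v^2)`,
which is invariant under the rotation by 45 degrees and the reflection `(u,v) ↦ (u,-v)`.
The dual unit sphere consists of eight elliptic arcs meeting at eight corners, so the unit
sphere of `X` consists of eight elliptic arcs and eight segments. Pairs `x₁, x₂` at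
distance `13/16` have functionals on the same arc or on adjacent arcs. On the same arc the
estimate `⟨p₁-p₂,x₁-x₂⟩ ≤ ‖p₁-p₂‖ ε` is enough; for adjacent arcs one combines the
constraint `⟨q,x₂-x₁⟩ ≤ ε N(q)` at the corner `q` between the arcs with the exact value of
`⟨p₁-p₂,x₁-x₂⟩`.
-/

set_option autoImplicit false

namespace Pool.Agent.H48.DayNordlander

/-! ### The main inequality -/

theorem aux_K (t W u v u' v' g : ℝ) (ht0 : 0.4142 < t) (ht1 : t < 0.41422) (ht : t^2 = 1 - 2*t)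
    (hW : W = 10 - 4*t)
    (h1 : 8*u^2 + 2*v^2 = W) (h1' : 8*u'^2 + 2*v'^2 = W) (hg : v' = v + g) :
    (u*v' - u'*v)*(u+u') = g*((W + 2*v*v')/8 + u*u') := by
  have e1 : u^2 = (W - 2*v^2)/8 := by linarith
  have e2 : u'^2 = (W - 2*v'^2)/8 := by linarith
  have : (u*v' - u'*v)*(u+u') = u^2*v' - u'^2*v + u*u'*(v'-v) := by ring
  rw [this, e1, e2, hg]; ring

theorem aux_du (t u v u' v' g : ℝ) (ht0 : 0 < t) 
    (h1 : 8*u^2 + 2*v^2 = 8*u'^2 + 2*v'^2) (hg : v' = v + g)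
    (hs : 2 ≤ u + u') (hvv : |v + v'| ≤ 2*t) : (u-u')^2 ≤ g^2*t^2/16 := by
  have id3 : (u - u')*(4*(u+u')) = g*(v+v') := by
    rw [hg] at h1 ⊢
    linear_combination (1/2)*h1
  have e1 : ((u - u')*(4*(u+u')))^2 = g^2*(v+v')^2 := by rw [id3]; ring
  have e2 : (v+v')^2 ≤ (2*t)^2 := by
    rw [← sq_abs (v+v')]; exact pow_le_pow_left₀ (abs_nonneg _) hvv 2
  have e4 : g^2*(v+v')^2 ≤ g^2*(2*t)^2 := mul_le_mul_of_nonneg_left e2 (sq_nonneg g)
  have h4 : 64 ≤ 16*(u+u')^2 := by nlinarith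
  have e3 : (u-u')^2*64 ≤ (u-u')^2 * (16*(u+u')^2) := mul_le_mul_of_nonneg_left h4 (sq_nonneg _)
  have e5 : ((u - u')*(4*(u+u')))^2 = (u-u')^2 * (16*(u+u')^2) := by ring
  linarith

theorem le_of_mul_le' {K s a : ℝ} (hs : 0 < s) (h : K*s ≤ a*s) : K ≤ a :=
  le_of_mul_le_mul_right h hs

theorem aux_ub (t W u v : ℝ) (ht0 : 0.4142 < t) (hW : W = 10 - 4*t)
    (h1 : 8*u^2 + 2*v^2 = W) : u ≤ 1.0213 := by
  nlinarith [sq_nonneg v]

theorem aux_neg (t W u v u' v' g K : ℝ) (ht0 : 0.4142 < t) (ht1 : t < 0.41422) (ht : t^2 = 1 - 2*t)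
    (hW : W = 10 - 4*t) (hu : 1 ≤ u) (hu' : 1 ≤ u') (hub : u ≤ 1.0213) (hub' : u' ≤ 1.0213)
    (hv1 : -t ≤ v) (hv2 : v ≤ t) (hv1' : -t ≤ v') (hv2' : v' ≤ t)
    (hK : K*(u+u') = g*((W + 2*v*v')/8 + u*u')) (hg : g ≤ 0) : K ≤ 0.97*g := by
  have hb : 2 ≤ (W + 2*v*v')/8 + u*u' := by
    have h1 : -t^2 ≤ v*v' := by
      have := abs_mul v v'
      have h3 : |v| ≤ t := abs_le.2 ⟨hv1, hv2⟩
      have h4 : |v'| ≤ t := abs_le.2 ⟨hv1', hv2'⟩
      have h5 : |v*v'| ≤ t*t := by rw [this]; exact mul_le_mul h3 h4 (abs_nonneg _) (by linarith)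
      have := (abs_le.1 h5).1
      nlinarith
    have h2 : 1 ≤ u*u' := by nlinarith
    nlinarith
  have h5 : K*(u+u') ≤ g*2 := by rw [hK]; exact mul_le_mul_of_nonpos_left hb hg
  have h6 : g*2 ≤ (0.97*g)*(u+u') := by nlinarith
  exact le_of_mul_le' (by linarith : 0 < u+u') (h5.trans h6)

theorem aux_pos (t W u v u' v' g K : ℝ) (ht0 : 0.4142 < t) (ht1 : t < 0.41422) (ht : t^2 = 1 - 2*t)
    (hW : W = 10 - 4*t) (hu : 1 ≤ u) (hu' : 1 ≤ u')
    (h1 : 8*u^2 + 2*v^2 = W) (h1' : 8*u'^2 + 2*v'^2 = W)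
    (hv1 : -t ≤ v) (hv2 : v ≤ t) (hv1' : -t ≤ v') (hv2' : v' ≤ t)
    (hK : K*(u+u') = g*((W + 2*v*v')/8 + u*u')) (hg : 0 ≤ g) : K ≤ 1.0645*g := by
  have hb : (W + 2*v*v')/8 + u*u' ≤ 2*1.0645 := by
    have h1 : v*v' ≤ t^2 := by
      have := abs_mul v v'
      have h3 : |v| ≤ t := abs_le.2 ⟨hv1, hv2⟩
      have h4 : |v'| ≤ t := abs_le.2 ⟨hv1', hv2'⟩
      have h5 : |v*v'| ≤ t*t := by rw [this]; exact mul_le_mul h3 h4 (abs_nonneg _) (by linarith)
      have := (abs_le.1 h5).2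
      nlinarith
    have h7 : u*u' ≤ W/8 := by nlinarith [sq_nonneg (u-u'), sq_nonneg v, sq_nonneg v']
    nlinarith
  have h5 : K*(u+u') ≤ g*(2*1.0645) := by rw [hK]; exact mul_le_mul_of_nonneg_left hb hg
  have h6 : g*(2*1.0645) ≤ (1.0645*g)*(u+u') := by nlinarith
  exact le_of_mul_le' (by linarith : 0 < u+u') (h5.trans h6)

/-- main inequality, adjacent arcs -/
theorem main_ineq (t W u v u' v' mu la : ℝ) (ht0 : 0.4142 < t) (ht1 : t < 0.41422) (ht : t^2 = 1 - 2*t)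
    (hW : W = 10 - 4*t)
    (h1 : 8*u^2 + 2*v^2 = W) (hu : 1 ≤ u) (hv1 : -t ≤ v) (hv2 : v ≤ t)
    (h1' : 8*u'^2 + 2*v'^2 = W) (hu' : 1 ≤ u') (hv1' : -t ≤ v') (hv2' : v' ≤ t)
    (hmu : 0 ≤ mu) (hla : 0 ≤ la) (hmu' : mu ≠ 0 → v = -t) (hla' : la ≠ 0 → v' = t)
    (hD : 8*t*(u+u') + 2*(v'-v) + 2*t*(mu+la) ≤ 13/16*W) :
    2*W - (1+t)/2*(16*u*u' + 4*v*v' - 10*(u*v' - u'*v)) + la*(u - t*v) + mu*(u' + t*v')
      ≤ 33/50*W := by
  have hub := aux_ub t W u v ht0 hW h1
  have hub' := aux_ub t W u' v' ht0 hW h1'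
  obtain ⟨g, hg⟩ : ∃ g, g = v' - v := ⟨_, rfl⟩
  have hv' : v' = v + g := by linarith
  -- identity for 16uu'+4vv'
  have id1 : 16*u*u' + 4*v*v' = 2*W - 8*(u-u')^2 - 2*g^2 := by
    rw [hg]; linear_combination h1 + h1'
  obtain ⟨K, hKdef⟩ : ∃ K, K = u*v' - u'*v := ⟨_, rfl⟩
  have id2 : K*(u+u') = g*((W + 2*v*v')/8 + u*u') := by
    rw [hKdef]; exact aux_K t W u v u' v' g ht0 ht1 ht hW h1 h1' hv'
  have hs : 2 ≤ u + u' := by linarith
  have hvv : |v + v'| ≤ 2*t := by rw [abs_le]; constructor <;> linarith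
  have hdu : (u-u')^2 ≤ g^2*t^2/16 :=
    aux_du t u v u' v' g (by linarith) (by rw [h1, h1']) hv' hs hvv
  obtain ⟨dd, hdd⟩ : ∃ dd, dd = (u-u')^2 := ⟨_, rfl⟩
  rw [id1, ← hKdef, ← hdd]
  rw [← hdd] at hdu
  rcases lt_or_ge g 0 with hneg | hpos
  · have hmu0 : mu = 0 := by
      by_contra h
      have := hmu' h
      linarith
    have hla0 : la = 0 := by
      by_contra h
      have := hla' h
      linarith
    rw [hmu0, hla0]
    have hK : K ≤ 0.97*g :=
      aux_neg t W u v u' v' g K ht0 ht1 ht hW hu hu' hub hub' hv1 hv2 hv1' hv2' id2 hneg.le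
    have hgl : -1 ≤ g := by linarith
    have hdu2 : dd ≤ g^2/16 := by
      have h13 : t^2 ≤ 1 := by linarith
      have h14 := mul_le_mul_of_nonneg_left h13 (sq_nonneg g)
      linarith
    have hgg : g^2 ≤ -g := by
      have := mul_nonpos_of_nonpos_of_nonneg hneg.le (by linarith : 0 ≤ g+1)
      linarith
    have h7 : (1+t)/2*(8*dd + 2*g^2 + 10*K) ≤ 0 := by
      apply mul_nonpos_of_nonneg_of_nonpos (by linarith)
      linarith
    have e : 2*W - (1+t)/2*(2*W - 8*dd - 2*g^2 - 10*K) + 0*(u - t*v) + 0*(u'+t*v')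
      = (1-t)*W + (1+t)/2*(8*dd + 2*g^2 + 10*K) := by ring
    rw [e]
    have h12 : (1-t)*W ≤ 4.8876 := by rw [hW]; linarith
    linarith
  · have hK : K ≤ 1.0645*g :=
      aux_pos t W u v u' v' g K ht0 ht1 ht hW hu hu' h1 h1' hv1 hv2 hv1' hv2' id2 hpos
    -- la and mu terms
    have hla1 : la*(u - t*v) ≤ la*(0.8499 + 0.4143*g) := by
      by_cases h : la = 0
      · rw [h]; simp
      · have hv't := hla' h
        have : v = t - g := by linarith
        apply mul_le_mul_of_nonneg_left _ hla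
        rw [this]
        have h16 : t*g ≤ 0.4143*g := mul_le_mul_of_nonneg_right (by linarith) hpos
        linarith
    have hmu1 : mu*(u' + t*v') ≤ mu*(0.8499 + 0.4143*g) := by
      by_cases h : mu = 0
      · rw [h]; simp
      · have hvt := hmu' h
        have : v' = -t + g := by linarith
        apply mul_le_mul_of_nonneg_left _ hmu
        rw [this]
        have h16 : t*g ≤ 0.4143*g := mul_le_mul_of_nonneg_right (by linarith) hpos
        linarith
    obtain ⟨L, hL⟩ : ∃ L, L = mu + la := ⟨_, rfl⟩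
    have hL0 : 0 ≤ L := by linarith
    have hE : 2*g + 2*t*L ≤ 0.1517 := by
      have h16 : 8*t*2 ≤ 8*t*(u+u') := mul_le_mul_of_nonneg_left hs (by linarith)
      rw [hL, hg]
      linarith
    have htL : 0 ≤ t*L := by positivity
    have hgb : g ≤ 0.07585 := by linarith
    have hLb : L ≤ 0.1832 - 2.4142*g := by
      have h17 : 0.4142*L ≤ t*L := mul_le_mul_of_nonneg_right ht0.le hL0
      have h18 : 0.8284*L ≤ 0.1517 - 2*g := by linarith
      linarith
    have h9 : 0 ≤ 0.8499 + 0.4143*g := by positivity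
    have hsum : la*(u - t*v) + mu*(u' + t*v') ≤ (0.1832 - 2.4142*g)*(0.8499 + 0.4143*g) := by
      have h8 : la*(u - t*v) + mu*(u' + t*v') ≤ L*(0.8499 + 0.4143*g) := by
        rw [hL]; linarith
      exact h8.trans (mul_le_mul_of_nonneg_right hLb h9)
    have hdu2 : dd ≤ 0.0108*g^2 := by
      have h13 : t^2 ≤ 0.1716 := by linarith
      have h14 := mul_le_mul_of_nonneg_left h13 (sq_nonneg g)
      linarith [sq_nonneg g]
    have hg2 : g^2 ≤ 0.07585*g := by
      have := mul_le_mul_of_nonneg_right hgb hpos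
      linarith
    have h7 : (1+t)/2*(8*dd + 2*g^2 + 10*K) ≤ 0.70711*(0.16*g + 10.645*g) := by
      have h10 : 8*dd + 2*g^2 + 10*K ≤ 0.16*g + 10.645*g := by linarith
      have h11 : 0 ≤ 0.16*g + 10.645*g := by positivity
      calc (1+t)/2*(8*dd + 2*g^2 + 10*K) ≤ (1+t)/2*(0.16*g + 10.645*g) :=
            mul_le_mul_of_nonneg_left h10 (by linarith)
        _ ≤ 0.70711*(0.16*g + 10.645*g) := mul_le_mul_of_nonneg_right (by linarith) h11
    have e : 2*W - (1+t)/2*(2*W - 8*dd - 2*g^2 - 10*K) + la*(u - t*v) + mu*(u'+t*v')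
      = (1-t)*W + (1+t)/2*(8*dd + 2*g^2 + 10*K) + (la*(u - t*v) + mu*(u'+t*v')) := by ring
    rw [e]
    have h12 : (1-t)*W ≤ 4.8876 := by rw [hW]; linarith
    have h15 : (0.1832 - 2.4142*g)*(0.8499 + 0.4143*g) ≤ 0.15571 - 1.9759*g := by
      have := sq_nonneg g
      linarith
    linarith

/-! ### The constants -/

noncomputable def t : ℝ := Real.sqrt 2 - 1
noncomputable def W : ℝ := 10 - 4*t

theorem t_sq : t^2 = 1 - 2*t := by
  have : Real.sqrt 2 ^ 2 = 2 := Real.sq_sqrt (by norm_num)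
  unfold t; nlinarith

theorem t_gt : 0.4142 < t := by
  have : (1.4142:ℝ) < Real.sqrt 2 := by
    apply Real.lt_sqrt_of_sq_lt; norm_num
  unfold t; linarith

theorem t_lt : t < 0.41422 := by
  have : Real.sqrt 2 < 1.41422 := by
    rw [Real.sqrt_lt' (by norm_num)]; norm_num
  unfold t; linarith

theorem W_pos : 0 < W := by have := t_lt; unfold W; linarith

/-- the squared dual norm -/
def Mq (u v : ℝ) : ℝ :=
  max (max (8*u^2+2*v^2) (2*u^2+8*v^2)) (max (5*u^2+6*u*v+5*v^2) (5*u^2-6*u*v+5*v^2))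

noncomputable def rot (p : ℝ × ℝ) : ℝ × ℝ := ((p.1 - p.2)*((1+t)/2), (p.1 + p.2)*((1+t)/2))
noncomputable def roti (p : ℝ × ℝ) : ℝ × ℝ := ((p.1 + p.2)*((1+t)/2), (p.2 - p.1)*((1+t)/2))

theorem s_sq : ((1+t)/2)^2 = 1/2 := by have := t_sq; nlinarith

theorem rot_roti (p : ℝ × ℝ) : rot (roti p) = p := by
  have h := s_sq
  ext
  · simp only [rot, roti]; linear_combination (2*p.1)*h
  · simp only [rot, roti]; linear_combination (2*p.2)*h

theorem roti_rot (p : ℝ × ℝ) : roti (rot p) = p := by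
  have h := s_sq
  ext
  · simp only [rot, roti]; linear_combination (2*p.1)*h
  · simp only [rot, roti]; linear_combination (2*p.2)*h

theorem Mq_rot (p : ℝ × ℝ) : Mq (rot p).1 (rot p).2 = Mq p.1 p.2 := by
  have h := s_sq
  have e0 : 8*(rot p).1^2+2*(rot p).2^2 = 5*p.1^2-6*p.1*p.2+5*p.2^2 := by
    simp only [rot]
    linear_combination (8*(p.1-p.2)^2 + 2*(p.1+p.2)^2)*h
  have e2 : 2*(rot p).1^2+8*(rot p).2^2 = 5*p.1^2+6*p.1*p.2+5*p.2^2 := by
    simp only [rot]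
    linear_combination (2*(p.1-p.2)^2 + 8*(p.1+p.2)^2)*h
  have e1 : 5*(rot p).1^2+6*(rot p).1*(rot p).2+5*(rot p).2^2 = 8*p.1^2+2*p.2^2 := by
    simp only [rot]
    linear_combination (5*(p.1-p.2)^2 + 6*(p.1-p.2)*(p.1+p.2) + 5*(p.1+p.2)^2)*h
  have e3 : 5*(rot p).1^2-6*(rot p).1*(rot p).2+5*(rot p).2^2 = 2*p.1^2+8*p.2^2 := by
    simp only [rot]
    linear_combination (5*(p.1-p.2)^2 - 6*(p.1-p.2)*(p.1+p.2) + 5*(p.1+p.2)^2)*h
  unfold Mq
  rw [e0, e1, e2, e3]
  rw [max_comm (5*p.1^2-6*p.1*p.2+5*p.2^2), max_comm (max (5*p.1^2+6*p.1*p.2+5*p.2^2) _)]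

theorem Mq_roti (p : ℝ × ℝ) : Mq (roti p).1 (roti p).2 = Mq p.1 p.2 := by
  have := Mq_rot (roti p)
  rw [rot_roti] at this
  exact this.symm

theorem Mq_neg (u v : ℝ) : Mq (-u) (-v) = Mq u v := by
  unfold Mq; congr 2 <;> ring

theorem Mq_refl (u v : ℝ) : Mq u (-v) = Mq u v := by
  unfold Mq
  rw [max_comm (5*u^2+6*u*v+5*v^2)]
  congr 2 <;> ring

def dot (p x : ℝ × ℝ) : ℝ := p.1*x.1 + p.2*x.2

theorem dot_rot (p x : ℝ × ℝ) : dot (rot p) (rot x) = dot p x := by
  have h := s_sq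
  simp only [dot, rot]
  linear_combination (2*(p.1*x.1+p.2*x.2))*h

theorem dot_roti (p x : ℝ × ℝ) : dot (roti p) (roti x) = dot p x := by
  rw [← dot_rot (roti p) (roti x), rot_roti, rot_roti]

theorem rot_sub (p q : ℝ × ℝ) : rot p - rot q = rot (p - q) := by
  ext <;> simp [rot] <;> ring

theorem roti_sub (p q : ℝ × ℝ) : roti p - roti q = roti (p - q) := by
  ext <;> simp [roti] <;> ring

/-- `x` is a unit vector, `p` a norming functional (scaled) -/
structure Pr (x p : ℝ × ℝ) : Prop where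
  hM : Mq p.1 p.2 = W
  hp : dot p x = 1
  hN : ∀ q : ℝ × ℝ, W * (dot q x)^2 ≤ Mq q.1 q.2

def Near (x y : ℝ × ℝ) : Prop := ∀ q : ℝ × ℝ, W * (dot q (x - y))^2 ≤ (13/16)^2 * Mq q.1 q.2

theorem Pr.rot {x p : ℝ × ℝ} (h : Pr x p) : Pr (rot x) (rot p) := by
  refine ⟨by rw [Mq_rot, h.hM], by rw [dot_rot, h.hp], fun q => ?_⟩
  have := h.hN (roti q)
  rw [Mq_roti, ← dot_rot, rot_roti] at this
  exact this

theorem Pr.roti {x p : ℝ × ℝ} (h : Pr x p) : Pr (roti x) (roti p) := by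
  refine ⟨by rw [Mq_roti, h.hM], by rw [dot_roti, h.hp], fun q => ?_⟩
  have := h.hN (DayNordlander.rot q)
  rw [Mq_rot, ← dot_roti, roti_rot] at this
  exact this

theorem Near.rot {x y : ℝ × ℝ} (h : Near x y) : Near (rot x) (rot y) := by
  intro q
  have := h (roti q)
  rw [Mq_roti, ← dot_rot, rot_roti, ← rot_sub] at this
  exact this

theorem Near.roti {x y : ℝ × ℝ} (h : Near x y) : Near (roti x) (roti y) := by
  intro q
  have := h (DayNordlander.rot q)
  rw [Mq_rot, ← dot_roti, roti_rot, ← roti_sub] at this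
  exact this

theorem Near.symm {x y : ℝ × ℝ} (h : Near x y) : Near y x := by
  intro q
  have := h q
  have e : dot q (y - x) = - dot q (x - y) := by simp [dot]; ring
  rw [e, neg_sq]
  exact this

/-- the target estimate for a pair of functionals -/
def Claim (p q : ℝ × ℝ) : Prop :=
  ∀ x y : ℝ × ℝ, Pr x p → Pr y q → Near x y → dot (p - q) (x - y) ≤ 33/50

theorem Claim.rot {p q : ℝ × ℝ} (h : Claim p q) : Claim (rot p) (rot q) := by
  intro x y hx hy hn
  have := h (roti x) (roti y) (by have := hx.roti; rwa [roti_rot] at this)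
    (by have := hy.roti; rwa [roti_rot] at this) hn.roti
  rw [← dot_rot, ← rot_sub, ← rot_sub, rot_roti, rot_roti] at this
  exact this

theorem Claim.of_rot {p q : ℝ × ℝ} (h : Claim (DayNordlander.rot p) (DayNordlander.rot q)) : Claim p q := by
  intro x y hx hy hn
  have := h (DayNordlander.rot x) (DayNordlander.rot y) hx.rot hy.rot hn.rot
  rw [rot_sub, rot_sub, dot_rot] at this
  exact this

theorem Claim.symm {p q : ℝ × ℝ} (h : Claim p q) : Claim q p := by
  intro x y hx hy hn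
  have := h y x hy hx hn.symm
  have e : dot (q - p) (x - y) = dot (p - q) (y - x) := by simp [dot]; ring
  rw [e]; exact this

/-- the closed sector `0` -/
def Sec (p : ℝ × ℝ) : Prop := |p.2| ≤ t * p.1

theorem Mq_le_iff {u v c : ℝ} : Mq u v ≤ c ↔ (8*u^2+2*v^2 ≤ c ∧ 2*u^2+8*v^2 ≤ c) ∧
    (5*u^2+6*u*v+5*v^2 ≤ c ∧ 5*u^2-6*u*v+5*v^2 ≤ c) := by
  unfold Mq; simp only [max_le_iff]

theorem Mq_sec {u v : ℝ} (h : |v| ≤ t*u) : Mq u v = 8*u^2+2*v^2 := by
  have ht := t_sq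
  have h0 := t_gt
  have h1 := t_lt
  have hu : 0 ≤ u := by
    have : 0 ≤ t*u := (abs_nonneg v).trans h
    by_contra hc
    push Not at hc
    nlinarith
  have hv := abs_nonneg v
  have hvv : v^2 = |v|^2 := (sq_abs v).symm
  have hA : |v|^2 ≤ (t*u)^2 := pow_le_pow_left₀ hv h 2
  have hB : |v| * u ≤ t*u*u := mul_le_mul_of_nonneg_right h hu
  have hC : (t*u)^2 = (1-2*t)*u^2 := by rw [mul_pow, ht]
  have key : v^2 + 2*(|v| * u) ≤ u^2 := by rw [hvv]; nlinarith
  have huv : |u*v| = |v| * u := by rw [abs_mul, abs_of_nonneg hu, mul_comm]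
  have huv1 : u*v ≤ |v| * u := huv ▸ le_abs_self _
  have huv2 : -(u*v) ≤ |v| * u := huv ▸ neg_le_abs _
  apply le_antisymm
  · rw [Mq_le_iff]
    refine ⟨⟨le_rfl, ?_⟩, ?_, ?_⟩
    · have : 0 ≤ |v| * u := mul_nonneg hv hu
      nlinarith
    · nlinarith
    · nlinarith
  · unfold Mq
    exact (le_max_left _ _).trans (le_max_left _ _)

theorem first_order (B C δ : ℝ) (hδ : 0 < δ) (h : ∀ s, 0 < s → s < δ → 0 ≤ 2*s*B + s^2*C) :
    0 ≤ B := by
  by_contra hB
  push Not at hB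
  set s := min (δ/2) (-B/(|C|+1)) with hs
  have hC : 0 < |C| + 1 := by positivity
  have hs0 : 0 < s := lt_min (by linarith) (div_pos (by linarith) hC)
  have hs1 : s < δ := lt_of_le_of_lt (min_le_left _ _) (by linarith)
  have h2 := h s hs0 hs1
  have h3 : s*(|C|+1) ≤ -B := by
    have : s ≤ -B/(|C|+1) := min_le_right _ _
    rwa [le_div_iff₀ hC] at this
  have h4 : s*C ≤ s*(|C|+1) := by
    apply mul_le_mul_of_nonneg_left _ hs0.le
    linarith [le_abs_self C]
  have h5 : 2*s*B + s^2*C = s*(2*B + s*C) := by ring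
  rw [h5] at h2
  have h6 : 2*B + s*C < 0 := by linarith
  have h7 := mul_neg_of_pos_of_neg hs0 h6
  linarith

/-- position data for a pair with the functional in sector `0` -/
structure Loc (x p : ℝ × ℝ) (la mu : ℝ) : Prop where
  hq : 8*p.1^2 + 2*p.2^2 = W
  hu : 1 ≤ p.1
  hv1 : -t ≤ p.2
  hv2 : p.2 ≤ t
  la0 : 0 ≤ la
  mu0 : 0 ≤ mu
  mu1 : mu ≤ 3*(1+t)
  hla : la ≠ 0 → p.2 = t
  hmu : mu ≠ 0 → p.2 = -t
  hX : W*x.1 = 8*p.1 - t*la - t*mu
  hY : W*x.2 = 2*p.2 + la - mu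

theorem dot_line (p h x : ℝ × ℝ) (s : ℝ) : dot (p.1 + s*h.1, p.2 + s*h.2) x = dot p x + s*dot h x := by
  simp only [dot]; ring

/-- first order condition in a direction `h` along which `Mq` is bounded by a quadratic form -/
theorem dir_cond {x p : ℝ × ℝ} (hx : Pr x p) (h : ℝ × ℝ) (B C δ : ℝ) (hδ : 0 < δ)
    (hb : ∀ s, 0 < s → s < δ → Mq (p.1 + s*h.1) (p.2+s*h.2) ≤ W + 2*s*B + s^2*C) :
    W * dot h x ≤ B := by
  have := first_order (B - W*dot h x) (C - W*(dot h x)^2) δ hδ (by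
    intro s hs0 hs1
    have h1 := hx.hN (p.1 + s*h.1, p.2+s*h.2)
    rw [dot_line, hx.hp] at h1
    have h2 := hb s hs0 hs1
    have h3 := h1.trans h2
    nlinarith)
  linarith

theorem loc_basic {p : ℝ × ℝ} (hM : Mq p.1 p.2 = W) (hs : Sec p) :
    8*p.1^2 + 2*p.2^2 = W ∧ 1 ≤ p.1 ∧ -t ≤ p.2 ∧ p.2 ≤ t := by
  have ht := t_sq
  have h0 := t_gt
  have h1 := t_lt
  have hq : 8*p.1^2 + 2*p.2^2 = W := by rw [← hM, Mq_sec hs]
  have hu0 : 0 ≤ p.1 := by
    have : 0 ≤ t*p.1 := (abs_nonneg p.2).trans hs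
    by_contra hc
    push Not at hc
    nlinarith
  have hA : p.2^2 ≤ (t*p.1)^2 := by
    rw [← sq_abs p.2]; exact pow_le_pow_left₀ (abs_nonneg _) hs 2
  have hWt : W = 8 + 2*t^2 := by unfold W; linarith
  have hu : 1 ≤ p.1 := by
    by_contra hc
    push Not at hc
    have : p.1^2 < 1 := by nlinarith
    have : (t*p.1)^2 = t^2*p.1^2 := by ring
    have : 0 < t^2 := by positivity
    nlinarith
  have hv : p.2^2 ≤ t^2 := by nlinarith
  have hv' := abs_le.1 (abs_le_of_sq_le_sq hv (by linarith))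
  exact ⟨hq, hu, hv'.1, hv'.2⟩

/-! ### Position of a point with given norming functional -/

def refl2 (p : ℝ × ℝ) : ℝ × ℝ := (p.1, -p.2)

theorem dot_refl (p x : ℝ × ℝ) : dot (refl2 p) (refl2 x) = dot p x := by
  simp only [dot, refl2]; ring

theorem refl_refl (p : ℝ × ℝ) : refl2 (refl2 p) = p := by
  simp [refl2]

theorem Pr.refl {x p : ℝ × ℝ} (h : Pr x p) : Pr (refl2 x) (refl2 p) := by
  refine ⟨by simp only [refl2]; rw [Mq_refl, h.hM], by rw [dot_refl, h.hp], fun q => ?_⟩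
  have := h.hN (refl2 q)
  rw [← dot_refl, refl_refl] at this
  simp only [refl2] at this
  rw [Mq_refl] at this
  exact this

theorem loc_interior {x p : ℝ × ℝ} (hx : Pr x p) (hs : |p.2| < t*p.1) :
    W*x.1 = 8*p.1 ∧ W*x.2 = 2*p.2 := by
  have h0 := t_gt
  have h1 := t_lt
  have hl := abs_lt.1 hs
  obtain ⟨d, hd⟩ : ∃ d, d = t*p.1 - |p.2| := ⟨_, rfl⟩
  have hd0 : 0 < d := by linarith
  have key : ∀ h : ℝ × ℝ, |h.1| ≤ 1 → |h.2| ≤ 1 → W * dot h x ≤ 8*p.1*h.1 + 2*p.2*h.2 := by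
    intro h hh1 hh2
    apply dir_cond hx h _ (8*h.1^2+2*h.2^2) (d/2) (by linarith)
    intro s hs0 hs1
    have e : |p.2 + s*h.2| ≤ t*(p.1 + s*h.1) := by
      have a1 : |p.2 + s*h.2| ≤ |p.2| + |s*h.2| := abs_add_le _ _
      have a2 : |s*h.2| ≤ s := by
        rw [abs_mul, abs_of_pos hs0]
        nlinarith
      have a3 : -s ≤ s*h.1 := by
        have := (abs_le.1 hh1).1
        nlinarith
      nlinarith
    rw [Mq_sec e]
    have hq : 8*p.1^2+2*p.2^2 = W := by rw [← hx.hM, Mq_sec hs.le]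
    rw [← hq]
    apply le_of_eq; ring
  have a1 := key (1,0) (by simp) (by simp)
  have a2 := key (-1,0) (by simp) (by simp)
  have a3 := key (0,1) (by simp) (by simp)
  have a4 := key (0,-1) (by simp) (by simp)
  simp only [dot] at a1 a2 a3 a4
  constructor <;> linarith

theorem loc_top {x p : ℝ × ℝ} (hx : Pr x p) (h1 : p.1 = 1) (h2 : p.2 = t) :
    ∃ la, la ≤ 3*(1+t) ∧ Loc x p la 0 := by
  have h0 := t_gt
  have h1' := t_lt
  have ht := t_sq
  have hWt : W = 8 + 2*t^2 := by unfold W; linarith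
  have hd : x.1 + t*x.2 = 1 := by have := hx.hp; simp only [dot] at this; rw [h1, h2] at this; linarith
  have c1 : W * dot (t,-1) x ≤ 6*t := by
    apply dir_cond hx (t,-1) _ (8*t^2+2) 1 (by norm_num)
    intro s hs0 hs1
    rw [h1, h2]
    have e : |t + s*(-1)| ≤ t*(1+s*t) := by
      rw [abs_le]; constructor <;> nlinarith
    have := Mq_sec e
    simp only
    rw [this, hWt]
    nlinarith
  have c2 : W * dot (-t,1) x ≤ 6*t := by
    apply dir_cond hx (-t,1) _ (5*t^2-6*t+5) 1 (by norm_num)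
    intro s hs0 hs1
    rw [h1, h2]
    simp only
    obtain ⟨a, ha⟩ : ∃ a, a = 1 + s*(-t) := ⟨_, rfl⟩
    obtain ⟨b, hb⟩ : ∃ b, b = t + s*1 := ⟨_, rfl⟩
    rw [← ha, ← hb]
    have e : 5*a^2+6*a*b+5*b^2 = W + 2*s*(6*t) + s^2*(5*t^2-6*t+5) := by
      rw [ha, hb, hWt]
      linear_combination (3 -6*s)*ht
    have ha0 : 0 < a := by rw [ha]; nlinarith
    have hb0 : 0 < b := by rw [hb]; linarith
    have hab : 0 < a*b := mul_pos ha0 hb0
    have f1 : b^2 + 2*a*b - a^2 = s*8*t := by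
      rw [ha, hb]
      linear_combination (1 - 2*s - s^2 )*ht
    have f2 : a^2 + 2*a*b - b^2 = 4*t - s^2*4*t := by
      rw [ha, hb]
      linear_combination (-1 -2*s + s^2)*ht
    rw [← e, Mq_le_iff]
    refine ⟨⟨?_, ?_⟩, le_rfl, ?_⟩
    · nlinarith
    · nlinarith
    · nlinarith
  obtain ⟨la, hla⟩ : ∃ la, la = (W*(x.2 - t*x.1) + 6*t)/(1+t^2) := ⟨_, rfl⟩
  have ht2 : 0 < 1 + t^2 := by positivity
  have hla' : la*(1+t^2) = W*(x.2 - t*x.1) + 6*t := by rw [hla]; field_simp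
  simp only [dot] at c1 c2
  have hla1 : la ≤ 3*(1+t) := by
    rw [hla, div_le_iff₀ ht2]
    have e : 3*(1+t)*(1+t^2) = 12*t := by linear_combination (3*(1+t))*ht + (-6)*ht
    linarith
  refine ⟨la, hla1, ?_, ?_, ?_, ?_, ?_, le_rfl, by linarith, ?_, ?_, ?_, ?_⟩
  · rw [h1, h2, hWt]; ring
  · rw [h1]
  · rw [h2]; linarith
  · rw [h2]
  · rw [hla]; apply div_nonneg _ ht2.le; linarith
  · intro _; exact h2
  · intro h; exact absurd rfl h
  · have := mul_right_cancel₀ (b := 1+t^2) ht2.ne' (a := W*x.1) (c := 8*p.1 - t*la - t*0) (by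
      rw [h1]
      linear_combination (t)*hla' + W*hd + hWt)
    exact this
  · have := mul_right_cancel₀ (b := 1+t^2) ht2.ne' (a := W*x.2) (c := 2*p.2 + la - 0) (by
      rw [h2]
      linear_combination (-1)*hla' + t*W*hd + t*hWt)
    exact this

theorem loc_bot {x p : ℝ × ℝ} (hx : Pr x p) (h1 : p.1 = 1) (h2 : p.2 = -t) :
    ∃ mu, Loc x p 0 mu := by
  obtain ⟨la, hb, h⟩ := loc_top hx.refl (by simp [refl2, h1]) (by simp [refl2, h2])
  have e1 := h.hq
  have e2 := h.hX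
  have e3 := h.hY
  simp only [refl2] at e1 e2 e3
  have h0 := t_gt
  refine ⟨la, by linarith, by rw [h1], by rw [h2], by rw [h2]; linarith, le_rfl, h.la0, hb, ?_,
    fun _ => h2, by linarith, by linarith⟩
  intro h; exact absurd rfl h

theorem loc {x p : ℝ × ℝ} (hx : Pr x p) (hs : Sec p) : ∃ la mu, Loc x p la mu := by
  have h0 := t_gt
  have h1 := t_lt
  have ht := t_sq
  have hWt : W = 8 + 2*t^2 := by unfold W; linarith
  obtain ⟨b1, b2, b3, b4⟩ := loc_basic hx.hM hs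
  rcases lt_or_eq_of_le hs with h | h
  · obtain ⟨c1, c2⟩ := loc_interior hx h
    exact ⟨0, 0, b1, b2, b3, b4, le_rfl, le_rfl, by linarith, fun h => absurd rfl h,
      fun h => absurd rfl h, by linarith, by linarith⟩
  · have e1 : p.2^2 = (t*p.1)^2 := by rw [← sq_abs, h]
    have e2 : (p.1-1)*((p.1+1)*(8+2*t^2)) = 0 := by
      have : 8*p.1^2 + 2*(t*p.1)^2 = 8 + 2*t^2 := by rw [← e1, b1, hWt]
      linear_combination this
    have e3 : p.1 = 1 := by
      have hpos : 0 < (p.1+1)*(8+2*t^2) := by positivity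
      rcases mul_eq_zero.1 e2 with h | h
      · linarith
      · exact absurd h hpos.ne'
    rw [e3, mul_one] at h
    rcases (abs_eq (by linarith : (0:ℝ) ≤ t)).1 h with h' | h'
    · obtain ⟨la, _, hl⟩ := loc_top hx e3 h'
      exact ⟨la, 0, hl⟩
    · obtain ⟨mu, hl⟩ := loc_bot hx e3 h'
      exact ⟨0, mu, hl⟩

/-! ### Pairs of sectors -/

theorem rot_rot (p : ℝ × ℝ) : rot (rot p) = (-p.2, p.1) := by
  have h := s_sq
  ext
  · simp only [rot]; linear_combination (-2*p.2)*h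
  · simp only [rot]; linear_combination (2*p.1)*h

theorem rot8 : rot^[8] = id := by
  funext p
  simp only [Function.iterate_succ, Function.iterate_zero, Function.comp, id, rot_rot, neg_neg]

theorem roti_eq (p : ℝ × ℝ) : roti p = rot^[7] p := by
  have h : rot^[8] p = p := by rw [rot8]; rfl
  rw [Function.iterate_succ_apply'] at h
  rw [← roti_rot (rot^[7] p), h]

/-- every vector is a rotated vector of the sector `0` -/
def InOrb (p : ℝ × ℝ) : Prop := ∃ n, ∃ a, Sec a ∧ p = rot^[n] a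

theorem InOrb.rot {p : ℝ × ℝ} (h : InOrb p) : InOrb (rot p) := by
  obtain ⟨n, a, ha, hp⟩ := h
  exact ⟨n+1, a, ha, by rw [Function.iterate_succ_apply', hp]⟩

theorem InOrb.iter {p : ℝ × ℝ} (h : InOrb p) (n : ℕ) : InOrb (DayNordlander.rot^[n] p) := by
  induction n with
  | zero => exact h
  | succ n ih => rw [Function.iterate_succ_apply']; exact ih.rot

theorem InOrb.roti {p : ℝ × ℝ} (h : InOrb p) : InOrb (roti p) := by
  rw [roti_eq]; exact h.iter 7

theorem InOrb.of_rot {p : ℝ × ℝ} (h : InOrb (DayNordlander.rot p)) : InOrb p := by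
  have := h.roti; rwa [roti_rot] at this

theorem InOrb.of_roti {p : ℝ × ℝ} (h : InOrb (DayNordlander.roti p)) : InOrb p := by
  have := h.rot; rwa [rot_roti] at this

theorem Sec.inOrb {p : ℝ × ℝ} (h : Sec p) : InOrb p := ⟨0, p, h, rfl⟩

theorem inOrb_quarter {a b : ℝ} (h : |b| ≤ a) : InOrb (a, b) := by
  have ht := t_sq
  have h0 := t_gt
  have h1 := t_lt
  have hb := abs_le.1 h
  have ha : 0 ≤ a := (abs_nonneg b).trans h
  rcases le_or_gt |b| (t*a) with hc | hc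
  · exact Sec.inOrb hc
  · rcases le_or_gt 0 b with hb0 | hb0
    · rw [abs_of_nonneg hb0] at hc
      apply InOrb.of_roti
      apply Sec.inOrb
      simp only [Sec, roti]
      rw [abs_le]
      constructor
      · have : (a - b)*((1+t)/2) ≤ t*((a+b)*((1+t)/2)) := by
          rw [← mul_assoc]
          apply mul_le_mul_of_nonneg_right _ (by linarith)
          have : (1-t)*a ≤ (1+t)*b := by
            have h2 : (1+t)*(t*a) ≤ (1+t)*b := mul_le_mul_of_nonneg_left hc.le (by linarith)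
            have h3 : (1+t)*(t*a) = (1-t)*a := by linear_combination a*ht
            linarith
          linarith
        linarith
      · have : (b - a)*((1+t)/2) ≤ 0 := by
          apply mul_nonpos_of_nonpos_of_nonneg <;> linarith
        have : 0 ≤ t*((a+b)*((1+t)/2)) := by positivity
        linarith
    · rw [abs_of_neg hb0] at hc
      apply InOrb.of_rot
      apply Sec.inOrb
      simp only [Sec, rot]
      rw [abs_le]
      have hab : 0 ≤ a - b := by linarith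
      constructor
      · have : 0 ≤ (a + b)*((1+t)/2) := by
          apply mul_nonneg <;> linarith
        have : 0 ≤ t*((a-b)*((1+t)/2)) := by positivity
        linarith
      · rw [← mul_assoc]
        apply mul_le_mul_of_nonneg_right _ (by linarith)
        have : (1-t)*a ≤ -((1+t)*b) := by
          have h2 : (1+t)*(t*a) ≤ (1+t)*(-b) := mul_le_mul_of_nonneg_left hc.le (by linarith)
          have h3 : (1+t)*(t*a) = (1-t)*a := by linear_combination a*ht
          linarith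
        linarith

theorem inOrb (p : ℝ × ℝ) : InOrb p := by
  obtain ⟨u, v⟩ := p
  rcases le_or_gt |v| |u| with h | h
  · rcases le_or_gt 0 u with hu | hu
    · rw [abs_of_nonneg hu] at h
      exact inOrb_quarter h
    · rw [abs_of_neg hu] at h
      have : InOrb (-u, -v) := inOrb_quarter (by rwa [abs_neg])
      have := (this.rot).rot
      rw [rot_rot] at this
      have := (this.rot).rot
      rw [rot_rot] at this
      simpa using this
  · rcases le_or_gt 0 v with hv | hv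
    · rw [abs_of_nonneg hv] at h
      have : InOrb (v, -u) := inOrb_quarter (by rw [abs_neg]; exact h.le)
      have := (this.rot).rot
      rw [rot_rot] at this
      simpa using this
    · rw [abs_of_neg hv] at h
      have : InOrb (-v, u) := inOrb_quarter h.le
      apply InOrb.of_rot
      apply InOrb.of_rot
      rw [rot_rot]
      exact this

theorem inOrb8 (p : ℝ × ℝ) : ∃ n, n < 8 ∧ ∃ a, Sec a ∧ p = rot^[n] a := by
  obtain ⟨n, a, ha, hp⟩ := inOrb p
  refine ⟨n % 8, Nat.mod_lt _ (by norm_num), a, ha, ?_⟩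
  have : rot^[n] = rot^[n % 8] := by
    conv_lhs => rw [← Nat.mod_add_div n 8]
    rw [Function.iterate_add, Function.iterate_mul, rot8, Function.iterate_id, Function.comp_id]
  rw [hp, this]

theorem near_q {x y q : ℝ × ℝ} (h : Near x y) (hq : Mq q.1 q.2 = W) : W * dot q (y - x) ≤ 13/16 * W := by
  have h1 := h q
  rw [hq] at h1
  have hW := W_pos
  have h2 : (dot q (x-y))^2 ≤ (13/16)^2 := by
    by_contra hc
    push Not at hc
    nlinarith
  have h3 := abs_le.1 (abs_le_of_sq_le_sq h2 (by norm_num))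
  have e : dot q (y - x) = - dot q (x - y) := by simp [dot]; ring
  rw [e]
  nlinarith [h3.1]

theorem Mq_1t : Mq 1 t = W := by
  have ht := t_sq
  have h0 := t_gt
  rw [Mq_sec (by rw [abs_of_pos (by linarith)]; linarith)]
  unfold W; linear_combination 2*ht

theorem Mq_q2 : Mq (-t) 1 = W := by
  have := Mq_rot (rot (1,t))
  rw [rot_rot] at this
  rw [this, Mq_rot]
  exact Mq_1t

theorem Mq_q3 : Mq (-1) t = W := by
  rw [← Mq_neg, neg_neg, Mq_refl, Mq_1t]

theorem Mq_q4 : Mq (-1) (-t) = W := by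
  rw [Mq_neg, Mq_1t]

/-- statement for the sectors `0` and `j` -/
def G (j : ℕ) : Prop := ∀ a b : ℝ × ℝ, Sec a → Sec b → Claim a (rot^[j] b)

theorem Mq_small {U V : ℝ} (e3 : |U| * 8 ≤ |V| * (2*t - |V|)) (e4 : |V| ≤ 2*t) :
    Mq U V ≤ 32*t^2 := by
  have ht := t_sq
  have h0 := t_gt
  have h1 := t_lt
  obtain ⟨A, hA⟩ : ∃ A, A = |U| := ⟨_, rfl⟩
  obtain ⟨B, hB⟩ : ∃ B, B = |V| := ⟨_, rfl⟩
  have hA0 : 0 ≤ A := hA ▸ abs_nonneg _
  have hB0 : 0 ≤ B := hB ▸ abs_nonneg _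
  have hA2 : U^2 = A^2 := by rw [hA, sq_abs]
  have hB2 : V^2 = B^2 := by rw [hB, sq_abs]
  have hAB : |U*V| = A*B := by rw [hA, hB, abs_mul]
  have hAB1 := (abs_le.1 hAB.le)
  rw [← hA, ← hB] at e3
  rw [← hB] at e4
  have g1 : A*8 ≤ B*0.83 := by
    refine e3.trans ?_
    exact mul_le_mul_of_nonneg_left (by linarith) hB0
  have g2 : B^2 ≤ (2*t)^2 := pow_le_pow_left₀ hB0 e4 2
  have g3 : A*B ≤ B^2*(0.83/8) := by
    have := mul_le_mul_of_nonneg_right g1 hB0
    linarith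
  have g4 : A^2 ≤ B^2*(0.83/8)^2 := by
    have : A ≤ B*(0.83/8) := by linarith
    calc A^2 ≤ (B*(0.83/8))^2 := pow_le_pow_left₀ hA0 this 2
      _ = _ := by ring
  have hB20 := sq_nonneg B
  have g5 : 2*A^2 + 8*B^2 ≤ 32*t^2 := by
    have f1 : A^2*64 ≤ B^2*(2*t-B)^2 := by
      have := pow_le_pow_left₀ (by positivity) e3 2
      linarith
    have f2 : B^2*(2*t-B)^2 ≤ (2*t-B)*1 := by
      have e : B^2*(2*t-B)^2 = (2*t-B)*(B^2*(2*t-B)) := by ring
      rw [e]
      apply mul_le_mul_of_nonneg_left _ (by linarith)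
      have : B^2 ≤ 1 := by linarith
      have : B^2*(2*t-B) ≤ 1*1 := mul_le_mul this (by linarith) (by linarith) (by norm_num)
      linarith
    have f3 : (2*t-B)*0.8 ≤ (2*t-B)*(2*t+B) := by
      apply mul_le_mul_of_nonneg_left _ (by linarith)
      linarith
    linarith
  rw [Mq_le_iff, hA2, hB2]
  refine ⟨⟨?_, ?_⟩, ?_, ?_⟩
  · linarith
  · exact g5
  · have : 6*U*V = 6*(U*V) := by ring
    linarith
  · have : 6*U*V = 6*(U*V) := by ring
    linarith

theorem G0_aux {a b : ℝ × ℝ} (ha : Sec a) (hb : Sec b) (hMa : Mq a.1 a.2 = W)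
    (hMb : Mq b.1 b.2 = W) : Mq (a - b).1 (a - b).2 ≤ 32*t^2 := by
  obtain ⟨a1, a2, a3, a4⟩ := loc_basic hMa ha
  obtain ⟨b1, b2, b3, b4⟩ := loc_basic hMb hb
  simp only [Prod.fst_sub, Prod.snd_sub]
  obtain ⟨U, hU⟩ : ∃ U, U = a.1 - b.1 := ⟨_, rfl⟩
  obtain ⟨V, hV⟩ : ∃ V, V = a.2 - b.2 := ⟨_, rfl⟩
  rw [← hU, ← hV]
  have e1 : U*(4*(a.1+b.1)) = -(V*(a.2+b.2)) := by
    rw [hU, hV]; linear_combination (1/2)*a1 - (1/2)*b1
  have e2 : |a.2+b.2| ≤ 2*t - |V| := by
    rw [hV]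
    rcases abs_cases (a.2+b.2) with h | h <;> rcases abs_cases (a.2-b.2) with h' | h' <;>
      linarith [h.1, h'.1]
  have e4 : |V| ≤ 2*t := by have := (abs_nonneg (a.2+b.2)).trans e2; linarith
  refine Mq_small ?_ e4
  have f1 : |U| * (4*(a.1+b.1)) = |V| * |a.2+b.2| := by
    have : |U*(4*(a.1+b.1))| = |V*(a.2+b.2)| := by rw [e1, abs_neg]
    rw [abs_mul, abs_mul V, abs_of_nonneg (by linarith : 0 ≤ 4*(a.1+b.1))] at this
    exact this
  calc |U| * 8 ≤ |U| * (4*(a.1+b.1)) := mul_le_mul_of_nonneg_left (by linarith) (abs_nonneg _)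
    _ = |V| * |a.2+b.2| := f1
    _ ≤ |V| * (2*t - |V|) := mul_le_mul_of_nonneg_left e2 (abs_nonneg _)

theorem G0 : G 0 := by
  intro a b ha hb x y hx hy hn
  simp only [Function.iterate_zero, id] at *
  have ht := t_sq
  have h0 := t_gt
  have hW := W_pos
  have hWt : W = 8 + 2*t^2 := by unfold W; linarith
  have hn1 := hn (a - b)
  obtain ⟨F, hF⟩ : ∃ F, F = dot (a - b) (x - y) := ⟨_, rfl⟩
  rw [← hF] at hn1 ⊢
  have hM := G0_aux ha hb hx.hM hy.hM
  by_contra hc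
  push Not at hc
  have k1 : W*F^2 ≤ (13/16)^2*(32*t^2) := hn1.trans (mul_le_mul_of_nonneg_left hM (by norm_num))
  have k2 : (33/50:ℝ)^2 ≤ F^2 := pow_le_pow_left₀ (by norm_num) hc.le 2
  have k3 : W*(33/50)^2 ≤ W*F^2 := mul_le_mul_of_nonneg_left k2 hW.le
  rw [hWt] at k3 k1
  have : t^2 < 0.1716 := by linarith
  linarith

theorem rot_bot {a : ℝ × ℝ} (h1 : a.1 = 1) (h2 : a.2 = -t) : rot a = (1, t) := by
  have ht := t_sq
  ext
  · simp only [rot]; rw [h1, h2]; linear_combination (1/2)*ht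
  · simp only [rot]; rw [h1, h2]; linear_combination (-1/2)*ht

theorem roti_top {a : ℝ × ℝ} (h1 : a.1 = 1) (h2 : a.2 = t) : roti a = (1, -t) := by
  have ht := t_sq
  ext
  · simp only [roti]; rw [h1, h2]; linear_combination (1/2)*ht
  · simp only [roti]; rw [h1, h2]; linear_combination (1/2)*ht

theorem sec_top : Sec (1, t) := by
  have h0 := t_gt
  simp only [Sec]; rw [abs_of_pos (by linarith)]; linarith

theorem sec_bot : Sec (1, -t) := by
  have h0 := t_gt
  simp only [Sec]; rw [abs_neg, abs_of_pos (by linarith)]; linarith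

theorem one_of_v {a : ℝ × ℝ} (hM : Mq a.1 a.2 = W) (hs : Sec a) (h : a.2^2 = t^2) : a.1 = 1 := by
  obtain ⟨a1, a2, a3, a4⟩ := loc_basic hM hs
  have ht := t_sq
  rw [h] at a1
  unfold W at a1
  nlinarith

/-- reduction: in the step `j+1` we may assume that the functionals avoid the common corners -/
theorem G_step (j : ℕ) (hj : G j)
    (h : ∀ a b x y : ℝ × ℝ, Sec a → Sec b → Pr x a → Pr y b → ∀ mu la, Loc x a 0 mu →
      Loc y b la 0 → Near x (rot^[j+1] y) →
      dot (a - rot^[j+1] b) (x - rot^[j+1] y) ≤ 33/50) : G (j+1) := by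
  intro a b ha hb x y hx hy hn
  have key : ∀ n : ℕ, ∀ y b : ℝ × ℝ, Pr y (rot^[n] b) → ∃ y', Pr y' b ∧ y = rot^[n] y' := by
    intro n
    induction n with
    | zero => intro y b h; exact ⟨y, h, rfl⟩
    | succ n ih =>
      intro y b h
      rw [Function.iterate_succ_apply'] at h
      have h' := h.roti
      rw [roti_rot] at h'
      obtain ⟨y', h1, h2⟩ := ih _ _ h'
      exact ⟨y', h1, by rw [Function.iterate_succ_apply', ← h2, rot_roti]⟩
  by_cases hat : a.2 = t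
  · have ha1 := one_of_v hx.hM ha (by rw [hat])
    have e := roti_top ha1 hat
    have e2 : Claim a (rot^[j+1] b) := by
      have := (hj (roti a) b (by rw [e]; exact sec_bot) hb).rot
      rwa [rot_roti, ← Function.iterate_succ_apply' rot j b] at this
    exact e2 x y hx hy hn
  · obtain ⟨y', hy', rfl⟩ := key (j+1) y b hy
    by_cases hbt : b.2 = -t
    · have hb1 := one_of_v hy'.hM hb (by rw [hbt]; ring)
      have e := rot_bot hb1 hbt
      have e2 : Claim a (rot^[j+1] b) := by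
        have := hj a (rot b) ha (by rw [e]; exact sec_top)
        rwa [← Function.iterate_succ_apply rot j b] at this
      exact e2 _ _ hx hy hn
    · obtain ⟨la, mu, hl⟩ := loc hx ha
      obtain ⟨la', mu', hl'⟩ := loc hy' hb
      have h1 : la = 0 := by
        by_contra hc; exact hat (hl.hla hc)
      have h2 : mu' = 0 := by
        by_contra hc; exact hbt (hl'.hmu hc)
      subst h1; subst h2
      exact h a b x y' ha hb hx hy' mu la' hl hl' hn

theorem G1 : G 1 := by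
  apply G_step 0 G0
  intro a b x y ha hb hx hy mu la hl hl' hn
  simp only [Function.iterate_succ, Function.iterate_zero, Function.comp, id] at hn ⊢
  have ht := t_sq
  have h0 := t_gt
  have h1 := t_lt
  have hW := W_pos
  have k := near_q hn (q := (-t,1)) Mq_q2
  have mm := main_ineq t W a.1 a.2 b.1 b.2 mu la h0 h1 ht rfl hl.hq hl.hu hl.hv1 hl.hv2
    hl'.hq hl'.hu hl'.hv1 hl'.hv2 hl.mu0 hl'.la0 hl.hmu hl'.hla
  have d1 : W * dot (-t,1) (rot y - x)
      = 8*t*(a.1+b.1) + 2*(b.2-a.2) + 2*t*(mu+la) := by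
    simp only [dot, rot, Prod.fst_sub, Prod.snd_sub]
    have e1 := hl.hX
    have e2 := hl.hY
    have e3 := hl'.hX
    have e4 := hl'.hY
    linear_combination ((1+t)/2*(1-t))*e3 + ((1+t)/2*(1+t))*e4 + t*e1 - e2
      + (-(8*b.1-t*la)/2 + (2*b.2+la)/2 - mu - la)*ht
  rw [d1] at k
  have k2 := mm k
  have hpx := hx.hp
  have hpy := hy.hp
  have d2 : W * dot (a - rot b) (x - rot y) = 
      2*W - (1+t)/2*(16*a.1*b.1 + 4*a.2*b.2 - 10*(a.1*b.2 - b.1*a.2)) + la*(a.1 - t*a.2)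
        + mu*(b.1 + t*b.2) := by
    have e0 : dot (a - rot b) (x - rot y) = dot a x + dot (rot b) (rot y)
        - dot a (rot y) - dot (rot b) x := by
      simp only [dot, Prod.fst_sub, Prod.snd_sub]; ring
    have e1 := hl.hX
    have e2 := hl.hY
    have e3 := hl'.hX
    have e4 := hl'.hY
    rw [e0, dot_rot, hpx, hpy]
    simp only [dot, rot]
    linear_combination (-(a.1+a.2)*((1+t)/2))*e3 - ((a.2-a.1)*((1+t)/2))*e4
      - ((b.1-b.2)*((1+t)/2))*e1 - ((b.1+b.2)*((1+t)/2))*e2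
      + (la*(a.1+a.2)/2 + mu*(b.1-b.2)/2)*ht
  rw [← d2] at k2
  by_contra hc
  push Not at hc
  nlinarith

theorem G2 : G 2 := by
  apply G_step 1 G1
  intro a b x y ha hb hx hy mu la hl hl' hn
  simp only [Function.iterate_succ, Function.iterate_zero, Function.comp, id, rot_rot] at hn ⊢
  exfalso
  have ht := t_sq
  have h0 := t_gt
  have h1 := t_lt
  have k := near_q hn (q := (-t,1)) Mq_q2
  have e1 := hl.hX
  have e2 := hl.hY
  have e3 := hl'.hX
  have e4 := hl'.hY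
  have d1 : W * dot (-t,1) ((-y.2, y.1) - x)
      = (8*b.1 + 2*t*b.2) + (8*t*a.1 - 2*a.2 + 2*t*mu) := by
    simp only [dot, Prod.fst_sub, Prod.snd_sub]
    linear_combination t*e4 + e3 + t*e1 - e2 - mu*ht
  rw [d1] at k
  have := hl.hu
  have := hl.hv2
  have := hl'.hu
  have := hl'.hv1
  have := hl.mu0
  have e5 : W = 10 - 4*t := rfl
  have g1 : -t^2 ≤ t*b.2 := by nlinarith
  have g2 : t ≤ t*a.1 := by nlinarith
  have g3 : 0 ≤ t*mu := by positivity
  rw [e5] at k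
  linarith

theorem G3 : G 3 := by
  apply G_step 2 G2
  intro a b x y ha hb hx hy mu la hl hl' hn
  simp only [Function.iterate_succ, Function.iterate_zero, Function.comp, id, rot_rot] at hn ⊢
  exfalso
  have ht := t_sq
  have h0 := t_gt
  have h1 := t_lt
  have k := near_q hn (q := (-1,t)) Mq_q3
  have e1 := hl.hX
  have e2 := hl.hY
  have e3 := hl'.hX
  have e4 := hl'.hY
  have d1 : W * dot (-1,t) (rot (-y.2, y.1) - x)
      = (8*b.1 + 2*t*b.2) + (8*a.1 - 2*t*a.2) := by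
    simp only [dot, rot, Prod.fst_sub, Prod.snd_sub]
    linear_combination ((1+t)/2*(1+t))*e3 + ((1+t)/2*(1-t))*e4 + e1 - t*e2
      + ((8*b.1-t*la)/2 - (2*b.2+la)/2)*ht
  rw [d1] at k
  have := hl.hu
  have := hl.hv2
  have := hl'.hu
  have := hl'.hv1
  have := hl.mu0
  have e5 : W = 10 - 4*t := rfl
  have g1 : -t^2 ≤ t*b.2 := by nlinarith
  have g2 : t*a.2 ≤ t^2 := by nlinarith
  rw [e5] at k
  linarith

theorem G4 : G 4 := by
  apply G_step 3 G3
  intro a b x y ha hb hx hy mu la hl hl' hn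
  simp only [Function.iterate_succ, Function.iterate_zero, Function.comp, id, rot_rot] at hn ⊢
  exfalso
  have ht := t_sq
  have h0 := t_gt
  have h1 := t_lt
  have k := near_q hn (q := (-1,-t)) Mq_q4
  have e1 := hl.hX
  have e2 := hl.hY
  have e3 := hl'.hX
  have e4 := hl'.hY
  have d1 : W * dot (-1,-t) ((-y.1, -y.2) - x)
      = (8*b.1 + 2*t*b.2) + (8*a.1 + 2*t*a.2 - 2*t*mu) := by
    simp only [dot, Prod.fst_sub, Prod.snd_sub]
    linear_combination e3 + t*e4 + e1 + t*e2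
  rw [d1] at k
  have := hl.hu
  have := hl.hv1
  have := hl'.hu
  have := hl'.hv1
  have := hl.mu0
  have := hl.mu1
  have e5 : W = 10 - 4*t := rfl
  have g1 : -t^2 ≤ t*b.2 := by nlinarith
  have g2 : -t^2 ≤ t*a.2 := by nlinarith
  have g3 : t*mu ≤ t*(3*(1+t)) := by nlinarith
  rw [e5] at k
  nlinarith

theorem claim_iter {p q : ℝ × ℝ} (h : Claim p q) (n : ℕ) : Claim (rot^[n] p) (rot^[n] q) := by
  induction n with
  | zero => exact h
  | succ n ih => rw [Function.iterate_succ_apply', Function.iterate_succ_apply']; exact ih.rot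

theorem claim_of_iter {p q : ℝ × ℝ} (n : ℕ) (h : Claim (rot^[n] p) (rot^[n] q)) : Claim p q := by
  induction n with
  | zero => exact h
  | succ n ih =>
    rw [Function.iterate_succ_apply', Function.iterate_succ_apply'] at h
    exact ih h.of_rot

theorem claim_lt8 (j : ℕ) (hj : j < 8) (a b : ℝ × ℝ) (ha : Sec a) (hb : Sec b) :
    Claim a (rot^[j] b) := by
  rcases Nat.lt_or_ge 4 j with h | h
  · apply claim_of_iter (8-j)
    rw [← Function.iterate_add_apply, show 8 - j + j = 8 by omega, rot8]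
    apply Claim.symm
    simp only [id]
    have h3 : 8 - j ≤ 3 := by omega
    have : ∀ k, k ≤ 3 → Claim b (rot^[k] a) := by
      intro k hk
      interval_cases k
      · exact G0 b a hb ha
      · exact G1 b a hb ha
      · exact G2 b a hb ha
      · exact G3 b a hb ha
    exact this _ h3
  · interval_cases j
    · exact G0 a b ha hb
    · exact G1 a b ha hb
    · exact G2 a b ha hb
    · exact G3 a b ha hb
    · exact G4 a b ha hb

theorem claim_le (n m : ℕ) (h : n ≤ m) (hm : m < 8) (a b : ℝ × ℝ) (ha : Sec a) (hb : Sec b) :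
    Claim (rot^[n] a) (rot^[m] b) := by
  have := claim_iter (claim_lt8 (m-n) (by omega) a b ha hb) n
  rwa [← Function.iterate_add_apply, show n + (m - n) = m by omega] at this

theorem claim_all (p q : ℝ × ℝ) : Claim p q := by
  obtain ⟨n, hn, a, ha, rfl⟩ := inOrb8 p
  obtain ⟨m, hm, b, hb, rfl⟩ := inOrb8 q
  rcases le_total n m with h | h
  · exact claim_le n m h hm a b ha hb
  · exact (claim_le m n h hn b a hb ha).symm

/-! ### The normed space -/

/-- the plane with the dual norm -/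
def Y : Type := ℝ × ℝ

noncomputable instance : AddCommGroup Y := inferInstanceAs (AddCommGroup (ℝ × ℝ))
noncomputable instance : Module ℝ Y := inferInstanceAs (Module ℝ (ℝ × ℝ))
instance : Module.Finite ℝ Y := inferInstanceAs (Module.Finite ℝ (ℝ × ℝ))

noncomputable def embFun (p : Y) : Fin 4 → EuclideanSpace ℝ (Fin 2) :=
  ![!₂[2*p.1 + p.2, 2*p.1 - p.2], !₂[p.1 + 2*p.2, p.1 - 2*p.2],
    !₂[2*(p.1+p.2), p.1 - p.2], !₂[2*(p.1-p.2), p.1 + p.2]]

noncomputable def emb : Y →ₗ[ℝ] (Fin 4 → EuclideanSpace ℝ (Fin 2)) where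
  toFun := embFun
  map_add' p q := by
    have h1 : (p+q).1 = p.1 + q.1 := rfl
    have h2 : (p+q).2 = p.2 + q.2 := rfl
    funext i
    ext j
    fin_cases i <;> fin_cases j <;> simp [embFun, h1, h2] <;> ring
  map_smul' c p := by
    have h1 : (c • p).1 = c * p.1 := rfl
    have h2 : (c • p).2 = c * p.2 := rfl
    funext i
    ext j
    fin_cases i <;> fin_cases j <;> simp [embFun, h1, h2] <;> ring

theorem emb_inj : Function.Injective emb := by
  intro p q h
  have h0 := congrFun h 0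
  have h1 : 2*p.1 + p.2 = 2*q.1+q.2 := by
    have := congrArg (fun f => f 0) h0
    simpa [emb, embFun] using this
  have h2 : 2*p.1 - p.2 = 2*q.1-q.2 := by
    have := congrArg (fun f => f 1) h0
    simpa [emb, embFun] using this
  exact Prod.ext (by linarith) (by linarith)

noncomputable instance : NormedAddCommGroup Y :=
  NormedAddCommGroup.induced Y (Fin 4 → EuclideanSpace ℝ (Fin 2)) emb emb_inj

noncomputable instance : NormedSpace ℝ Y :=
  NormedSpace.induced ℝ Y (Fin 4 → EuclideanSpace ℝ (Fin 2)) emb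

theorem norm_Y (p : Y) : ‖p‖ = ‖embFun p‖ := rfl

theorem norm_sq_Y (p : Y) : ‖p‖^2 = Mq p.1 p.2 := by
  have e : ∀ c : ℝ, 0 ≤ c → (‖p‖ ≤ c ↔ Mq p.1 p.2 ≤ c^2) := by
    intro c hc
    rw [norm_Y, pi_norm_le_iff_of_nonneg hc]
    have key : ∀ i, ‖embFun p i‖ ≤ c ↔ ‖embFun p i‖^2 ≤ c^2 := fun i =>
      (sq_le_sq₀ (norm_nonneg _) hc).symm
    simp only [key]
    rw [Mq_le_iff]
    rw [Fin.forall_fin_succ, Fin.forall_fin_succ, Fin.forall_fin_succ, Fin.forall_fin_one]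
    simp only [EuclideanSpace.norm_sq_eq, Fin.sum_univ_two]
    simp only [embFun, PiLp.toLp_apply, Matrix.cons_val_zero, Matrix.cons_val_one, Real.norm_eq_abs,
      sq_abs]
    simp [mul_pow, sq_abs]
    constructor
    · rintro ⟨h1, h2, h3, h4⟩
      exact ⟨⟨by linarith, by linarith⟩, by linarith, by linarith⟩
    · rintro ⟨⟨h1, h2⟩, h3, h4⟩
      exact ⟨by linarith, by linarith, by linarith, by linarith⟩
  apply le_antisymm
  · have h0 : 0 ≤ Mq p.1 p.2 := by
      unfold Mq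
      exact le_trans (by positivity) ((le_max_left (8*p.1^2+2*p.2^2) (2*p.1^2+8*p.2^2)).trans
        (le_max_left _ _))
    have h1 := (e (Real.sqrt (Mq p.1 p.2)) (Real.sqrt_nonneg _)).2 (by rw [Real.sq_sqrt h0])
    calc ‖p‖^2 ≤ (Real.sqrt (Mq p.1 p.2))^2 := pow_le_pow_left₀ (norm_nonneg _) h1 2
      _ = _ := Real.sq_sqrt h0
  · exact (e ‖p‖ (norm_nonneg _)).1 le_rfl

theorem finrank_Y : Module.finrank ℝ Y = 2 := by
  have : Module.finrank ℝ (ℝ × ℝ) = 2 := by simp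
  exact this

theorem finrank_dual : Module.finrank ℝ (StrongDual ℝ Y) = 2 := by
  rw [← LinearEquiv.finrank_eq (LinearMap.toContinuousLinearMap : (Y →ₗ[ℝ] ℝ) ≃ₗ[ℝ] Y →L[ℝ] ℝ),
    Module.finrank_linearMap, finrank_Y, Module.finrank_self]

instance : FiniteDimensional ℝ (StrongDual ℝ Y) :=
  FiniteDimensional.of_finrank_pos (by rw [finrank_dual]; norm_num)

theorem finrank_bidual : Module.finrank ℝ (StrongDual ℝ (StrongDual ℝ Y)) = 2 := by
  rw [← LinearEquiv.finrank_eq (LinearMap.toContinuousLinearMap :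
    ((StrongDual ℝ Y) →ₗ[ℝ] ℝ) ≃ₗ[ℝ] (StrongDual ℝ Y) →L[ℝ] ℝ),
    Module.finrank_linearMap, finrank_dual, Module.finrank_self]

instance : FiniteDimensional ℝ (StrongDual ℝ (StrongDual ℝ Y)) :=
  FiniteDimensional.of_finrank_pos (by rw [finrank_bidual]; norm_num)

theorem eval_surj (P : StrongDual ℝ (StrongDual ℝ Y)) :
    ∃ p : Y, ‖p‖ = ‖P‖ ∧ ∀ x : StrongDual ℝ Y, P x = x p := by
  let L := NormedSpace.inclusionInDoubleDualLi ℝ (E := Y)
  have hs : Function.Surjective L.toLinearMap :=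
    (LinearMap.injective_iff_surjective_of_finrank_eq_finrank
      (by rw [finrank_Y, finrank_bidual])).1 L.injective
  obtain ⟨p, hp⟩ := hs P
  refine ⟨p, ?_, ?_⟩
  · rw [← hp]; exact (L.norm_map p).symm
  · intro x
    rw [← hp]; rfl

/-- a pair of numbers as an element of `Y` -/
def toY (a : ℝ × ℝ) : Y := a

/-- coordinates of a functional on `Y` -/
noncomputable def co (x : StrongDual ℝ Y) : ℝ × ℝ := (x (toY (1, 0)), x (toY (0, 1)))

theorem apply_eq (x : StrongDual ℝ Y) (p : Y) : x p = dot p (co x) := by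
  have h : p = p.1 • toY (1, 0) + p.2 • toY (0, 1) := by
    refine Prod.ext ?_ ?_
    · show p.1 = p.1 * 1 + p.2 * 0
      ring
    · show p.2 = p.1 * 0 + p.2 * 1
      ring
  have h2 : x (p.1 • toY (1, 0) + p.2 • toY (0, 1)) = p.1 * x (toY (1, 0)) + p.2 * x (toY (0, 1)) := by
    rw [map_add, map_smul, map_smul]; rfl
  calc x p = x (p.1 • toY (1, 0) + p.2 • toY (0, 1)) := congrArg x h
    _ = p.1 * x (toY (1, 0)) + p.2 * x (toY (0, 1)) := h2
    _ = dot p (co x) := rfl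

theorem co_sub (x y : StrongDual ℝ Y) : co (x - y) = co x - co y := rfl

theorem dot_sq_le (x : StrongDual ℝ Y) (q : ℝ × ℝ) : (dot q (co x))^2 ≤ ‖x‖^2 * Mq q.1 q.2 := by
  have h1 : ‖x (toY q)‖ ≤ ‖x‖ * ‖toY q‖ := x.le_opNorm _
  have h2 := pow_le_pow_left₀ (norm_nonneg _) h1 2
  rw [mul_pow, norm_sq_Y, Real.norm_eq_abs, sq_abs, apply_eq] at h2
  exact h2

theorem bound (x y : StrongDual ℝ Y) (P Q : StrongDual ℝ (StrongDual ℝ Y)) (hx : ‖x‖ = 1)
    (hy : ‖y‖ = 1) (hxy : ‖x - y‖ = 13/16) (hP1 : ‖P‖ = 1) (hP2 : P x = ‖x‖) (hQ1 : ‖Q‖ = 1)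
    (hQ2 : Q y = ‖y‖) : (P - Q) (x - y) ≤ 33/50 := by
  obtain ⟨p, hp1, hp2⟩ := eval_surj P
  obtain ⟨q, hq1, hq2⟩ := eval_surj Q
  have hW := W_pos
  obtain ⟨w, hw⟩ : ∃ w, w = Real.sqrt W := ⟨_, rfl⟩
  have hw0 : 0 < w := by rw [hw]; exact Real.sqrt_pos.2 hW
  have hww : w^2 = W := by rw [hw]; exact Real.sq_sqrt hW.le
  have hscale : ∀ a : ℝ × ℝ, Mq (w*a.1) (w*a.2) = W * Mq a.1 a.2 := by
    intro a
    unfold Mq
    rw [mul_max_of_nonneg _ _ hW.le, mul_max_of_nonneg _ _ hW.le, mul_max_of_nonneg _ _ hW.le,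
      ← hww]
    congr 2 <;> ring
  have mkPr : ∀ (z : StrongDual ℝ Y) (a : Y), ‖z‖ = 1 → ‖a‖ = 1 → z a = 1 →
      Pr ((co z).1/w, (co z).2/w) (w*a.1, w*a.2) := by
    intro z a hz ha hza
    refine ⟨?_, ?_, ?_⟩
    · simp only
      rw [hscale a, ← norm_sq_Y a, ha]; ring
    · rw [← hza, apply_eq]
      simp only [dot]
      field_simp
    · intro b
      have h1 := dot_sq_le z b
      rw [hz, one_pow, one_mul] at h1
      refine le_trans (le_of_eq ?_) h1
      rw [← hww]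
      simp only [dot]
      field_simp
  have prx := mkPr x p hx (by rw [hp1, hP1]) (by rw [← hp2, hP2, hx])
  have pry := mkPr y q hy (by rw [hq1, hQ1]) (by rw [← hq2, hQ2, hy])
  have hn : Near ((co x).1/w, (co x).2/w) ((co y).1/w, (co y).2/w) := by
    intro b
    have h1 := dot_sq_le (x - y) b
    rw [hxy, co_sub] at h1
    refine le_trans (le_of_eq ?_) h1
    rw [← hww]
    simp only [dot, Prod.fst_sub, Prod.snd_sub]
    field_simp
  have h2 := claim_all _ _ _ _ prx pry hn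
  have e : (P - Q) (x - y) = dot ((w*p.1, w*p.2) - (w*q.1, w*q.2) : ℝ × ℝ)
      (((co x).1/w, (co x).2/w) - ((co y).1/w, (co y).2/w) : ℝ × ℝ) := by
    have e1 : (P - Q) (x - y) = P (x - y) - Q (x - y) := rfl
    rw [e1, hp2, hq2, apply_eq, apply_eq, co_sub]
    simp only [dot, Prod.fst_sub, Prod.snd_sub]
    field_simp
    ring
  rw [e]
  exact h2

theorem exists_pair : ∃ x y : StrongDual ℝ Y, ∃ P Q : StrongDual ℝ (StrongDual ℝ Y), ‖x‖ = 1 ∧
    ‖y‖ = 1 ∧ ‖x - y‖ = 13/16 ∧ ‖P‖ = 1 ∧ P x = ‖x‖ ∧ ‖Q‖ = 1 ∧ Q y = ‖y‖ := by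
  have hrank : 1 < Module.rank ℝ (StrongDual ℝ Y) := by
    rw [← Module.finrank_eq_rank, finrank_dual]
    exact_mod_cast (by norm_num : 1 < 2)
  have hnt : Nontrivial (StrongDual ℝ Y) :=
    Module.nontrivial_of_finrank_pos (R := ℝ) (by rw [finrank_dual]; norm_num)
  obtain ⟨x, hx⟩ : ∃ x : StrongDual ℝ Y, ‖x‖ = 1 := exists_norm_eq (StrongDual ℝ Y) zero_le_one
  have hpre : IsPreconnected (Metric.sphere (0 : StrongDual ℝ Y) 1) :=
    isPreconnected_sphere hrank 0 1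
  have hxm : x ∈ Metric.sphere (0 : StrongDual ℝ Y) 1 := by simp [hx]
  have hxm' : -x ∈ Metric.sphere (0 : StrongDual ℝ Y) 1 := by simp [hx]
  have hcont : ContinuousOn (fun y : StrongDual ℝ Y => ‖x - y‖) (Metric.sphere 0 1) := by
    fun_prop
  have hI := hpre.intermediate_value hxm hxm' hcont
  have hmem : (13/16 : ℝ) ∈ Set.Icc (‖x - x‖) (‖x - -x‖) := by
    rw [sub_self, norm_zero, sub_neg_eq_add, ← two_smul ℝ x, norm_smul, hx]
    norm_num
  obtain ⟨y, hy, hxy⟩ := hI hmem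
  have hy1 : ‖y‖ = 1 := by simpa using hy
  have hx0 : x ≠ 0 := by rw [← norm_ne_zero_iff, hx]; norm_num
  have hy0 : y ≠ 0 := by rw [← norm_ne_zero_iff, hy1]; norm_num
  obtain ⟨P, hP1, hP2⟩ := exists_dual_vector ℝ x (norm_ne_zero_iff.2 hx0)
  obtain ⟨Q, hQ1, hQ2⟩ := exists_dual_vector ℝ y (norm_ne_zero_iff.2 hy0)
  exact ⟨x, y, P, Q, hx, hy1, hxy, hP1, by simpa using hP2, hQ1, by simpa using hQ2⟩

/-- Main theorem: the two-dimensional space, the bound and the existence of pairs. -/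
theorem main : ∃ (X : Type) (_ : NormedAddCommGroup X) (_ : NormedSpace ℝ X),
    Module.finrank ℝ X = 2 ∧ CompleteSpace X ∧
    (∀ (x y : X) (P Q : StrongDual ℝ X), ‖x‖ = 1 → ‖y‖ = 1 → ‖x - y‖ = 13/16 → ‖P‖ = 1 →
      P x = ‖x‖ → ‖Q‖ = 1 → Q y = ‖y‖ → (P - Q) (x - y) ≤ 33/50) ∧
    (∃ x y : X, ∃ P Q : StrongDual ℝ X, ‖x‖ = 1 ∧ ‖y‖ = 1 ∧ ‖x - y‖ = 13/16 ∧ ‖P‖ = 1 ∧
      P x = ‖x‖ ∧ ‖Q‖ = 1 ∧ Q y = ‖y‖) :=
  ⟨StrongDual ℝ Y, inferInstance, inferInstance, finrank_dual, inferInstance, bound, exists_pair⟩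

end Pool.Agent.H48.DayNordlander
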