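import Mathlib

/-!
A bilateral weighted backward shift on `c₀(ℤ)` which has property `A` and no nonzero
U-frequently recurrent vector.

`(T x) i = 2 ^ (phi (i+1) - phi i) * x (i+1)`, where `phi i = i` for `0 ≤ i` and `phi (-k) = h k`
for `0 ≤ k`, with `h k` the supremum over `i` and `t ≥ 1` of `2 ^ i - |k - t * 8 ^ i|`.

* Property `A`: `phi` is large near all nonzero multiples of `8 ^ j`, so a vector made of copies
  of a given vector, placed at the positive multiples of `8 ^ j`, returns along these multiples.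
* If `x s ≠ 0`, `A` is the set of times of return of `x` to the ball of radius `|x s| / 2` and
  `B` the set of times of return to a small ball, then `m - n - s` is close to a
  positive multiple of a high power of eight for all `n ∈ A` and `m ∈ B` with `m - n` large.
  Counting shows that `A` and `B` cannot both have positive upper density.
-/

set_option autoImplicit false

open Filter Topology
open scoped ZeroAtInfty

namespace Pool.Agent.H48.PropertyA

/-- heights of the tents over positive multiples of powers of eight -/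
def tentSet (k : ℤ) : Set ℕ := {c | ∃ i t : ℕ, 1 ≤ t ∧ (c : ℤ) + |k - t * 8 ^ i| ≤ 2 ^ i}

noncomputable def h (k : ℤ) : ℕ := sSup (tentSet k)

theorem two_le_eight (i : ℕ) : (2 : ℤ) ^ i ≤ 8 ^ i := pow_le_pow_left₀ (by norm_num) (by norm_num) i

theorem mem_le {k : ℤ} (hk : 0 ≤ k) {c : ℕ} (hc : c ∈ tentSet k) : (c : ℤ) ≤ k := by
  obtain ⟨i, t, ht, hc⟩ := hc
  have h28 := two_le_eight i
  have ht' : (1 : ℤ) ≤ t := by exact_mod_cast ht
  have h8 : (0 : ℤ) < 8 ^ i := by positivity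
  have h1 : (8 : ℤ) ^ i ≤ t * 8 ^ i := by nlinarith
  have h2 := abs_nonneg (k - t * 8 ^ i)
  have h3 := neg_abs_le (k - t * 8 ^ i)
  rcases le_total ((t : ℤ) * 8 ^ i) k with h | h <;> linarith

theorem bdd {k : ℤ} (hk : 0 ≤ k) : BddAbove (tentSet k) := by
  refine ⟨k.toNat, fun c hc => ?_⟩
  have := mem_le hk hc
  omega

theorem le_h {k : ℤ} (hk : 0 ≤ k) {c i t : ℕ} (ht : 1 ≤ t)
    (hc : (c : ℤ) + |k - t * 8 ^ i| ≤ 2 ^ i) : c ≤ h k :=
  le_csSup (bdd hk) ⟨i, t, ht, hc⟩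

theorem exists_of_h_pos {k : ℤ} (hk : 0 ≤ k) (hp : 0 < h k) :
    ∃ i t : ℕ, 1 ≤ t ∧ (h k : ℤ) + |k - t * 8 ^ i| ≤ 2 ^ i := by
  have hne : (tentSet k).Nonempty := by
    by_contra hc
    rw [Set.not_nonempty_iff_eq_empty] at hc
    unfold h at hp
    rw [hc] at hp
    simp at hp
  exact Nat.sSup_mem hne (bdd hk)

theorem h_le {k : ℤ} (hk : 0 ≤ k) : (h k : ℤ) ≤ k := by
  rcases Nat.eq_zero_or_pos (h k) with h0 | h0
  · rw [h0]; exact_mod_cast hk
  · exact mem_le hk (exists_of_h_pos hk h0)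

theorem h_succ {k : ℤ} (hk : 0 ≤ k) : h k ≤ h (k + 1) + 1 := by
  rcases Nat.eq_zero_or_pos (h k) with h0 | h0
  · omega
  · obtain ⟨i, t, ht, hc⟩ := exists_of_h_pos hk h0
    have : h k - 1 ≤ h (k + 1) := by
      apply le_h (by omega) ht
      have h1 : |k + 1 - t * 8 ^ i| ≤ |k - t * 8 ^ i| + 1 := by
        have e : k + 1 - t * 8 ^ i = (k - t * 8 ^ i) + 1 := by ring
        rw [e]
        exact (abs_add_le _ _).trans (by simp)
      have h2 : ((h k - 1 : ℕ) : ℤ) = (h k : ℤ) - 1 := by omega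
      rw [h2]; linarith
    omega

theorem h_neg {k : ℤ} (hk : k < 0) : h k = 0 := by
  have : tentSet k = ∅ := by
    rw [Set.eq_empty_iff_forall_notMem]
    rintro c ⟨i, t, ht, hc⟩
    have h28 := two_le_eight i
    have ht' : (1 : ℤ) ≤ t := by exact_mod_cast ht
    have h8 : (0 : ℤ) < 8 ^ i := by positivity
    have h1 : (8 : ℤ) ^ i ≤ t * 8 ^ i := by nlinarith
    have h3 := neg_abs_le (k - t * 8 ^ i)
    have : (0 : ℤ) ≤ c := by positivity
    linarith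
  unfold h; rw [this]; simp

theorem h_zero : h 0 = 0 := by
  have := h_le (le_refl 0)
  omega

/-- the exponent function -/
noncomputable def phi (i : ℤ) : ℤ := max i 0 + h (-i)

theorem phi_of_nonneg {i : ℤ} (hi : 0 ≤ i) : phi i = i := by
  unfold phi
  rcases hi.eq_or_lt with h0 | h0
  · rw [← h0]; simp [h_zero]
  · rw [h_neg (by omega), max_eq_left hi]; simp

theorem phi_of_neg {i : ℤ} (hi : i < 0) : phi i = h (-i) := by
  unfold phi
  rw [max_eq_right hi.le]; simp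

theorem phi_nonneg (i : ℤ) : 0 ≤ phi i := by
  unfold phi
  have : 0 ≤ max i 0 := le_max_right _ _
  positivity

theorem phi_succ (i : ℤ) : phi (i + 1) - phi i ≤ 1 := by
  rcases lt_or_ge i 0 with hi | hi
  · rcases lt_or_ge (i + 1) 0 with hi' | hi'
    · rw [phi_of_neg hi, phi_of_neg hi']
      have := h_succ (k := -(i + 1)) (by omega)
      have e : -(i + 1) + 1 = -i := by ring
      rw [e] at this
      omega
    · have : i + 1 = 0 := by omega
      rw [this, phi_of_nonneg le_rfl]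
      have := phi_nonneg i
      omega
  · rw [phi_of_nonneg hi, phi_of_nonneg (by omega)]; omega

theorem phi_le_abs (i : ℤ) : phi i ≤ |i| := by
  rcases lt_or_ge i 0 with hi | hi
  · rw [phi_of_neg hi, abs_of_neg hi]; exact h_le (by omega)
  · rw [phi_of_nonneg hi, abs_of_nonneg hi]

/-- `phi` is large near the nonzero multiples of `8 ^ j`. -/
theorem phi_near {j : ℕ} {t s p : ℤ} (ht : t ≠ 0) (hs : |s| ≤ p) (hp : p ≤ 2 ^ j) :
    2 ^ j - p ≤ phi (8 ^ j * t + s) := by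
  have h28 := two_le_eight j
  have hs' := abs_le.1 hs
  have h8 : (0 : ℤ) < 8 ^ j := by positivity
  rcases lt_or_gt_of_ne ht with h1 | h1
  · -- negative side
    have h2 : 8 ^ j * t ≤ -(8 ^ j) := by nlinarith
    rcases lt_or_ge (8 ^ j * t + s) 0 with h3 | h3
    · rw [phi_of_neg h3]
      have h4 : (2 ^ j - p).toNat ≤ h (-(8 ^ j * t + s)) := by
        apply le_h (t := (-t).toNat) (i := j) (by omega) (by omega)
        have e1 : (((-t).toNat : ℕ) : ℤ) = -t := by omega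
        have e2 : (((2 ^ j - p).toNat : ℕ) : ℤ) = 2 ^ j - p := Int.toNat_of_nonneg (by linarith)
        rw [e1, e2]
        have e3 : -(8 ^ j * t + s) - -t * 8 ^ j = -s := by ring
        rw [e3, abs_neg]
        linarith
      have e2 : (((2 ^ j - p).toNat : ℕ) : ℤ) = 2 ^ j - p := Int.toNat_of_nonneg (by linarith)
      rw [← e2]
      exact_mod_cast h4
    · have := phi_nonneg (8 ^ j * t + s)
      linarith
  · have h2 : (8 : ℤ) ^ j ≤ 8 ^ j * t := by nlinarith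
    rw [phi_of_nonneg (by linarith)]
    linarith

/-- the sequence space -/
abbrev E : Type := C₀(ℤ, ℂ)

theorem tendsto_cofinite (f : E) : Tendsto f cofinite (𝓝 0) := by
  rw [← cocompact_eq_cofinite ℤ]
  exact f.zero_at_infty'

theorem norm_apply_le (f : E) (i : ℤ) : ‖f i‖ ≤ ‖f‖ := by
  rw [← ZeroAtInftyContinuousMap.norm_toBCF_eq_norm]
  exact f.toBCF.norm_coe_le_norm i

theorem norm_le {f : E} {C : ℝ} (hC : 0 ≤ C) (hf : ∀ i, ‖f i‖ ≤ C) : ‖f‖ ≤ C := by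
  rw [← ZeroAtInftyContinuousMap.norm_toBCF_eq_norm]
  exact (BoundedContinuousFunction.norm_le hC).2 hf

/-- a function on the integers which tends to zero, as an element of the space -/
def mkE (f : ℤ → ℂ) (hf : Tendsto f cofinite (𝓝 0)) : E where
  toFun := f
  continuous_toFun := continuous_of_discreteTopology
  zero_at_infty' := by rw [cocompact_eq_cofinite ℤ]; exact hf

@[simp] theorem mkE_apply (f : ℤ → ℂ) (hf : Tendsto f cofinite (𝓝 0)) (i : ℤ) :
    mkE f hf i = f i := rfl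

theorem norm_wt (a : ℤ) : ‖(2 : ℂ) ^ a‖ = (2 : ℝ) ^ a := by
  rw [norm_zpow]; simp

theorem wt_le (i : ℤ) : (2 : ℝ) ^ (phi (i + 1) - phi i) ≤ 2 := by
  have := zpow_le_zpow_right₀ (by norm_num : (1 : ℝ) ≤ 2) (phi_succ i)
  simpa using this

noncomputable def Tfun (f : E) : E :=
  mkE (fun i => (2 : ℂ) ^ (phi (i + 1) - phi i) * f (i + 1)) (by
    have h1 : Tendsto (fun i : ℤ => i + 1) cofinite cofinite :=
      (add_left_injective (1 : ℤ)).tendsto_cofinite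
    have h2 : Tendsto (fun i : ℤ => f (i + 1)) cofinite (𝓝 0) := (tendsto_cofinite f).comp h1
    have h3 : Tendsto (fun i : ℤ => 2 * ‖f (i + 1)‖) cofinite (𝓝 0) := by
      have := (h2.norm).const_mul 2
      simpa using this
    refine squeeze_zero_norm (fun i => ?_) h3
    rw [norm_mul, norm_wt]
    exact mul_le_mul_of_nonneg_right (wt_le i) (norm_nonneg _))

theorem Tfun_apply (f : E) (i : ℤ) :
    Tfun f i = (2 : ℂ) ^ (phi (i + 1) - phi i) * f (i + 1) := rfl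

noncomputable def Tlin : E →ₗ[ℂ] E where
  toFun := Tfun
  map_add' f g := by
    ext i
    simp only [Tfun_apply, ZeroAtInftyContinuousMap.add_apply]; ring
  map_smul' c f := by
    ext i
    simp only [Tfun_apply, ZeroAtInftyContinuousMap.smul_apply, smul_eq_mul, RingHom.id_apply]; ring

noncomputable def T : E →L[ℂ] E := Tlin.mkContinuous 2 (fun f => by
  apply norm_le (by positivity)
  intro i
  show ‖Tfun f i‖ ≤ 2 * ‖f‖
  rw [Tfun_apply, norm_mul, norm_wt]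
  exact mul_le_mul (wt_le i) (norm_apply_le f _) (norm_nonneg _) (by norm_num))

theorem T_apply (f : E) (i : ℤ) :
    T f i = (2 : ℂ) ^ (phi (i + 1) - phi i) * f (i + 1) := rfl

theorem T_pow_apply (n : ℕ) (f : E) (i : ℤ) :
    (T ^ n) f i = (2 : ℂ) ^ (phi (i + n) - phi i) * f (i + n) := by
  induction n generalizing i with
  | zero => simp
  | succ n ih =>
    rw [pow_succ', mul_apply_eq_comp, T_apply, ih, ← mul_assoc,
      ← zpow_add₀ (by norm_num : (2 : ℂ) ≠ 0)]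
    have e1 : i + 1 + (n : ℤ) = i + ((n + 1 : ℕ) : ℤ) := by push_cast; ring
    rw [e1]
    congr 2
    ring

/-- The test vector. -/
noncomputable def testFun (u : E) (p : ℤ) (q : ℕ) (i : ℤ) : ℂ :=
  if |Int.bmod i q| ≤ p ∧ (q : ℤ) ≤ i - Int.bmod i q then
    (2 : ℂ) ^ (phi (Int.bmod i q) - phi i) * u (Int.bmod i q) else 0

theorem testFun_tendsto (u : E) {p : ℤ} {q : ℕ} (hp : 0 ≤ p) (hpq : p < q) :
    Tendsto (testFun u p q) cofinite (𝓝 0) := by
  rw [Int.cofinite_eq, tendsto_sup]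
  constructor
  · apply tendsto_const_nhds.congr'
    filter_upwards [eventually_lt_atBot (0 : ℤ)] with i hi
    unfold testFun
    rw [if_neg]
    rintro ⟨h1, h2⟩
    have := (abs_le.1 h1).1
    omega
  · have h1 : ∀ i : ℤ, 0 ≤ i → ‖testFun u p q i‖ ≤ (2 : ℝ) ^ p * ‖u‖ * (1 / 2) ^ i.toNat := by
      intro i hi
      unfold testFun
      split_ifs with h
      · rw [norm_mul, norm_wt]
        have e : (2 : ℝ) ^ p * ‖u‖ * (1 / 2) ^ i.toNat = (2 : ℝ) ^ (p - i) * ‖u‖ := by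
          rw [zpow_sub₀ (by norm_num : (2 : ℝ) ≠ 0)]
          have : (2 : ℝ) ^ i = 2 ^ i.toNat := by
            conv_lhs => rw [← Int.toNat_of_nonneg hi]
            exact zpow_natCast _ _
          rw [this, one_div, inv_pow]
          field_simp
        rw [e]
        have h3 : phi (Int.bmod i q) - phi i ≤ p - i := by
          rw [phi_of_nonneg hi]
          have := phi_le_abs (Int.bmod i q)
          linarith [h.1]
        exact mul_le_mul (zpow_le_zpow_right₀ (by norm_num) h3) (norm_apply_le u _) (norm_nonneg _)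
          (by positivity)
      · simp; positivity
    have h2 : Tendsto (fun i : ℤ => (2 : ℝ) ^ p * ‖u‖ * (1 / 2) ^ i.toNat) atTop (𝓝 0) := by
      have h3 : Tendsto (fun i : ℤ => i.toNat) atTop atTop := by
        apply tendsto_atTop.2
        intro b
        filter_upwards [eventually_ge_atTop (b : ℤ)] with i hi
        omega
      have h4 := (tendsto_pow_atTop_nhds_zero_of_lt_one (by norm_num : (0 : ℝ) ≤ 1 / 2)
        (by norm_num)).comp h3
      have := h4.const_mul ((2 : ℝ) ^ p * ‖u‖)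
      simpa using this
    refine squeeze_zero_norm' ?_ h2
    filter_upwards [eventually_ge_atTop (0 : ℤ)] with i hi using h1 i hi

theorem propertyA (U : Set E) (hU : IsOpen U) (hne : U.Nonempty) :
    ∃ x : E, ∃ q : ℕ, 0 < q ∧ ∀ m : ℕ, 1 ≤ m → (T ^ (q * m)) x ∈ U := by
  obtain ⟨u, hu⟩ := hne
  obtain ⟨r, hr, hball⟩ := Metric.isOpen_iff.1 hU u hu
  -- a large box
  obtain ⟨p, hp0, hp⟩ : ∃ p : ℕ, 0 < p ∧ ∀ i : ℤ, (p : ℤ) < |i| → ‖u i‖ ≤ r / 4 := by
    have h1 : ∀ᶠ i in cofinite, ‖u i‖ ≤ r / 4 := by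
      have := (tendsto_cofinite u).norm
      rw [norm_zero] at this
      exact (this.eventually_le_const (by linarith : (0 : ℝ) < r / 4))
    rw [Int.cofinite_eq, eventually_sup] at h1
    obtain ⟨a, ha⟩ := eventually_atBot.1 h1.1
    obtain ⟨b, hb⟩ := eventually_atTop.1 h1.2
    refine ⟨a.natAbs + b.natAbs + 1, by omega, fun i hi => ?_⟩
    rcases le_total 0 i with h | h
    · apply hb; rw [abs_of_nonneg h] at hi; omega
    · apply ha; rw [abs_of_nonpos h] at hi; omega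
  -- choice of j
  obtain ⟨j, hj1, hj2⟩ : ∃ j : ℕ, (4 * p : ℤ) ≤ 2 ^ j ∧
      (2 : ℝ) ^ ((p : ℤ) - (2 ^ j - p)) * ‖u‖ ≤ r / 4 := by
    obtain ⟨a, ha⟩ : ∃ a : ℕ, ‖u‖ * (1 / 2) ^ a ≤ r / 4 := by
      have h1 : Tendsto (fun a : ℕ => ‖u‖ * (1 / 2 : ℝ) ^ a) atTop (𝓝 0) := by
        have := (tendsto_pow_atTop_nhds_zero_of_lt_one (by norm_num : (0 : ℝ) ≤ 1 / 2)
          (by norm_num)).const_mul ‖u‖
        simpa using this
      exact (h1.eventually_le_const (by linarith : (0 : ℝ) < r / 4)).exists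
    refine ⟨4 * p + a, ?_, ?_⟩
    · have : 4 * p + a < 2 ^ (4 * p + a) := Nat.lt_two_pow_self
      have : ((4 * p + a : ℕ) : ℤ) < 2 ^ (4 * p + a) := by exact_mod_cast this
      push_cast at this
      omega
    · refine le_trans ?_ ha
      rw [mul_comm]
      apply mul_le_mul_of_nonneg_left _ (norm_nonneg _)
      have e : (1 / 2 : ℝ) ^ a = (2 : ℝ) ^ (-(a : ℤ)) := by
        rw [zpow_neg, zpow_natCast, one_div, inv_pow]
      rw [e]
      apply zpow_le_zpow_right₀ (by norm_num)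
      have : 4 * p + a < 2 ^ (4 * p + a) := Nat.lt_two_pow_self
      have : ((4 * p + a : ℕ) : ℤ) < 2 ^ (4 * p + a) := by exact_mod_cast this
      push_cast at this
      omega
  have h28 := two_le_eight j
  have hq : (((8 ^ j : ℕ)) : ℤ) = 8 ^ j := by push_cast; ring
  obtain ⟨q, hqdef⟩ : ∃ q : ℕ, q = 8 ^ j := ⟨_, rfl⟩
  rw [← hqdef] at hq
  have hq0 : 0 < q := by rw [hqdef]; positivity
  have hpq : (4 * p : ℤ) ≤ q := by rw [hq]; linarith
  refine ⟨mkE (testFun u p q) (testFun_tendsto u (by positivity) (by omega)), q, hq0, ?_⟩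
  intro m hm
  apply hball
  rw [Metric.mem_ball, dist_eq_norm]
  refine lt_of_le_of_lt (norm_le (C := r / 2) (by linarith) ?_) (by linarith)
  intro i
  rw [ZeroAtInftyContinuousMap.sub_apply, T_pow_apply, mkE_apply]
  have hbm : Int.bmod (i + ((q * m : ℕ) : ℤ)) q = Int.bmod i q := by
    push_cast
    exact Int.add_mul_bmod_self_left i q m
  obtain ⟨s, hs⟩ : ∃ s, s = Int.bmod i q := ⟨_, rfl⟩
  have hmq : (q : ℤ) ≤ ((q * m : ℕ) : ℤ) := by
    push_cast
    have : (1 : ℤ) ≤ m := by exact_mod_cast hm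
    nlinarith
  -- value of the iterate
  have hval : (2 : ℂ) ^ (phi (i + ((q * m : ℕ) : ℤ)) - phi i) *
      testFun u p q (i + ((q * m : ℕ) : ℤ)) =
      if |s| ≤ p ∧ (q : ℤ) ≤ i + ((q * m : ℕ) : ℤ) - s then (2 : ℂ) ^ (phi s - phi i) * u s
        else 0 := by
    unfold testFun
    rw [hbm, ← hs]
    split_ifs with h
    · rw [← mul_assoc, ← zpow_add₀ (by norm_num : (2 : ℂ) ≠ 0)]
      congr 2
      ring
    · simp
  rw [hval]
  have hsi : ∃ t : ℤ, i = q * t + s := by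
    refine ⟨Int.bdiv i q, ?_⟩
    rw [hs]
    exact (Int.bdiv_add_bmod i q).symm
  obtain ⟨t, ht⟩ := hsi
  rcases eq_or_ne t 0 with ht0 | ht0
  · -- the central block
    have his : i = s := by rw [ht, ht0]; ring
    rcases le_or_gt |s| (p : ℤ) with h1 | h1
    · have hsp := abs_le.1 h1
      rw [if_pos ⟨h1, by omega⟩, his]
      simp
      linarith
    · rw [if_neg (by rintro ⟨h2, _⟩; omega), zero_sub, norm_neg]
      have := hp i (by rw [his]; exact h1)
      linarith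
  · -- off the central block
    have hbig : (p : ℤ) < |i| := by
      have h1 := Int.bmod_lt (x := i) hq0
      have h2 := Int.le_bmod (x := i) hq0
      rw [← hs] at h1 h2
      rcases lt_or_gt_of_ne ht0 with h3 | h3
      · have : (q : ℤ) * t ≤ -q := by nlinarith
        have : i < 0 := by omega
        rw [abs_of_neg this]
        omega
      · have : (q : ℤ) ≤ q * t := by nlinarith
        have : 0 ≤ i := by omega
        rw [abs_of_nonneg this]
        omega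
    have hu := hp i hbig
    have hv : ‖(if |s| ≤ p ∧ (q : ℤ) ≤ i + ((q * m : ℕ) : ℤ) - s then
        (2 : ℂ) ^ (phi s - phi i) * u s else 0)‖ ≤ r / 4 := by
      split_ifs with h
      · rw [norm_mul, norm_wt]
        have h1 : phi s ≤ p := (phi_le_abs s).trans h.1
        have h2 : 2 ^ j - (p : ℤ) ≤ phi i := by
          rw [ht, hq]
          exact phi_near ht0 h.1 (by linarith)
        refine le_trans ?_ hj2
        apply mul_le_mul _ (norm_apply_le u _) (norm_nonneg _) (by positivity)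
        apply zpow_le_zpow_right₀ (by norm_num)
        linarith
      · simp; linarith
    refine (norm_sub_le _ _).trans ?_
    linarith

open Finset in
theorem residue_count (a b : ℤ) (hab : a ≤ b) (q : ℕ) (hq : 0 < q) (v : ℤ) :
    ((#{x ∈ Ico a b | x ≡ v [ZMOD q]} : ℕ) : ℝ) ≤ ((b : ℝ) - a) / q + 1 := by
  have h1 := Int.Ico_filter_modEq_card a b (r := (q : ℤ)) (by exact_mod_cast hq) v
  have h2 : ((#{x ∈ Ico a b | x ≡ v [ZMOD q]} : ℕ) : ℚ) ≤ ((b : ℚ) - a) / q + 1 := by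
    have hq' : (0 : ℚ) < q := by exact_mod_cast hq
    have h3 : ((#{x ∈ Ico a b | x ≡ v [ZMOD q]} : ℕ) : ℚ) =
        ((max (⌈((b : ℚ) - v) / ((q : ℤ) : ℚ)⌉ - ⌈((a : ℚ) - v) / ((q : ℤ) : ℚ)⌉) 0 : ℤ) : ℚ) := by
      rw [← h1]; simp
    rw [h3]
    push_cast
    apply max_le
    · have e1 := (Int.ceil_lt_add_one (((b : ℚ) - v) / (q : ℚ))).le
      have e2 := Int.le_ceil (((a : ℚ) - v) / (q : ℚ))
      have e3 : ((b : ℚ) - v) / (q : ℚ) - ((a : ℚ) - v) / (q : ℚ) = ((b : ℚ) - a) / q := by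
        field_simp; ring
      linarith
    · have : (0 : ℚ) ≤ ((b : ℚ) - a) / q := by
        apply div_nonneg _ hq'.le
        have : (a : ℚ) ≤ b := by exact_mod_cast hab
        linarith
      linarith
  have h4 : (((#{x ∈ Ico a b | x ≡ v [ZMOD q]} : ℕ) : ℚ) : ℝ) ≤ ((((b : ℚ) - a) / q + 1 : ℚ) : ℝ) := by
    exact_mod_cast h2
  push_cast at h4
  exact h4

open Finset in
open Classical in
theorem near_count (a b : ℤ) (hab : a ≤ b) (q : ℕ) (hq : 0 < q) (R : ℕ) (c : ℤ) :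
    ((#{n ∈ Ico a b | ∃ t : ℤ, |c - n - t * q| < R} : ℕ) : ℝ) ≤
      2 * R * (((b : ℝ) - a) / q + 1) := by
  have hsub : {n ∈ Ico a b | ∃ t : ℤ, |c - n - t * q| < R} ⊆
      (Ico (-(R : ℤ)) R).biUnion (fun d => {x ∈ Ico a b | x ≡ c - d [ZMOD q]}) := by
    intro n hn
    rw [mem_filter] at hn
    obtain ⟨hn, t, ht⟩ := hn
    rw [mem_biUnion]
    have ht' := abs_lt.1 ht
    refine ⟨c - n - t * q, mem_Ico.2 ⟨ht'.1.le, ht'.2⟩, mem_filter.2 ⟨hn, ?_⟩⟩
    apply Int.ModEq.symm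
    rw [Int.modEq_iff_dvd]
    exact ⟨-t, by ring⟩
  have h1 := (card_le_card hsub).trans card_biUnion_le
  have h2 : ((#{n ∈ Ico a b | ∃ t : ℤ, |c - n - t * q| < R} : ℕ) : ℝ) ≤
      ∑ d ∈ Ico (-(R : ℤ)) R, ((#{x ∈ Ico a b | x ≡ c - d [ZMOD q]} : ℕ) : ℝ) := by
    exact_mod_cast h1
  refine h2.trans ?_
  have h3 := sum_le_card_nsmul (Ico (-(R : ℤ)) R)
    (fun d => ((#{x ∈ Ico a b | x ≡ c - d [ZMOD q]} : ℕ) : ℝ)) (((b : ℝ) - a) / q + 1)
    (fun d _ => residue_count a b hab q hq (c - d))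
  refine h3.trans (le_of_eq ?_)
  rw [Int.card_Ico, nsmul_eq_mul]
  congr 1
  have : ((R : ℤ) - -(R : ℤ)).toNat = 2 * R := by omega
  rw [this]; push_cast; ring

open Finset in
open Classical in
/-- block of positive density -/
theorem exists_block (A : Set ℕ) (δ : ℝ) (hδ : 0 < δ)
    (hA : ∃ᶠ N : ℕ in atTop, δ * N ≤ (#{n ∈ Ico 1 (N + 1) | n ∈ A} : ℕ)) (N : ℕ) (hN : 0 < N) :
    ∃ a : ℕ, δ / 2 * N ≤ (#{n ∈ Ico a (a + N) | n ∈ A} : ℕ) := by
  by_contra hc
  push Not at hc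
  have h1 : ∀ b : ℕ, ((#{n ∈ Ico 1 (1 + b * N) | n ∈ A} : ℕ) : ℝ) ≤ b * (δ / 2 * N) := by
    intro b
    induction b with
    | zero => simp
    | succ b ih =>
      have e : Ico 1 (1 + (b + 1) * N) = Ico 1 (1 + b * N) ∪ Ico (1 + b * N) (1 + b * N + N) := by
        rw [Finset.Ico_union_Ico_eq_Ico (by omega) (by omega)]
        congr 1; ring
      rw [e, filter_union]
      have h2 := card_union_le {n ∈ Ico 1 (1 + b * N) | n ∈ A}
        {n ∈ Ico (1 + b * N) (1 + b * N + N) | n ∈ A}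
      have h3 : ((#({n ∈ Ico 1 (1 + b * N) | n ∈ A} ∪ {n ∈ Ico (1 + b * N) (1 + b * N + N) | n ∈ A}) : ℕ) : ℝ)
          ≤ ((#{n ∈ Ico 1 (1 + b * N) | n ∈ A} : ℕ) : ℝ) +
            ((#{n ∈ Ico (1 + b * N) (1 + b * N + N) | n ∈ A} : ℕ) : ℝ) := by exact_mod_cast h2
      have h4 := hc (1 + b * N)
      push_cast
      linarith
  obtain ⟨M, hM, hMA⟩ := (hA.and_eventually (eventually_gt_atTop N)).exists
  have h2 := h1 (M / N + 1)
  have h3 : M + 1 ≤ 1 + (M / N + 1) * N := by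
    have := Nat.lt_div_mul_add hN (a := M)
    nlinarith
  have h4 : ((#{n ∈ Ico 1 (M + 1) | n ∈ A} : ℕ) : ℝ) ≤ ((#{n ∈ Ico 1 (1 + (M / N + 1) * N) | n ∈ A} : ℕ) : ℝ) := by
    exact_mod_cast card_le_card (filter_subset_filter _ (Ico_subset_Ico_right h3))
  have h5 : ((M / N : ℕ) : ℝ) * N ≤ M := by exact_mod_cast Nat.div_mul_le_self M N
  have h6 : (N : ℝ) < M := by exact_mod_cast hMA
  push_cast at h2
  nlinarith

open Finset in
open Classical in
/-- few points of a window are near multiples of moderate powers of eight -/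
theorem window_bound (l I : ℕ) (a N : ℕ) (hN : N = 4 ^ I) (c : ℤ) :
    ((#{n ∈ Ico (a : ℤ) (a + N) | ∃ i ∈ Icc l I, ∃ t : ℤ, |c - n - t * 8 ^ i| < 2 ^ i} : ℕ) : ℝ) ≤
      4 * (1 / 4) ^ l * N + 4 * (1 / 2) ^ I * N := by
  have hsub : {n ∈ Ico (a : ℤ) (a + N) | ∃ i ∈ Icc l I, ∃ t : ℤ, |c - n - t * 8 ^ i| < 2 ^ i} ⊆
      (Icc l I).biUnion (fun i => {n ∈ Ico (a : ℤ) (a + N) |
        ∃ t : ℤ, |c - n - t * ((8 ^ i : ℕ) : ℤ)| < ((2 ^ i : ℕ) : ℤ)}) := by
    intro n hn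
    rw [mem_filter] at hn
    obtain ⟨hn, i, hi, t, ht⟩ := hn
    rw [mem_biUnion]
    refine ⟨i, hi, mem_filter.2 ⟨hn, t, ?_⟩⟩
    push_cast
    exact ht
  have h1 := (card_le_card hsub).trans card_biUnion_le
  have h2 : ((#{n ∈ Ico (a : ℤ) (a + N) | ∃ i ∈ Icc l I, ∃ t : ℤ,
      |c - n - t * 8 ^ i| < 2 ^ i} : ℕ) : ℝ) ≤
      ∑ i ∈ Icc l I, ((#{n ∈ Ico (a : ℤ) (a + N) |
        ∃ t : ℤ, |c - n - t * ((8 ^ i : ℕ) : ℤ)| < ((2 ^ i : ℕ) : ℤ)} : ℕ) : ℝ) := by
    exact_mod_cast h1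
  refine h2.trans ?_
  have h3 : ∀ i ∈ Icc l I, ((#{n ∈ Ico (a : ℤ) (a + N) |
        ∃ t : ℤ, |c - n - t * ((8 ^ i : ℕ) : ℤ)| < ((2 ^ i : ℕ) : ℤ)} : ℕ) : ℝ) ≤
        2 * N * (1 / 4) ^ i + 2 * 2 ^ i := by
    intro i _
    have := near_count (a : ℤ) (a + N) (by omega) (8 ^ i) (by positivity) (2 ^ i) c
    refine this.trans (le_of_eq ?_)
    push_cast
    have e : (8 : ℝ) ^ i = 2 ^ i * 4 ^ i := by rw [← mul_pow]; norm_num
    rw [e]
    have h4 : (2 : ℝ) ^ i ≠ 0 := by positivity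
    have h5 : (4 : ℝ) ^ i ≠ 0 := by positivity
    rw [one_div, inv_pow]
    field_simp
    ring
  refine (sum_le_sum h3).trans ?_
  rw [sum_add_distrib, ← mul_sum, ← mul_sum]
  have h4 : ∑ i ∈ Icc l I, (1 / 4 : ℝ) ^ i ≤ (1 / 4) ^ l * 2 := by
    have := geom_sum_Ico_le_of_lt_one (x := (1 / 4 : ℝ)) (m := l) (n := I + 1) (by norm_num)
      (by norm_num)
    have e : Icc l I = Ico l (I + 1) := by ext x; simp
    rw [e]
    refine this.trans ?_
    have : (0 : ℝ) ≤ (1 / 4) ^ l := by positivity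
    rw [div_le_iff₀ (by norm_num)]
    nlinarith
  have h5 : ∑ i ∈ Icc l I, (2 : ℝ) ^ i ≤ 2 * 2 ^ I := by
    have e : ∑ i ∈ Icc l I, (2 : ℝ) ^ i ≤ ∑ i ∈ range (I + 1), (2 : ℝ) ^ i := by
      apply sum_le_sum_of_subset_of_nonneg
      · intro x hx; rw [mem_Icc] at hx; rw [mem_range]; omega
      · intros; positivity
    refine e.trans ?_
    rw [geom_sum_eq (by norm_num)]
    rw [pow_succ]
    have : (0 : ℝ) < 2 ^ I := by positivity
    linarith
  have h6 : (2 : ℝ) ^ I = (1 / 2) ^ I * N := by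
    rw [hN]; push_cast
    rw [← mul_pow]; norm_num
  have h7 : (0 : ℝ) ≤ N := by positivity
  rw [h6] at h5
  nlinarith

/-- `m` differs from a point of the block by a number near a positive multiple of a high power. -/
def Exc (I a N : ℕ) (s : ℤ) (m : ℕ) : Prop :=
  ∃ i : ℕ, I < i ∧ ∃ n ∈ Finset.Ico a (a + N), ∃ t : ℕ, 1 ≤ t ∧
      |(m : ℤ) - n - s - t * 8 ^ i| < 2 ^ i

open Finset in
open Classical in
/-- Few numbers differ from a point of a block by a number near a positive multiple of a high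
power of eight. -/
theorem tail_bound (I : ℕ) (hI : 1 ≤ I) (a N M : ℕ) (hN : N = 4 ^ I) (s : ℤ) :
    ((#{m ∈ Ico 1 (M + 1) | Exc I a N s m} : ℕ) : ℝ) ≤
      (3 * M + 2 * s.natAbs) * (1 / 2) ^ I := by
  set s' := s.natAbs with hs'
  set idx : Finset ℕ := (Ico (I + 1) (2 * (M + s') + I + 1)).filter
    (fun i => 8 ^ i ≤ 2 * (M + s')) with hidx
  have hsub : {m ∈ Ico 1 (M + 1) | Exc I a N s m}.map Nat.castEmbedding ⊆
      idx.biUnion (fun i => {m ∈ Ico (1 : ℤ) (M + 1) |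
        ∃ t : ℤ, |(s + a) - m - t * ((8 ^ i : ℕ) : ℤ)| < ((N + 2 ^ i : ℕ) : ℤ)}) := by
    intro m' hm'
    rw [Finset.mem_map] at hm'
    obtain ⟨m, hm, rfl⟩ := hm'
    rw [mem_filter, mem_Ico] at hm
    obtain ⟨⟨hm1, hm2⟩, i, hi, n, hn, t, ht, hlt⟩ := hm
    rw [mem_Ico] at hn
    have hlt' := abs_lt.1 hlt
    have h8 : (8 : ℤ) ^ i ≤ 2 * (M + s') := by
      have e1 : (1 : ℤ) ≤ t := by exact_mod_cast ht
      have e2 : (0 : ℤ) < 8 ^ i := by positivity
      have e3 : (8 : ℤ) ^ i ≤ t * 8 ^ i := by nlinarith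
      have e4 : 2 * (2 : ℤ) ^ i ≤ 8 ^ i := by
        obtain ⟨i', rfl⟩ : ∃ i', i = i' + 1 := ⟨i - 1, by omega⟩
        have := two_le_eight i'
        have h0 : (0 : ℤ) < 8 ^ i' := by positivity
        rw [pow_succ, pow_succ]
        linarith
      have e5 : -(s' : ℤ) ≤ s := by omega
      have e6 : (m : ℤ) ≤ M := by omega
      have e7 : (0 : ℤ) ≤ n := by omega
      linarith
    rw [mem_biUnion]
    refine ⟨i, ?_, ?_⟩
    · rw [hidx, mem_filter, mem_Ico]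
      have h8' : 8 ^ i ≤ 2 * (M + s') := by exact_mod_cast h8
      refine ⟨⟨hi, ?_⟩, h8'⟩
      have : i < 8 ^ i := Nat.lt_pow_self (by norm_num)
      omega
    · rw [mem_filter, mem_Ico]
      refine ⟨⟨by simp; omega, by simp; omega⟩, -t, ?_⟩
      have hcast : ((Nat.castEmbedding m : ℤ)) = m := rfl
      rw [hcast, abs_lt]
      push_cast
      have e1 : (a : ℤ) ≤ n := by omega
      have e2 : (n : ℤ) < a + N := by omega
      constructor
      · linarith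
      · linarith
  have h1 := (card_le_card hsub).trans card_biUnion_le
  rw [card_map] at h1
  have h2 : ((#{m ∈ Ico 1 (M + 1) | Exc I a N s m} : ℕ) : ℝ) ≤
      ∑ i ∈ idx, ((#{m ∈ Ico (1 : ℤ) (M + 1) |
        ∃ t : ℤ, |(s + a) - m - t * ((8 ^ i : ℕ) : ℤ)| < ((N + 2 ^ i : ℕ) : ℤ)} : ℕ) : ℝ) := by
    exact_mod_cast h1
  refine h2.trans ?_
  have h3 : ∀ i ∈ idx, ((#{m ∈ Ico (1 : ℤ) (M + 1) |
        ∃ t : ℤ, |(s + a) - m - t * ((8 ^ i : ℕ) : ℤ)| < ((N + 2 ^ i : ℕ) : ℤ)} : ℕ) : ℝ) ≤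
        2 * (3 * M + 2 * s') * (N * (1 / 8) ^ i + (1 / 4) ^ i) := by
    intro i hi
    rw [hidx, mem_filter] at hi
    have := near_count (1 : ℤ) (M + 1) (by omega) (8 ^ i) (by positivity) (N + 2 ^ i) (s + a)
    refine this.trans ?_
    push_cast
    have e1 : ((8 : ℝ) ^ i) ≤ 2 * (M + s') := by exact_mod_cast hi.2
    have e2 : (0 : ℝ) < 8 ^ i := by positivity
    have e3 : ((M : ℝ) + 1 - 1) / 8 ^ i + 1 ≤ (3 * M + 2 * s') * (1 / 8) ^ i := by
      rw [one_div, inv_pow, ← div_eq_mul_inv, le_div_iff₀ e2]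
      field_simp
      linarith
    have e4 : (1 / 4 : ℝ) ^ i = 2 ^ i * (1 / 8) ^ i := by rw [← mul_pow]; norm_num
    rw [e4]
    have e5 : (0 : ℝ) ≤ 2 * (N + 2 ^ i) := by positivity
    have := mul_le_mul_of_nonneg_left e3 e5
    refine this.trans (le_of_eq ?_)
    ring
  refine (sum_le_sum h3).trans ?_
  have h4 : ∑ i ∈ idx, 2 * (3 * (M : ℝ) + 2 * s') * (N * (1 / 8) ^ i + (1 / 4) ^ i) ≤
      ∑ i ∈ Ico (I + 1) (2 * (M + s') + I + 1),
        2 * (3 * (M : ℝ) + 2 * s') * (N * (1 / 8) ^ i + (1 / 4) ^ i) := by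
    apply sum_le_sum_of_subset_of_nonneg (filter_subset _ _)
    intros; positivity
  refine h4.trans ?_
  rw [← mul_sum, sum_add_distrib, ← mul_sum]
  have g1 := geom_sum_Ico_le_of_lt_one (x := (1 / 8 : ℝ)) (m := I + 1)
    (n := 2 * (M + s') + I + 1) (by norm_num) (by norm_num)
  have g2 := geom_sum_Ico_le_of_lt_one (x := (1 / 4 : ℝ)) (m := I + 1)
    (n := 2 * (M + s') + I + 1) (by norm_num) (by norm_num)
  have g3 : (1 / 8 : ℝ) ^ (I + 1) / (1 - 1 / 8) = (1 / 8) ^ I * (1 / 7) := by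
    rw [pow_succ]; ring
  have g4 : (1 / 4 : ℝ) ^ (I + 1) / (1 - 1 / 4) = (1 / 4) ^ I * (1 / 3) := by
    rw [pow_succ]; ring
  rw [g3] at g1
  rw [g4] at g2
  have hN' : (N : ℝ) * (1 / 8) ^ I = (1 / 2) ^ I := by
    rw [hN]; push_cast
    rw [← mul_pow]; norm_num
  have g5 : (1 / 4 : ℝ) ^ I ≤ (1 / 2) ^ I := pow_le_pow_left₀ (by norm_num) (by norm_num) I
  have g6 : (N : ℝ) * ∑ i ∈ Ico (I + 1) (2 * (M + s') + I + 1), (1 / 8 : ℝ) ^ i ≤
      (1 / 2) ^ I * (1 / 7) := by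
    rw [← hN', mul_assoc]
    exact mul_le_mul_of_nonneg_left g1 (by positivity)
  have g7 : (N : ℝ) * ∑ i ∈ Ico (I + 1) (2 * (M + s') + I + 1), (1 / 8 : ℝ) ^ i +
      ∑ i ∈ Ico (I + 1) (2 * (M + s') + I + 1), (1 / 4 : ℝ) ^ i ≤ (1 / 2) ^ I * (1 / 2) := by
    have : (0 : ℝ) ≤ (1 / 2) ^ I := by positivity
    linarith
  have g8 : (0 : ℝ) ≤ 2 * (3 * M + 2 * s') := by positivity
  refine (mul_le_mul_of_nonneg_left g7 g8).trans (le_of_eq ?_)
  ring

open Finset in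
open Classical in
theorem combi (A B : Set ℕ) (δ β : ℝ) (hδ : 0 < δ) (hβ : 0 < β)
    (hA : ∃ᶠ N : ℕ in atTop, δ * N ≤ (#{n ∈ Ico 1 (N + 1) | n ∈ A} : ℕ))
    (hB : ∃ᶠ N : ℕ in atTop, β * N ≤ (#{n ∈ Ico 1 (N + 1) | n ∈ B} : ℕ))
    (l : ℕ) (hl : 4 * (1 / 4 : ℝ) ^ l ≤ δ / 8) (K : ℕ) (s : ℤ)
    (H : ∀ n ∈ A, ∀ m ∈ B, n + K ≤ m → ∃ i t : ℕ, l ≤ i ∧ 1 ≤ t ∧
      |(m : ℤ) - n - s - t * 8 ^ i| < 2 ^ i) : False := by
  -- choice of the scale
  obtain ⟨I, hI1, hI2, hI3⟩ : ∃ I : ℕ, 1 ≤ I ∧ 4 * (1 / 2 : ℝ) ^ I ≤ δ / 8 ∧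
      3 * (1 / 2 : ℝ) ^ I ≤ β / 4 := by
    have h1 : Tendsto (fun I : ℕ => 4 * (1 / 2 : ℝ) ^ I) atTop (𝓝 0) := by
      simpa using (tendsto_pow_atTop_nhds_zero_of_lt_one (by norm_num : (0 : ℝ) ≤ 1 / 2)
        (by norm_num)).const_mul 4
    have h2 : Tendsto (fun I : ℕ => 3 * (1 / 2 : ℝ) ^ I) atTop (𝓝 0) := by
      simpa using (tendsto_pow_atTop_nhds_zero_of_lt_one (by norm_num : (0 : ℝ) ≤ 1 / 2)
        (by norm_num)).const_mul 3
    exact ((eventually_ge_atTop 1).and ((h1.eventually_le_const (by positivity)).and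
      (h2.eventually_le_const (by positivity)))).exists
  obtain ⟨N, hN⟩ : ∃ N : ℕ, N = 4 ^ I := ⟨_, rfl⟩
  have hN0 : 0 < N := by rw [hN]; positivity
  obtain ⟨a, ha⟩ := exists_block A δ hδ hA N hN0
  -- every large element of `B` is exceptional
  have key : ∀ m ∈ B, a + N + K ≤ m → Exc I a N s m := by
    intro m hm hmK
    by_contra hc
    unfold Exc at hc
    push Not at hc
    have hsub : {n ∈ Ico a (a + N) | n ∈ A}.map Nat.castEmbedding ⊆
        {n ∈ Ico (a : ℤ) (a + N) | ∃ i ∈ Icc l I, ∃ t : ℤ, |(m - s : ℤ) - n - t * 8 ^ i| < 2 ^ i} := by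
      intro n' hn'
      rw [Finset.mem_map] at hn'
      obtain ⟨n, hn, rfl⟩ := hn'
      rw [mem_filter, mem_Ico] at hn
      obtain ⟨i, t, hi, ht, hlt⟩ := H n hn.2 m hm (by omega)
      have hcast : ((Nat.castEmbedding n : ℤ)) = n := rfl
      rw [mem_filter, mem_Ico, hcast]
      refine ⟨⟨by omega, by omega⟩, i, mem_Icc.2 ⟨hi, ?_⟩, t, ?_⟩
      · by_contra hiI
        have := hc i (by omega) n (mem_Ico.2 hn.1) t ht
        omega
      · have e : (m - s : ℤ) - n - t * 8 ^ i = (m : ℤ) - n - s - t * 8 ^ i := by ring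
        rw [e]; exact hlt
    have h1 := card_le_card hsub
    rw [card_map] at h1
    have h2 := window_bound l I a N hN (m - s : ℤ)
    have h3 : ((#{n ∈ Ico a (a + N) | n ∈ A} : ℕ) : ℝ) ≤
      ((#{n ∈ Ico (a : ℤ) (a + N) | ∃ i ∈ Icc l I, ∃ t : ℤ,
        |(m - s : ℤ) - n - t * 8 ^ i| < 2 ^ i} : ℕ) : ℝ) := by exact_mod_cast h1
    have h4 : (0 : ℝ) < N := by exact_mod_cast hN0
    have h5 := mul_le_mul_of_nonneg_right hl h4.le
    have h6 := mul_le_mul_of_nonneg_right hI2 h4.le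
    nlinarith
  -- counting
  have hcount : ∀ M : ℕ, ((#{n ∈ Ico 1 (M + 1) | n ∈ B} : ℕ) : ℝ) ≤
      (a + N + K) + (3 * M + 2 * s.natAbs) * (1 / 2) ^ I := by
    intro M
    have hsub : {n ∈ Ico 1 (M + 1) | n ∈ B} ⊆ range (a + N + K) ∪
        {m ∈ Ico 1 (M + 1) | Exc I a N s m} := by
      intro m hm
      rw [mem_filter] at hm
      rw [mem_union, mem_range, mem_filter]
      rcases lt_or_ge m (a + N + K) with h | h
      · exact Or.inl h
      · exact Or.inr ⟨hm.1, key m hm.2 h⟩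
    have h1 := (card_le_card hsub).trans (card_union_le _ _)
    rw [card_range] at h1
    have h2 := tail_bound I hI1 a N M hN s
    have h3 : ((#{n ∈ Ico 1 (M + 1) | n ∈ B} : ℕ) : ℝ) ≤ ((a + N + K : ℕ) : ℝ) +
      ((#{m ∈ Ico 1 (M + 1) | Exc I a N s m} : ℕ) : ℝ) := by exact_mod_cast h1
    push_cast at h3
    linarith
  obtain ⟨C, hC⟩ : ∃ C : ℕ, 2 * ((a + N + K : ℝ) + 2 * s.natAbs) / β < C := exists_nat_gt _
  obtain ⟨M, hM, hMC⟩ := (hB.and_eventually (eventually_ge_atTop C)).exists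
  have h1 := hcount M
  have h2 : (C : ℝ) ≤ M := by exact_mod_cast hMC
  rw [div_lt_iff₀ hβ] at hC
  have h3 : (C : ℝ) * β ≤ M * β := mul_le_mul_of_nonneg_right h2 hβ.le
  have h4 : (0 : ℝ) ≤ M := by positivity
  have h5 := mul_le_mul_of_nonneg_right hI3 h4
  have h6 : (1 / 2 : ℝ) ^ I ≤ 1 := pow_le_one₀ (by norm_num) (by norm_num)
  have h7 : (0 : ℝ) ≤ 2 * s.natAbs := by positivity
  have h8 := mul_le_mul_of_nonneg_left h6 h7
  have h9 : (0 : ℝ) < M * β ∨ (M : ℝ) * β = 0 := by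
    rcases h4.eq_or_lt with h | h
    · right; rw [← h]; ring
    · left; positivity
  rcases h9 with h9 | h9
  · nlinarith
  · have : (0 : ℝ) ≤ (a + N + K : ℝ) := by positivity
    nlinarith

open Finset in
open Classical in
theorem no_rec (x : E) (hx : x ≠ 0) : ∃ c : ℝ, 0 < c ∧ ∀ δ : ℝ, 0 < δ →
    (∃ᶠ N : ℕ in atTop, δ * N ≤ (#{n ∈ Ico 1 (N + 1) | (T ^ n) x ∈ Metric.ball x c} : ℕ)) →
    ∃ r : ℝ, 0 < r ∧ ∀ β : ℝ, 0 < β →
      ¬ ∃ᶠ N : ℕ in atTop, β * N ≤ (#{n ∈ Ico 1 (N + 1) | (T ^ n) x ∈ Metric.ball x r} : ℕ) := by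
  obtain ⟨s, hs⟩ : ∃ s : ℤ, x s ≠ 0 := by
    by_contra hc
    push Not at hc
    exact hx (ZeroAtInftyContinuousMap.ext (fun i => by rw [hc i]; rfl))
  obtain ⟨c, hcdef⟩ : ∃ c, c = ‖x s‖ / 2 := ⟨_, rfl⟩
  have hc : 0 < c := by rw [hcdef]; positivity
  refine ⟨c, hc, fun δ hδ hA => ?_⟩
  obtain ⟨l, hl⟩ : ∃ l : ℕ, 4 * (1 / 4 : ℝ) ^ l ≤ δ / 8 := by
    have h1 : Tendsto (fun I : ℕ => 4 * (1 / 4 : ℝ) ^ I) atTop (𝓝 0) := by
      simpa using (tendsto_pow_atTop_nhds_zero_of_lt_one (by norm_num : (0 : ℝ) ≤ 1 / 4)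
        (by norm_num)).const_mul 4
    exact (h1.eventually_le_const (by positivity)).exists
  obtain ⟨r, hrdef⟩ : ∃ r : ℝ, r = c * (2 : ℝ) ^ (phi s - 2 ^ l) / 2 := ⟨_, rfl⟩
  have hr : 0 < r := by rw [hrdef]; positivity
  refine ⟨r, hr, fun β hβ hB => ?_⟩
  obtain ⟨K, hK1, hK2⟩ : ∃ K : ℕ, s < K ∧ ∀ k : ℕ, K ≤ k → ‖x (s - k)‖ ≤ r := by
    have h1 : ∀ᶠ i in cofinite, ‖x i‖ ≤ r := by
      have := (tendsto_cofinite x).norm
      rw [norm_zero] at this
      exact this.eventually_le_const hr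
    rw [Int.cofinite_eq, eventually_sup] at h1
    obtain ⟨a, ha⟩ := eventually_atBot.1 h1.1
    refine ⟨s.natAbs + a.natAbs + 1, by omega, fun k hk => ha _ (by omega)⟩
  refine combi {n | (T ^ n) x ∈ Metric.ball x c} {n | (T ^ n) x ∈ Metric.ball x r} δ β hδ hβ
    hA hB l hl K s ?_
  intro n hn m hm hnm
  rw [Set.mem_ofPred_eq, Metric.mem_ball, dist_eq_norm] at hn hm
  obtain ⟨i, hi⟩ : ∃ i : ℤ, i = s + n - m := ⟨_, rfl⟩
  have h1 := (norm_apply_le _ s).trans_lt hn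
  have h2 := (norm_apply_le _ i).trans_lt hm
  rw [ZeroAtInftyContinuousMap.sub_apply, T_pow_apply] at h1 h2
  have e1 : i + m = s + n := by omega
  rw [e1] at h2
  have h3 : c < (2 : ℝ) ^ (phi (s + n) - phi s) * ‖x (s + n)‖ := by
    have := norm_sub_norm_le (x s) ((2 : ℂ) ^ (phi (s + n) - phi s) * x (s + n))
    rw [norm_sub_rev, norm_mul, norm_wt] at this
    linarith
  have h4 : (2 : ℝ) ^ (phi (s + n) - phi i) * ‖x (s + n)‖ < 2 * r := by
    have := norm_sub_norm_le ((2 : ℂ) ^ (phi (s + n) - phi i) * x (s + n)) (x i)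
    rw [norm_mul, norm_wt] at this
    have h5 : ‖x i‖ ≤ r := by
      have := hK2 (m - n) (by omega)
      have e : s - ((m - n : ℕ) : ℤ) = i := by omega
      rwa [e] at this
    linarith
  have h5 : (2 : ℝ) ^ (phi (s + n) - phi i) =
      (2 : ℝ) ^ (phi s - phi i) * (2 : ℝ) ^ (phi (s + n) - phi s) := by
    rw [← zpow_add₀ (by norm_num : (2 : ℝ) ≠ 0)]
    congr 1; ring
  rw [h5, mul_assoc] at h4
  have h6 : (0 : ℝ) < (2 : ℝ) ^ (phi s - phi i) := by positivity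
  have h7 := mul_lt_mul_of_pos_left h3 h6
  have h8 : (2 : ℝ) ^ (phi s - phi i) * c < (2 : ℝ) ^ (phi s - 2 ^ l) * c := by
    refine (h7.trans h4).trans_le (le_of_eq ?_)
    rw [hrdef]; ring
  have h9 : (2 : ℝ) ^ (phi s - phi i) < (2 : ℝ) ^ (phi s - 2 ^ l) := lt_of_mul_lt_mul_right h8 hc.le
  have h10 : phi s - phi i < phi s - 2 ^ l := (zpow_lt_zpow_iff_right₀ (by norm_num)).1 h9
  have h11 : (2 : ℤ) ^ l < phi i := by linarith
  have hineg : i < 0 := by omega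
  rw [phi_of_neg hineg] at h11
  have h12 : (0 : ℤ) < 2 ^ l := by positivity
  have h13 : 0 < h (-i) := by
    have : (0 : ℤ) < (h (-i) : ℤ) := by linarith
    exact_mod_cast this
  obtain ⟨i', t, ht, hit⟩ := exists_of_h_pos (by omega) h13
  refine ⟨i', t, ?_, ht, ?_⟩
  · have h14 : (2 : ℤ) ^ l < 2 ^ i' := by
      have := abs_nonneg (-i - t * 8 ^ i')
      linarith
    have : l < i' := (pow_lt_pow_iff_right₀ (by norm_num : (1 : ℤ) < 2)).1 h14
    omega
  · have e : (m : ℤ) - n - s - t * 8 ^ i' = -i - t * 8 ^ i' := by rw [hi]; ring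
    rw [e]
    have : (0 : ℤ) < (h (-i) : ℤ) := by exact_mod_cast h13
    linarith

theorem h_succ' {k : ℤ} (hk : 0 ≤ k) : h (k + 1) ≤ h k + 1 := by
  rcases Nat.eq_zero_or_pos (h (k + 1)) with h0 | h0
  · omega
  · obtain ⟨i, t, ht, hc⟩ := exists_of_h_pos (by omega) h0
    have : h (k + 1) - 1 ≤ h k := by
      apply le_h hk ht
      have h1 : |k - t * 8 ^ i| ≤ |k + 1 - t * 8 ^ i| + 1 := by
        have e : k - t * 8 ^ i = (k + 1 - t * 8 ^ i) + (-1) := by ring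
        rw [e]
        exact (abs_add_le _ _).trans (by simp)
      have h2 : ((h (k + 1) - 1 : ℕ) : ℤ) = (h (k + 1) : ℤ) - 1 := by omega
      rw [h2]; linarith
    omega

theorem phi_succ' (i : ℤ) : -1 ≤ phi (i + 1) - phi i := by
  rcases lt_or_ge i 0 with hi | hi
  · rcases lt_or_ge (i + 1) 0 with hi' | hi'
    · rw [phi_of_neg hi, phi_of_neg hi']
      have := h_succ' (k := -(i + 1)) (by omega)
      have e : -(i + 1) + 1 = -i := by ring
      rw [e] at this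
      omega
    · have : i + 1 = 0 := by omega
      rw [this, phi_of_nonneg le_rfl]
      have h1 := phi_le_abs i
      have : i = -1 := by omega
      rw [this] at h1 ⊢
      simp at h1
      omega
  · rw [phi_of_nonneg hi, phi_of_nonneg (by omega)]; omega

theorem exists_ne_zero : ∃ f : C₀(ℤ, ℂ), f ≠ 0 := by
  refine ⟨mkE (fun i => if i = 0 then 1 else 0) ?_, ?_⟩
  · apply tendsto_const_nhds.congr'
    filter_upwards [(Set.finite_singleton (0 : ℤ)).eventually_cofinite_notMem] with i hi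
    rw [if_neg (by simpa using hi)]
  · intro h
    have := DFunLike.congr_fun h 0
    simp at this

open Finset in
open Classical in
/-- The main facts. -/
theorem main : ∃ w : ℤ → ℝ, (∀ i, 1 / 2 ≤ w i ∧ w i ≤ 2) ∧ ∃ T : C₀(ℤ, ℂ) →L[ℂ] C₀(ℤ, ℂ),
    (∀ f i, T f i = w i * f (i + 1)) ∧
    (∀ U : Set C₀(ℤ, ℂ), IsOpen U → U.Nonempty →
      ∃ x : C₀(ℤ, ℂ), ∃ q : ℕ, 0 < q ∧ ∀ m : ℕ, 1 ≤ m → (T ^ (q * m)) x ∈ U) ∧
    (∀ x : C₀(ℤ, ℂ), x ≠ 0 → ∃ c : ℝ, 0 < c ∧ ∀ δ : ℝ, 0 < δ →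
      (∃ᶠ N : ℕ in atTop, δ * N ≤ (#{n ∈ Ico 1 (N + 1) | (T ^ n) x ∈ Metric.ball x c} : ℕ)) →
      ∃ r : ℝ, 0 < r ∧ ∀ β : ℝ, 0 < β →
      ¬ ∃ᶠ N : ℕ in atTop, β * N ≤ (#{n ∈ Ico 1 (N + 1) | (T ^ n) x ∈ Metric.ball x r} : ℕ)) := by
  refine ⟨fun i => (2 : ℝ) ^ (phi (i + 1) - phi i), fun i => ⟨?_, wt_le i⟩, T, ?_, propertyA, no_rec⟩
  · have := zpow_le_zpow_right₀ (by norm_num : (1 : ℝ) ≤ 2) (phi_succ' i)
    have e : (2 : ℝ) ^ (-1 : ℤ) = 1 / 2 := by norm_num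
    rwa [e] at this
  · intro f i
    rw [T_apply]
    push_cast
    rfl

end Pool.Agent.H48.PropertyA
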